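import Pool.Agent.Lib.MP_adb5ad_gt.Defs

/-!
# The average of the translates of a bump over a sphere
-/

open MeasureTheory FourierTransform Real

noncomputable section

namespace Pool.Agent.Lib.MP_adb5ad_gt

theorem averageStmt : AverageStmt := by
  intro d μ hμ hsphere φ r hr hφ hsupp s hs
  have hcs : HasCompactSupport φ := by
    apply HasCompactSupport.intro (isCompact_closedBall (0 : E d) r)
    intro x hx
    apply hsupp
    rw [Metric.mem_closedBall, dist_zero_right, not_le] at hx
    exact hx.le
  obtain ⟨C, hC⟩ := hcs.exists_bound_of_continuous hφ
  have hcont : Continuous (fun p : E d × E d => φ (p.1 - s • p.2)) :=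
    hφ.comp (continuous_fst.sub (continuous_snd.const_smul s))
  have hae : ∀ x : E d, (s + r ≤ ‖x‖ ∨ ‖x‖ ≤ s - r) → ∫ u, φ (x - s • u) ∂μ = 0 := by
    intro x hx
    apply integral_eq_zero_of_ae
    filter_upwards [hsphere] with u hu
    apply hsupp
    have hsu : ‖s • u‖ = s := by rw [norm_smul, hu, mul_one, Real.norm_of_nonneg hs]
    rcases hx with hx | hx
    · have := norm_sub_norm_le x (s • u)
      rw [hsu] at this
      linarith
    · have := norm_sub_norm_le (s • u) x
      rw [hsu, norm_sub_rev] at this
      linarith
  refine ⟨fun x => ∫ u, φ (x - s • u) ∂μ, ?_, ?_, ?_, ?_⟩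
  · apply continuous_of_dominated (bound := fun _ => C)
    · intro x
      exact (hcont.comp (Continuous.prodMk_right x)).aestronglyMeasurable
    · intro x
      exact Filter.Eventually.of_forall fun u => hC _
    · exact integrable_const C
    · exact Filter.Eventually.of_forall fun u => hφ.comp (continuous_id.sub continuous_const)
  · intro x hx
    exact hae x (Or.inr hx)
  · intro x hx
    exact hae x (Or.inl hx)
  · intro y
    have hphi : Integrable (fun x : E d => ((φ x : ℝ) : ℂ)) :=
      (hφ.integrable_of_hasCompactSupport hcs).ofReal
    -- the integrand on the product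
    set G : E d → E d → ℂ := fun x u =>
      Complex.exp (((-2 * π * inner ℝ x y : ℝ) : ℂ) * Complex.I) * ((φ (x - s • u) : ℝ) : ℂ)
      with hG
    have hexp : Continuous fun x : E d =>
        Complex.exp (((-2 * π * inner ℝ x y : ℝ) : ℂ) * Complex.I) := by
      apply Complex.continuous_exp.comp
      apply Continuous.mul _ continuous_const
      apply Complex.continuous_ofReal.comp
      exact continuous_const.mul (continuous_id.inner continuous_const)
    have hnorm : ∀ x u, ‖G x u‖ = ‖((φ (x - s • u) : ℝ) : ℂ)‖ := by
      intro x u
      rw [hG]
      simp only [norm_mul, Complex.norm_exp_ofReal_mul_I, one_mul]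
    have hGm : AEStronglyMeasurable (Function.uncurry G) (volume.prod μ) := by
      apply Continuous.aestronglyMeasurable
      exact (hexp.comp continuous_fst).mul (Complex.continuous_ofReal.comp hcont)
    have hGint : Integrable (Function.uncurry G) (volume.prod μ) := by
      rw [integrable_prod_iff' hGm]
      constructor
      · apply Filter.Eventually.of_forall
        intro u
        have h1 : Integrable (fun x : E d => ((φ (x - s • u) : ℝ) : ℂ)) :=
          hphi.comp_sub_right (s • u)
        apply h1.mono
        · have h5 : Continuous fun x : E d => φ (x - s • u) :=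
            hφ.comp (continuous_id.sub continuous_const)
          have h6 : Continuous fun x : E d => G x u :=
            hexp.mul (Complex.continuous_ofReal.comp h5)
          exact h6.aestronglyMeasurable
        · apply Filter.Eventually.of_forall
          intro x
          exact (hnorm x u).le
      · have h2 : (fun u : E d => ∫ x, ‖Function.uncurry G (x, u)‖) =
            fun _ => ∫ x : E d, ‖((φ x : ℝ) : ℂ)‖ := by
          funext u
          simp only [Function.uncurry_apply_pair, hnorm]
          exact integral_sub_right_eq_self (fun x => ‖((φ x : ℝ) : ℂ)‖) (s • u)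
        rw [h2]
        exact integrable_const _
    have hLHS : ft (fun x => ∫ u, φ (x - s • u) ∂μ) y = ∫ x, ∫ u, G x u ∂μ := by
      unfold ft
      rw [Real.fourier_eq']
      congr 1
      funext x
      rw [← integral_complex_ofReal, smul_eq_mul, ← integral_const_mul]
    have hin : ∀ u : E d, ∫ x, G x u =
        ft φ y * Complex.exp (((-2 * π * inner ℝ u (s • y) : ℝ) : ℂ) * Complex.I) := by
      intro u
      have h3 : ∫ x, G x u = ∫ x : E d,
          Complex.exp (((-2 * π * inner ℝ (x + s • u) y : ℝ) : ℂ) * Complex.I) *
            ((φ x : ℝ) : ℂ) := by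
        rw [← integral_sub_right_eq_self (fun x : E d =>
          Complex.exp (((-2 * π * inner ℝ (x + s • u) y : ℝ) : ℂ) * Complex.I) *
            ((φ x : ℝ) : ℂ)) (s • u)]
        congr 1
        funext x
        simp only [hG, sub_add_cancel]
      rw [h3]
      unfold ft
      rw [Real.fourier_eq', ← integral_mul_const]
      congr 1
      funext x
      rw [smul_eq_mul]
      have h4 : Complex.exp (((-2 * π * inner ℝ (x + s • u) y : ℝ) : ℂ) * Complex.I) =
          Complex.exp (((-2 * π * inner ℝ x y : ℝ) : ℂ) * Complex.I) *
            Complex.exp (((-2 * π * inner ℝ u (s • y) : ℝ) : ℂ) * Complex.I) := by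
        rw [← Complex.exp_add]
        congr 1
        rw [inner_add_left, real_inner_smul_left, real_inner_smul_right]
        push_cast
        ring
      rw [h4]
      ring
    rw [hLHS, integral_integral_swap hGint]
    simp only [hin]
    rw [integral_const_mul]

end Pool.Agent.Lib.MP_adb5ad_gt
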