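import Pool.Agent.Lib.MP_adb5ad_gt.Defs

open MeasureTheory FourierTransform Real Filter Topology

noncomputable section

namespace Pool.Agent.Lib.MP_adb5ad_gt

variable {d : ℕ}

theorem integrable_of_decay {F : Type*} [NormedAddCommGroup F] {f : E d → F} {ε C : ℝ}
    (hε : 0 < ε) (hc : Continuous f)
    (hC : ∀ x, ‖f x‖ ≤ C * (1 + ‖x‖) ^ (-(d : ℝ) - ε)) : Integrable f := by
  have h1 : Integrable (fun x : E d => C * (1 + ‖x‖) ^ (-((d : ℝ) + ε))) := by
    apply Integrable.const_mul
    apply integrable_one_add_norm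
    simp; linarith
  refine h1.mono' hc.aestronglyMeasurable (ae_of_all _ fun x => ?_)
  have := hC x
  rwa [show -(d : ℝ) - ε = -((d : ℝ) + ε) by ring] at this

theorem Admissible.integrable {α : ℝ} {f : E d → ℝ} (hf : Admissible d α f) :
    Integrable f := by
  obtain ⟨ε, hε, C, hC⟩ := hf.decay
  exact integrable_of_decay hε hf.cont (fun x => by simpa using (hC x).1)

theorem ft_continuous {f : E d → ℝ} (hf : Integrable f) : Continuous (ft f) := by
  have := VectorFourier.fourierIntegral_continuous (μ := (volume : Measure (E d)))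
    (f := fun x => (f x : ℂ)) Real.continuous_fourierChar
    (L := innerₗ (E d)) (by exact continuous_inner) hf.ofReal
  exact this

theorem Admissible.integrable_ft {α : ℝ} {f : E d → ℝ} (hf : Admissible d α f) :
    Integrable (ft f) := by
  obtain ⟨ε, hε, C, hC⟩ := hf.decay
  exact integrable_of_decay hε (ft_continuous hf.integrable) (fun x => (hC x).2)

theorem ft_add_mul {f h : E d → ℝ} (hf : Integrable f) (hh : Integrable h) (ε : ℝ) (y : E d) :
    ft (fun x => f x + ε * h x) y = ft f y + ε * ft h y := by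
  unfold ft
  rw [Real.fourier_eq, Real.fourier_eq, Real.fourier_eq, ← integral_const_mul, ← integral_add]
  · congr 1
    ext x
    simp only [Circle.smul_def, smul_eq_mul]
    push_cast
    ring
  · exact (Real.fourierIntegral_convergent_iff y).2 hf.ofReal
  · exact ((Real.fourierIntegral_convergent_iff y).2 hh.ofReal).const_mul _

theorem compactly_supported_decay {h : E d → ℝ} {R : ℝ} (hR : 0 < R) (hc : Continuous h)
    (h0 : ∀ x, R ≤ ‖x‖ → h x = 0) (a : ℝ) :
    ∃ C : ℝ, 0 ≤ C ∧ ∀ x, |h x| ≤ C * (1 + ‖x‖) ^ a := by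
  have hcont : Continuous (fun x : E d => |h x| * (1 + ‖x‖) ^ (-a)) := by
    apply Continuous.mul hc.abs
    apply Continuous.rpow_const (by fun_prop)
    intro x
    left
    positivity
  obtain ⟨C, hC⟩ := (isCompact_closedBall (0 : E d) R).exists_bound_of_continuousOn
    hcont.continuousOn
  refine ⟨max C 0, le_max_right _ _, fun x => ?_⟩
  have hp : 0 < (1 + ‖x‖) ^ a := by positivity
  rcases le_or_gt R ‖x‖ with hx | hx
  · rw [h0 x hx]
    simp
    positivity
  · have := hC x (by simpa using hx.le)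
    rw [Real.norm_eq_abs, abs_of_nonneg (by positivity)] at this
    have h2 : (1 + ‖x‖) ^ (-a) = ((1 + ‖x‖) ^ a)⁻¹ := Real.rpow_neg (by positivity) a
    rw [h2] at this
    have h3 : |h x| ≤ C * (1 + ‖x‖) ^ a := by
      rw [← div_eq_mul_inv, div_le_iff₀ hp] at this
      exact this
    exact h3.trans (mul_le_mul_of_nonneg_right (le_max_left _ _) hp.le)

theorem integrable_of_compact {h : E d → ℝ} {R : ℝ} (hR : 0 < R) (hc : Continuous h)
    (h0 : ∀ x, R ≤ ‖x‖ → h x = 0) : Integrable h := by
  obtain ⟨C, -, hC⟩ := compactly_supported_decay hR hc h0 (-(d : ℝ) - 1)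
  exact integrable_of_decay one_pos hc (fun x => by simpa using hC x)

theorem decay_mono {x : E d} {a b : ℝ} (hab : a ≤ b) : (1 + ‖x‖) ^ (-(d : ℝ) - b) ≤
    (1 + ‖x‖) ^ (-(d : ℝ) - a) := by
  apply Real.rpow_le_rpow_of_exponent_le
  · linarith [norm_nonneg x]
  · linarith

/-- Perturbation of an admissible function. -/
theorem adm_perturb {α : ℝ} {f h : E d → ℝ} {R ε : ℝ} (hf : Admissible d α f) (hR : 0 < R)
    (hc : Continuous h) (h0 : ∀ x, R ≤ ‖x‖ → h x = 0)
    (hdec : ∃ C : ℝ, ∀ x, ‖ft h x‖ ≤ C * (1 + ‖x‖) ^ (-(d : ℝ) - 1)) (hε : 0 < ε)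
    (him : ∀ y, (ft h y).im = 0)
    (hle : ∀ x, x ≠ 0 → f x + ε * h x ≤ Real.exp (-α * ‖x‖ ^ 2))
    (hnn : ∀ y, 0 ≤ (ft f y).re + ε * (ft h y).re) :
    Admissible d α (fun x => f x + ε * h x) ∧
      value (fun x => f x + ε * h x) = value f + ε * value h := by
  have hft : ∀ y, ft (fun x => f x + ε * h x) y = ft f y + ε * ft h y :=
    ft_add_mul hf.integrable (integrable_of_compact hR hc h0) ε
  constructor
  · refine ⟨?_, ?_, hle, ?_⟩
    · exact hf.cont.add (hc.const_smul ε)
    · obtain ⟨e, he, C, hC⟩ := hf.decay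
      obtain ⟨C1, hC1⟩ := hdec
      obtain ⟨C2, hC20, hC2⟩ := compactly_supported_decay hR hc h0 (-(d : ℝ) - 1)
      have hC1' : 0 ≤ C1 := by
        have := (norm_nonneg _).trans (hC1 0)
        simpa using this
      refine ⟨min e 1, lt_min he one_pos, |C| + ε * C1 + ε * C2, fun x => ?_⟩
      have m1 : (1 + ‖x‖) ^ (-(d : ℝ) - e) ≤ (1 + ‖x‖) ^ (-(d : ℝ) - min e 1) :=
        decay_mono (min_le_left _ _)
      have m2 : (1 + ‖x‖) ^ (-(d : ℝ) - 1) ≤ (1 + ‖x‖) ^ (-(d : ℝ) - min e 1) :=
        decay_mono (min_le_right _ _)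
      have p1 : 0 < (1 + ‖x‖) ^ (-(d : ℝ) - e) := by positivity
      have p2 : 0 < (1 + ‖x‖) ^ (-(d : ℝ) - 1) := by positivity
      have p3 : 0 < (1 + ‖x‖) ^ (-(d : ℝ) - min e 1) := by positivity
      have b1 : C * (1 + ‖x‖) ^ (-(d : ℝ) - e) ≤ |C| * (1 + ‖x‖) ^ (-(d : ℝ) - min e 1) :=
        (mul_le_mul_of_nonneg_right (le_abs_self C) p1.le).trans
          (mul_le_mul_of_nonneg_left m1 (abs_nonneg C))
      constructor
      · calc |f x + ε * h x| ≤ |f x| + ε * |h x| := by
              refine (abs_add_le _ _).trans ?_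
              rw [abs_mul, abs_of_pos hε]
          _ ≤ |C| * (1 + ‖x‖) ^ (-(d : ℝ) - min e 1) +
              ε * (C2 * (1 + ‖x‖) ^ (-(d : ℝ) - min e 1)) := by
              refine add_le_add ((hC x).1.trans b1) ?_
              refine mul_le_mul_of_nonneg_left ((hC2 x).trans ?_) hε.le
              exact mul_le_mul_of_nonneg_left m2 hC20
          _ ≤ _ := by
              have : 0 ≤ ε * C1 * (1 + ‖x‖) ^ (-(d : ℝ) - min e 1) := by positivity
              nlinarith
      · rw [hft]
        calc ‖ft f x + ε * ft h x‖ ≤ ‖ft f x‖ + ε * ‖ft h x‖ := by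
              refine (norm_add_le _ _).trans ?_
              rw [norm_mul, Complex.norm_real, Real.norm_eq_abs, abs_of_pos hε]
          _ ≤ |C| * (1 + ‖x‖) ^ (-(d : ℝ) - min e 1) +
              ε * (C1 * (1 + ‖x‖) ^ (-(d : ℝ) - min e 1)) := by
              refine add_le_add ((hC x).2.trans b1) ?_
              refine mul_le_mul_of_nonneg_left ((hC1 x).trans ?_) hε.le
              exact mul_le_mul_of_nonneg_left m2 hC1'
          _ ≤ _ := by
              have : 0 ≤ ε * C2 * (1 + ‖x‖) ^ (-(d : ℝ) - min e 1) := by positivity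
              nlinarith
    · intro y
      rw [hft]
      constructor
      · simp [(hf.ft_nonneg y).1, him y]
      · simpa using hnn y
  · unfold value
    rw [hft]
    simp
    ring

theorem admissible_zero (d : ℕ) (α : ℝ) : Admissible d α (fun _ => 0) := by
  have h : ∀ y : E d, ft (fun _ : E d => (0 : ℝ)) y = 0 := by
    intro y
    unfold ft
    rw [Real.fourier_eq]
    simp
  refine ⟨continuous_const, ⟨1, one_pos, 0, fun x => ?_⟩, fun x _ => (Real.exp_pos _).le,
    fun y => ?_⟩
  · simp [h]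
  · simp [h]

theorem Admissible.zero_nonneg {α : ℝ} {f : E d → ℝ} (hf : Admissible d α f) : 0 ≤ f 0 := by
  have hinv : 𝓕⁻ (𝓕 (fun x : E d => (f x : ℂ))) (0 : E d) = (f 0 : ℂ) := by
    apply MeasureTheory.Integrable.fourierInv_fourier_eq hf.integrable.ofReal
    · exact hf.integrable_ft
    · exact (Complex.continuous_ofReal.comp hf.cont).continuousAt
  rw [Real.fourierInv_eq] at hinv
  have h2 : f 0 = (∫ y : E d, ft f y).re := by
    have : (∫ v : E d, 𝐞 (inner ℝ v (0 : E d)) • 𝓕 (fun x : E d => (f x : ℂ)) v)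
        = ∫ y : E d, ft f y := by
      congr 1
      ext v
      simp [ft]
    rw [this] at hinv
    rw [hinv]
    simp
  rw [h2]
  have h3 : (∫ y : E d, ft f y).re = ∫ y : E d, (ft f y).re := by
    exact (integral_re hf.integrable_ft).symm
  rw [h3]
  exact integral_nonneg fun y => (hf.ft_nonneg y).2

theorem exists_large_ball (hd : 1 ≤ d) : ∃ r : ℝ, 0 < r ∧
    1 < (volume (Metric.ball (0 : E d) (r / 4))).toReal := by
  haveI : Nonempty (Fin d) := ⟨⟨0, hd⟩⟩
  set V := (volume (Metric.ball (0 : E d) 1)).toReal with hV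
  have hVpos : 0 < V := by
    apply ENNReal.toReal_pos
    · exact (Metric.measure_ball_pos volume (0 : E d) one_pos).ne'
    · exact (measure_ball_lt_top).ne
  have hform : ∀ r : ℝ, 0 < r → (volume (Metric.ball (0 : E d) r)).toReal = r ^ d * V := by
    intro r hr
    rw [Measure.addHaar_ball_of_pos _ _ hr]
    rw [ENNReal.toReal_mul, ENNReal.toReal_ofReal (by positivity)]
    simp [hV]
  refine ⟨4 * (1 / V + 1), by positivity, ?_⟩
  rw [show 4 * (1 / V + 1) / 4 = 1 / V + 1 by ring, hform _ (by positivity)]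
  have h1 : 1 / V + 1 ≤ (1 / V + 1) ^ d := by
    have : 1 ≤ 1 / V + 1 := by
      have : 0 < 1 / V := by positivity
      linarith
    calc 1 / V + 1 = (1 / V + 1) ^ 1 := (pow_one _).symm
      _ ≤ _ := pow_le_pow_right₀ this hd
  calc (1 : ℝ) < (1 / V + 1) * V := by
        field_simp
        linarith
    _ ≤ _ := mul_le_mul_of_nonneg_right h1 hVpos.le

theorem value_pos (hB : BumpStmt) (hd : 1 ≤ d) {α : ℝ} (hα : 0 < α) {f : E d → ℝ}
    (hf : IsOptimal d α f) : 0 < value f := by
  obtain ⟨r, hr, hvol⟩ := exists_large_ball hd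
  obtain ⟨φ, hφc, hφ0, hφft, hφdec, I, hI1, hI0, hI2, hφI⟩ := hB d r hr
  obtain ⟨M, hM⟩ := (isCompact_closedBall (0 : E d) r).exists_bound_of_continuousOn
    hφc.continuousOn
  have hM0 : 0 ≤ M := (norm_nonneg _).trans (hM 0 (by simp [hr.le]))
  set ε := Real.exp (-α * r ^ 2) / (M + 1) with hε
  have hεpos : 0 < ε := by positivity
  have hv : 0 < value φ := by
    unfold value
    rw [hI2]
    nlinarith
  obtain ⟨hadm, hval⟩ := adm_perturb (admissible_zero d α) hr hφc hφ0 hφdec hεpos
    (fun y => (hφft y).1) (fun x _ => by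
      rcases le_or_gt r ‖x‖ with hx | hx
      · rw [hφ0 x hx]
        simp
        positivity
      · have h1 := hM x (by simpa using hx.le)
        have h2 : φ x ≤ M := (le_abs_self _).trans h1
        have h3 : ε * φ x ≤ Real.exp (-α * r ^ 2) := by
          calc ε * φ x ≤ ε * (M + 1) := by
                apply mul_le_mul_of_nonneg_left _ hεpos.le
                linarith
            _ = Real.exp (-α * r ^ 2) := by
                rw [hε]
                field_simp
        have h4 : Real.exp (-α * r ^ 2) ≤ Real.exp (-α * ‖x‖ ^ 2) := by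
          apply Real.exp_le_exp.2
          have : ‖x‖ ^ 2 ≤ r ^ 2 := by
            apply pow_le_pow_left₀ (norm_nonneg _) hx.le
          nlinarith
        linarith) (fun y => by
      have h0 : ft (fun _ : E d => (0 : ℝ)) y = 0 := by
        unfold ft
        rw [Real.fourier_eq]
        simp
      rw [h0]
      have := (hφft y).2
      simp
      positivity)
  have := hf.2 _ hadm
  rw [hval] at this
  have h0 : value (fun _ : E d => (0 : ℝ)) = 0 := by
    unfold value ft
    rw [Real.fourier_eq]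
    simp
  rw [h0] at this
  have : 0 < ε * value φ := by positivity
  linarith

theorem ft_zero_pos (hB : BumpStmt) (hd : 1 ≤ d) {α : ℝ} (hα : 0 < α) {f : E d → ℝ}
    (hf : IsOptimal d α f) : 0 < (ft f 0).re := by
  have h1 := value_pos hB hd hα hf
  have h2 := hf.1.zero_nonneg
  unfold value at h1
  linarith

theorem zero_lt_one' (hB : BumpStmt) (hD : DualStmt) (hd : 1 ≤ d) {α : ℝ} (hα : 0 < α)
    {f : E d → ℝ} (hf : IsOptimal d α f) : f 0 < 1 := by
  obtain ⟨g, hg, -, hg2⟩ := hD d α hd hα f hf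
  have h1 := ft_zero_pos hB hd (by positivity) hg
  rw [hg2] at h1
  have hc : 0 < (α / π) ^ ((d : ℝ) / 2) := by positivity
  have h2 := (pos_iff_pos_of_mul_pos h1).1 hc
  simpa using h2

end Pool.Agent.Lib.MP_adb5ad_gt
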