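import Pool.Agent.Lib.MP_adb5ad_gt.LTBasic

open MeasureTheory FourierTransform Real Filter Topology Set

noncomputable section

namespace Pool.Agent.Lib.MP_adb5ad_gt

theorem boundStmt (h10 : StepStmt) : BoundStmt := by
  intro k μ ν hk hT
  set C₀ := max (LTr μ 1) (LTr ν 1) with hC₀
  have hμC : (∫ x, Real.exp (-π * x) ∂μ) ≤ C₀ := by
    refine le_trans (le_of_eq ?_) (le_max_left _ _)
    unfold LTr
    simp
  have hνC : (∫ x, Real.exp (-π * x) ∂ν) ≤ C₀ := by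
    refine le_trans (le_of_eq ?_) (le_max_right _ _)
    unfold LTr
    simp
  obtain ⟨C₄, hC₄, hstep⟩ := h10 k C₀ hk
  set P := 4 / 3 * C₄ + 1 with hP
  have hPpos : 0 < P := by positivity
  have hpow : ∀ t : ℝ, 0 < t → 0 < t ^ (1 - 2 * k) := fun t ht => Real.rpow_pos_of_pos ht _
  have main : ∀ n : ℕ,
      (∀ t : ℝ, 0 < t → t ≤ 1 →
        msq μ t ≤ ENNReal.ofReal ((P + C₀ ^ 2 * (3 / 8) ^ n / t) * t ^ (1 - 2 * k))) ∧
      (∀ t : ℝ, 0 < t → t ≤ 1 →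
        msq ν t ≤ ENNReal.ofReal ((P + C₀ ^ 2 * (3 / 8) ^ n / t) * t ^ (1 - 2 * k))) := by
    intro n
    induction n with
    | zero =>
      have key : ∀ {μ ν : Measure ℝ}, ThetaPair k μ ν → LTr ν 1 ≤ C₀ → ∀ t : ℝ, 0 < t → t ≤ 1 →
          msq μ t ≤ ENNReal.ofReal ((P + C₀ ^ 2 * (3 / 8) ^ 0 / t) * t ^ (1 - 2 * k)) := by
        intro μ ν hT hν t ht ht1
        refine (hT.msq_apriori ht ht1).trans (ENNReal.ofReal_le_ofReal ?_)
        apply mul_le_mul_of_nonneg_right _ (hpow t ht).le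
        have h1 : LTr ν 1 ^ 2 ≤ C₀ ^ 2 := pow_le_pow_left₀ (LTr_nonneg ν 1) hν 2
        have h2 : LTr ν 1 ^ 2 / t ≤ C₀ ^ 2 / t := div_le_div_of_nonneg_right h1 ht.le
        simp only [pow_zero, mul_one]
        linarith
      exact ⟨key hT (le_max_right _ _), key hT.symm (le_max_left _ _)⟩
    | succ n ih =>
      have hQ : 0 ≤ C₀ ^ 2 * (3 / 8) ^ n := by positivity
      have key : ∀ {μ ν : Measure ℝ}, ThetaPair k μ ν → (∫ x, Real.exp (-π * x) ∂μ) ≤ C₀ →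
          (∫ x, Real.exp (-π * x) ∂ν) ≤ C₀ →
          (∀ t : ℝ, 0 < t → t ≤ 1 →
            msq μ t ≤ ENNReal.ofReal ((P + C₀ ^ 2 * (3 / 8) ^ n / t) * t ^ (1 - 2 * k))) →
          (∀ t : ℝ, 0 < t → t ≤ 1 →
            msq ν t ≤ ENNReal.ofReal ((P + C₀ ^ 2 * (3 / 8) ^ n / t) * t ^ (1 - 2 * k))) →
          ∀ t : ℝ, 0 < t → t ≤ 1 →
          msq μ t ≤ ENNReal.ofReal ((P + C₀ ^ 2 * (3 / 8) ^ (n + 1) / t) * t ^ (1 - 2 * k)) := by
        intro μ ν hT hμ hν i1 i2 t ht ht1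
        refine (hstep μ ν hT hμ hν P _ hPpos.le hQ i1 i2 t ht ht1).trans
          (ENNReal.ofReal_le_ofReal ?_)
        apply mul_le_mul_of_nonneg_right _ (hpow t ht).le
        have e1 : 3 / 8 * (C₀ ^ 2 * (3 / 8) ^ n) / t = C₀ ^ 2 * (3 / 8) ^ (n + 1) / t := by
          ring
        rw [e1]
        have e2 : C₄ + P / 4 ≤ P := by
          rw [hP]
          linarith
        linarith
      exact ⟨key hT hμC hνC ih.1 ih.2, key hT.symm hνC hμC ih.2 ih.1⟩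
  refine ⟨P, hPpos, fun t ht ht1 => ?_⟩
  have hlim : Tendsto (fun n : ℕ => ENNReal.ofReal ((P + C₀ ^ 2 * (3 / 8) ^ n / t) *
      t ^ (1 - 2 * k))) atTop (𝓝 (ENNReal.ofReal (P * t ^ (1 - 2 * k)))) := by
    apply ENNReal.tendsto_ofReal
    have h1 : Tendsto (fun n : ℕ => ((3 : ℝ) / 8) ^ n) atTop (𝓝 0) :=
      tendsto_pow_atTop_nhds_zero_of_lt_one (by norm_num) (by norm_num)
    have h2 : Tendsto (fun n : ℕ => (P + C₀ ^ 2 * (3 / 8) ^ n / t) * t ^ (1 - 2 * k)) atTop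
        (𝓝 ((P + C₀ ^ 2 * 0 / t) * t ^ (1 - 2 * k))) := by
      apply Tendsto.mul_const
      apply Tendsto.const_add
      apply Tendsto.div_const
      exact h1.const_mul _
    simpa using h2
  exact ge_of_tendsto' hlim fun n => (main n).1 t ht ht1

end Pool.Agent.Lib.MP_adb5ad_gt
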