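import Pool.Agent.Lib.MP_adb5ad_gt.Defs

open MeasureTheory FourierTransform Real Convolution Metric SchwartzMap
open scoped ContDiff

noncomputable section

namespace Pool.Agent.Lib.MP_adb5ad_gt

theorem bumpStmt : BumpStmt := by
  intro d r hr
  let ψ : ContDiffBump (0 : E d) := ⟨r / 4, r / 2, by positivity, by linarith⟩
  let ψc : E d → ℂ := fun x => ((ψ x : ℝ) : ℂ)
  have hψcont : Continuous (ψ : E d → ℝ) := ψ.continuous
  have hψcs : HasCompactSupport (ψ : E d → ℝ) := ψ.hasCompactSupport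
  have hψint : Integrable (ψ : E d → ℝ) := hψcont.integrable_of_hasCompactSupport hψcs
  have hsm : ContDiff ℝ ∞ ψc := Complex.ofRealCLM.contDiff.comp ψ.contDiff
  have hcs : HasCompactSupport ψc := hψcs.comp_left (g := Complex.ofReal) rfl
  have hintc : Integrable ψc := hψint.ofReal
  let S : 𝓢(E d, ℂ) := hcs.toSchwartzMap hsm
  let FS : 𝓢(E d, ℂ) := 𝓕 S
  have hS : (FS : E d → ℂ) = 𝓕 ψc := by
    show ((𝓕 S : 𝓢(E d, ℂ)) : E d → ℂ) = _
    rw [SchwartzMap.fourier_coe]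
    rfl
  -- the Fourier transform of `ψ` is real
  have hreal : ∀ y, (𝓕 ψc y).im = 0 := by
    intro y
    rw [← Complex.conj_eq_iff_im]
    have h1 : 𝓕 ψc y = ∫ v, Complex.exp (((-2 * π * inner ℝ v y : ℝ) : ℂ) * Complex.I) • ψc v := by
      rw [Real.fourier_eq']
    have h2 : ∫ v, Complex.exp (((-2 * π * inner ℝ v y : ℝ) : ℂ) * Complex.I) • ψc v
        = ∫ v, Complex.exp (((-2 * π * inner ℝ (-v) y : ℝ) : ℂ) * Complex.I) • ψc (-v) :=
      (integral_neg_eq_self (fun v => Complex.exp (((-2 * π * inner ℝ v y : ℝ) : ℂ) * Complex.I) •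
        ψc v) volume).symm
    rw [h1, ← integral_conj]
    rw [h2]
    congr 1
    ext v
    have h3 : ψc (-v) = ψc v := by
      show ((ψ (-v) : ℝ) : ℂ) = ((ψ v : ℝ) : ℂ)
      rw [ContDiffBump.neg]
    rw [h3]
    simp only [smul_eq_mul, map_mul]
    congr 1
    · rw [← Complex.exp_conj]
      congr 1
      simp only [map_mul, Complex.conj_ofReal, Complex.conj_I, inner_neg_left]
      push_cast
      ring
    · show (starRingEnd ℂ) ((ψ v : ℝ) : ℂ) = _
      rw [Complex.conj_ofReal]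
  let φ : E d → ℝ := (ψ : E d → ℝ) ⋆[ContinuousLinearMap.mul ℝ ℝ, volume] (ψ : E d → ℝ)
  have hφ : ∀ x, φ x = ∫ t, ψ t * ψ (x - t) := fun x => rfl
  have hφc : (fun x => (φ x : ℂ)) = ψc ⋆[ContinuousLinearMap.mul ℂ ℂ, volume] ψc := by
    ext x
    rw [hφ, ← integral_complex_ofReal]
    show _ = ∫ t, ψc t * ψc (x - t)
    congr 1
    ext t
    show ((ψ t * ψ (x - t) : ℝ) : ℂ) = ((ψ t : ℝ) : ℂ) * ((ψ (x - t) : ℝ) : ℂ)
    push_cast
    rfl
  have hft : ∀ y, ft φ y = (𝓕 ψc y) * (𝓕 ψc y) := by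
    intro y
    show 𝓕 (fun x => (φ x : ℂ)) y = _
    rw [hφc]
    exact Real.fourier_mul_convolution_eq hintc hintc y
  have hsq : ∀ y, ft φ y = ((((𝓕 ψc y).re) ^ 2 : ℝ) : ℂ) := by
    intro y
    rw [hft y]
    have : 𝓕 ψc y = (((𝓕 ψc y).re : ℝ) : ℂ) := by
      apply Complex.ext
      · simp
      · simp [hreal y]
    rw [this]
    push_cast
    simp only [Complex.ofReal_re]
    ring
  refine ⟨φ, ?_, ?_, ?_, ?_, ?_⟩
  · exact hψcs.continuous_convolution_right _ hψint.locallyIntegrable hψcont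
  · intro x hx
    by_contra hne
    have hmem : x ∈ Function.support φ := hne
    have := support_convolution_subset (L := ContinuousLinearMap.mul ℝ ℝ) hmem
    rw [ψ.support_eq] at this
    obtain ⟨a, ha, b, hb, hab⟩ := this
    rw [mem_ball_zero_iff] at ha hb
    have h1 : ψ.rOut = r / 2 := rfl
    rw [h1] at ha hb
    have : ‖x‖ < r := by
      rw [← hab]
      calc ‖a + b‖ ≤ ‖a‖ + ‖b‖ := norm_add_le _ _
        _ < r := by linarith
    linarith
  · intro y
    rw [hsq y]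
    constructor
    · exact Complex.ofReal_im _
    · rw [Complex.ofReal_re]
      positivity
  · obtain ⟨C0, hC0⟩ : ∃ C0 : ℝ, ∀ x, (1 + ‖x‖) ^ (d + 1) * ‖𝓕 ψc x‖ ≤ C0 := by
      refine ⟨2 ^ (d + 1) * (Finset.Iic ((d + 1, 0) : ℕ × ℕ)).sup
        (fun m => SchwartzMap.seminorm ℝ m.1 m.2) FS, fun x => ?_⟩
      have := SchwartzMap.one_add_le_sup_seminorm_apply (𝕜 := ℝ) (m := (d + 1, 0))
        (k := d + 1) (n := 0) le_rfl le_rfl FS x
      rw [norm_iteratedFDeriv_zero, hS] at this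
      exact this
    obtain ⟨C1, hC1⟩ : ∃ C1 : ℝ, ∀ x, ‖𝓕 ψc x‖ ≤ C1 := by
      refine ⟨C0, fun x => ?_⟩
      refine le_trans ?_ (hC0 x)
      have h1 : (1 : ℝ) ≤ (1 + ‖x‖) ^ (d + 1) := one_le_pow₀ (by linarith [norm_nonneg x])
      nlinarith [norm_nonneg (𝓕 ψc x)]
    refine ⟨C1 * C0, fun x => ?_⟩
    have hC1' : 0 ≤ C1 := le_trans (norm_nonneg _) (hC1 x)
    have hpos : 0 < 1 + ‖x‖ := by linarith [norm_nonneg x]
    rw [hft x, norm_mul]
    have hexp : (1 + ‖x‖) ^ (-(d : ℝ) - 1) = ((1 + ‖x‖) ^ (d + 1))⁻¹ := by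
      rw [show (-(d : ℝ) - 1) = -(((d + 1 : ℕ) : ℝ)) by push_cast; ring, Real.rpow_neg hpos.le,
        Real.rpow_natCast]
    rw [hexp]
    have hb : ‖𝓕 ψc x‖ ≤ C0 * ((1 + ‖x‖) ^ (d + 1))⁻¹ := by
      rw [← div_eq_mul_inv, le_div_iff₀ (by positivity), mul_comm]
      exact hC0 x
    calc ‖𝓕 ψc x‖ * ‖𝓕 ψc x‖ ≤ C1 * (C0 * ((1 + ‖x‖) ^ (d + 1))⁻¹) :=
          mul_le_mul (hC1 x) hb (norm_nonneg _) hC1'
      _ = C1 * C0 * ((1 + ‖x‖) ^ (d + 1))⁻¹ := by ring
  · refine ⟨∫ x, ψ x, ?_, ?_, ?_, ?_⟩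
    · have h1 : (volume (ball (0 : E d) (r / 4))).toReal
          = ∫ x, (ball (0 : E d) (r / 4)).indicator (fun _ => (1 : ℝ)) x := by
        rw [integral_indicator measurableSet_ball]
        simp [Measure.real]
      rw [h1]
      apply integral_mono_of_nonneg
      · exact Filter.Eventually.of_forall fun x => Set.indicator_nonneg (fun _ _ => zero_le_one) x
      · exact hψint
      · refine Filter.Eventually.of_forall fun x => ?_
        show (ball (0 : E d) (r / 4)).indicator (fun _ => (1 : ℝ)) x ≤ ψ x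
        by_cases hx : x ∈ ball (0 : E d) (r / 4)
        · rw [Set.indicator_of_mem hx]
          have : x ∈ closedBall (0 : E d) ψ.rIn := ball_subset_closedBall hx
          rw [ψ.one_of_mem_closedBall this]
        · rw [Set.indicator_of_notMem hx]
          exact ψ.nonneg
    · exact ψ.integral_pos
    · have h0 : 𝓕 ψc 0 = ((∫ x, ψ x : ℝ) : ℂ) := by
        rw [Real.fourier_eq', ← integral_complex_ofReal]
        congr 1
        ext v
        simp [ψc]
      rw [hsq 0, Complex.ofReal_re, h0, Complex.ofReal_re]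
    · rw [hφ 0]
      apply integral_mono_of_nonneg
      · exact Filter.Eventually.of_forall fun t => mul_nonneg ψ.nonneg ψ.nonneg
      · exact hψint
      · refine Filter.Eventually.of_forall fun t => ?_
        show ψ t * ψ (0 - t) ≤ ψ t
        exact mul_le_of_le_one_right ψ.nonneg ψ.le_one

end Pool.Agent.Lib.MP_adb5ad_gt
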