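import Pool.Agent.Lib.MP_adb5ad_gt.Basic

open MeasureTheory FourierTransform Real Filter Topology Set

noncomputable section

namespace Pool.Agent.Lib.MP_adb5ad_gt

/-! ### Duality part -/

/-- The weight `(1+|x|)^(-d-ε)`. -/
def wt (d : ℕ) (ε : ℝ) (x : E d) : ℝ := (1 + ‖x‖) ^ (-(d : ℝ) - ε)

/-- M1: compactly supported functions whose Fourier transform is comparable to the weight. -/
def SlaterStmt : Prop := ∀ (d : ℕ) (ε r : ℝ), 0 < ε → 0 < r → ∃ φ : E d → ℝ, Continuous φ ∧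
  (∀ x, r ≤ ‖x‖ → φ x = 0) ∧ (∀ x, φ (-x) = φ x) ∧ (∀ y, (ft φ y).im = 0) ∧
  ∃ c C : ℝ, 0 < c ∧ ∀ y, c * wt d ε y ≤ (ft φ y).re ∧ (ft φ y).re ≤ C * wt d ε y

/-- Test functions: continuous, real Fourier transform, both bounded by the weight. -/
structure Test (d : ℕ) (ε : ℝ) (h : E d → ℝ) : Prop where
  cont : Continuous h
  im : ∀ y, (ft h y).im = 0
  bd : ∃ C : ℝ, ∀ x, |h x| ≤ C * wt d ε x ∧ ‖ft h x‖ ≤ C * wt d ε x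

/-- The data of an optimal function used in the duality argument. -/
structure Setup (d : ℕ) (α : ℝ) (f : E d → ℝ) (ε r₀ δ : ℝ) : Prop where
  hd : 1 ≤ d
  hα : 0 < α
  opt : IsOptimal d α f
  hε : 0 < ε
  test : Test d ε f
  hr₀ : 0 < r₀
  hδ : 0 < δ
  strict : ∀ x, ‖x‖ ≤ r₀ → f x < Real.exp (-α * ‖x‖ ^ 2)
  pos : ∀ y, ‖y‖ ≤ δ → 0 < (ft f y).re

/-- M2: an optimal function is optimal for the relaxed problem. -/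
def RelaxStmt : Prop := ∀ (d : ℕ) (α : ℝ) (f : E d → ℝ) (ε r₀ δ : ℝ), Setup d α f ε r₀ δ →
  ∀ (h : E d → ℝ) (c : ℝ), Test d ε h →
    (∀ x, r₀ ≤ ‖x‖ → h x ≤ c * (Real.exp (-α * ‖x‖ ^ 2) - f x)) →
    (∀ y, δ ≤ ‖y‖ → -(c * (ft f y).re) ≤ (ft h y).re) → value h ≤ 0

/-- The space of functions bounded by a multiple of the weight. -/
def Y (d : ℕ) (ε : ℝ) : Submodule ℝ (E d → ℝ) where
  carrier := {q | ∃ C : ℝ, ∀ x, |q x| ≤ C * wt d ε x}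
  add_mem' := by
    rintro a b ⟨C, hC⟩ ⟨D, hD⟩
    refine ⟨C + D, fun x => ?_⟩
    rw [add_mul]
    exact (abs_add_le _ _).trans (add_le_add (hC x) (hD x))
  zero_mem' := ⟨0, fun x => by simp⟩
  smul_mem' := by
    rintro c a ⟨C, hC⟩
    refine ⟨|c| * C, fun x => ?_⟩
    rw [Pi.smul_apply, smul_eq_mul, abs_mul, mul_assoc]
    exact mul_le_mul_of_nonneg_left (hC x) (abs_nonneg c)

/-- M3: the dual functionals. -/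
def FunctionalStmt : Prop := ∀ (d : ℕ) (α : ℝ) (f : E d → ℝ) (ε r₀ δ : ℝ),
  Setup d α f ε r₀ δ → ∃ l₁ l₂ : Y d ε →ₗ[ℝ] ℝ,
    (∀ q : Y d ε, (∀ x, r₀ ≤ ‖x‖ → 0 ≤ q.1 x) → 0 ≤ l₁ q) ∧
    (∀ q : Y d ε, (∀ y, δ ≤ ‖y‖ → 0 ≤ q.1 y) → 0 ≤ l₂ q) ∧
    (∀ h : E d → ℝ, Test d ε h → ∀ q₁ q₂ : Y d ε, (∀ x, q₁.1 x = h x) →
      (∀ y, q₂.1 y = (ft h y).re) → l₁ q₁ - l₂ q₂ = value h) ∧
    (∀ q : Y d ε, (∀ x, q.1 x = Real.exp (-α * ‖x‖ ^ 2) - f x) → l₁ q = 0) ∧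
    (∀ q : Y d ε, (∀ y, q.1 y = (ft f y).re) → l₂ q = 0)

/-- M4: `m` represents the functional `l` on radial functions. -/
def Represents (d : ℕ) (ε r₀ : ℝ) (l : Y d ε →ₗ[ℝ] ℝ) (m : Measure ℝ) : Prop :=
  m (Iio (r₀ ^ 2)) = 0 ∧
    ∀ φ : ℝ → ℝ, Continuous φ → (∃ C c : ℝ, 0 < c ∧ ∀ x, 0 ≤ x → |φ x| ≤ C * Real.exp (-c * x)) →
      Integrable φ m ∧ ∀ q : Y d ε, (∀ x, q.1 x = φ (‖x‖ ^ 2)) → l q = ∫ x, φ x ∂m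

/-- M4a: a positive functional on `Y` is represented on radial functions by a measure. -/
def MeasureAStmt : Prop := ∀ (d : ℕ) (ε r₀ : ℝ), 1 ≤ d → 0 < ε → 0 < r₀ →
  ∀ l : Y d ε →ₗ[ℝ] ℝ, (∀ q : Y d ε, (∀ x, r₀ ≤ ‖x‖ → 0 ≤ q.1 x) → 0 ≤ l q) →
  ∃ m : Measure ℝ, Represents d ε r₀ l m

/-- M4b: complementary slackness. -/
def MeasureBStmt : Prop := ∀ (d : ℕ) (ε r₀ : ℝ), 1 ≤ d → 0 < ε → 0 < r₀ →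
  ∀ l : Y d ε →ₗ[ℝ] ℝ, (∀ q : Y d ε, (∀ x, r₀ ≤ ‖x‖ → 0 ≤ q.1 x) → 0 ≤ l q) →
  ∀ m : Measure ℝ, Represents d ε r₀ l m →
    ∀ g : Y d ε, Continuous g.1 → (∀ x, r₀ ≤ ‖x‖ → 0 ≤ g.1 x) → l g = 0 →
      m {s : ℝ | ∀ x : E d, ‖x‖ ^ 2 = s → g.1 x ≠ 0} = 0

/-- The Laplace transform `∫ exp(-π z x) dμ(x)`. -/
def LT (μ : Measure ℝ) (z : ℂ) : ℂ := ∫ x : ℝ, Complex.exp (-(π : ℂ) * z * x) ∂μ

/-- M5: the dual measures of an optimal function. -/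
def DualMeasureStmt : Prop := ∀ (d : ℕ) (α : ℝ) (f : E d → ℝ), 1 ≤ d → 0 < α →
  IsOptimal d α f → ∃ m n : Measure ℝ, ∃ a : ℝ, 0 < a ∧ m (Iio a) = 0 ∧ n (Iio a) = 0 ∧
    (∀ t : ℝ, 0 < t → Integrable (fun x => Real.exp (-t * x)) m) ∧
    (∀ t : ℝ, 0 < t → Integrable (fun x => Real.exp (-t * x)) n) ∧
    (∀ z : ℂ, 0 < z.re → 1 + LT m z = z ^ (-((d : ℂ) / 2)) * (1 + LT n (1 / z))) ∧
    m {s : ℝ | ∀ x : E d, ‖x‖ ^ 2 = s → f x ≠ Real.exp (-α * ‖x‖ ^ 2)} = 0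

/-! ### Theta function part -/

/-- A pair of positive measures on `[0,∞)` whose Laplace transforms are related by `z ↦ 1/z`. -/
structure ThetaPair (k : ℝ) (μ ν : Measure ℝ) : Prop where
  neg₁ : μ (Iio 0) = 0
  neg₂ : ν (Iio 0) = 0
  int₁ : ∀ t : ℝ, 0 < t → Integrable (fun x => Real.exp (-t * x)) μ
  int₂ : ∀ t : ℝ, 0 < t → Integrable (fun x => Real.exp (-t * x)) ν
  one₁ : ∀ t : ℝ, 0 < t → 1 ≤ ∫ x, Real.exp (-t * x) ∂μ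
  one₂ : ∀ t : ℝ, 0 < t → 1 ≤ ∫ x, Real.exp (-t * x) ∂ν
  fe₁ : ∀ z : ℂ, 0 < z.re → LT μ z = z ^ (-(k : ℂ)) * LT ν (1 / z)
  fe₂ : ∀ z : ℂ, 0 < z.re → LT ν z = z ^ (-(k : ℂ)) * LT μ (1 / z)

/-- Gaussian mean square of the Laplace transform on a vertical line. -/
def msq (μ : Measure ℝ) (t : ℝ) : ENNReal :=
  ∫⁻ v : ℝ, ENNReal.ofReal (‖LT μ (t + v * Complex.I)‖ ^ 2 * Real.exp (-π * v ^ 2))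

/-- T1: mean square inequalities for positive measures. -/
def MeanSquareStmt : Prop := ∀ μ : Measure ℝ, μ (Iio 0) = 0 →
  (∀ t : ℝ, 0 < t → Integrable (fun x => Real.exp (-t * x)) μ) →
  (∀ t : ℝ, 0 < t → ∀ v₀ : ℝ,
    ∫⁻ v : ℝ, ENNReal.ofReal (‖LT μ (t + v * Complex.I)‖ ^ 2 * Real.exp (-π * (v - v₀) ^ 2))
      ≤ msq μ t) ∧
  (∀ t U : ℝ, 0 < t → 0 < U → U ≤ 1 → msq μ t ≤ ENNReal.ofReal U⁻¹ *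
    ∫⁻ v : ℝ, ENNReal.ofReal (‖LT μ (t + v * Complex.I)‖ ^ 2 *
      Real.exp (-π * v ^ 2 / U ^ 2))) ∧
  (∀ s t : ℝ, 0 < s → s ≤ t → msq μ t ≤ msq μ s) ∧
  (∀ t : ℝ, 0 < t → ∀ N : ℕ,
    ENNReal.ofReal (∑ j ∈ Finset.range N,
      (∫ x in Ico (j : ℝ) (j + 1), Real.exp (-π * t * x) ∂μ) ^ 2)
      ≤ ENNReal.ofReal (Real.exp (π / 4)) * msq μ t)

/-- T2: change of variables `z ↦ 1/z` on a piece of a vertical strip. -/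
def InversionStmt : Prop := ∀ g : ℂ → ENNReal, Measurable g → ∀ t₀ W : ℝ, 0 < t₀ → t₀ ≤ W →
  ∫⁻ t in Icc (t₀ / 2) t₀, ∫⁻ v in {v : ℝ | W ≤ |v| ∧ |v| ≤ 2 * W},
      g (1 / ((t : ℂ) + v * Complex.I)) ≤
    ENNReal.ofReal (25 * W ^ 4) * ∫⁻ a in Icc (t₀ / (10 * W ^ 2)) (t₀ / W ^ 2),
      ∫⁻ b in Icc (-(2 / W)) (2 / W), g ((a : ℂ) + b * Complex.I)

/-- T3: the contribution of a dyadic piece. -/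
def PieceStmt : Prop := ∀ (k : ℝ) (μ ν : Measure ℝ), 1 ≤ k → ThetaPair k μ ν →
  ∀ t₀ W : ℝ, 0 < t₀ → t₀ ≤ W → W ≤ 1 →
  ∫⁻ t in Icc (t₀ / 2) t₀, ∫⁻ v in {v : ℝ | W ≤ |v| ∧ |v| ≤ 2 * W},
      ENNReal.ofReal (‖LT μ (t + v * Complex.I)‖ ^ 2) ≤
    ENNReal.ofReal (1000 * t₀ * W ^ (1 - 2 * k)) * msq ν (t₀ / (10 * W ^ 2))

/-- T4: splitting of the mean square. -/
def SplitStmt : Prop := ∀ (k C₀ : ℝ) (μ ν : Measure ℝ), 3 / 2 ≤ k → ThetaPair k μ ν →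
  (∫ x, Real.exp (-π * x) ∂μ) ≤ C₀ → (∫ x, Real.exp (-π * x) ∂ν) ≤ C₀ →
  ∀ t₀ U V : ℝ, 0 < t₀ → t₀ ≤ 1 → 0 < U → U ≤ 1 / 2 → 0 < V → V ≤ 1 / 4 →
  msq μ t₀ ≤ ENNReal.ofReal (2 / U * C₀ ^ 2 * 4 ^ k * t₀ ^ (1 - 2 * k)) +
    (∑ j ∈ {j ∈ Finset.range (Nat.ceil (1 / t₀) + 1) | 2 ^ j * t₀ ≤ V},
      ENNReal.ofReal (2000 / U * (2 ^ j * t₀) ^ (1 - 2 * k)) *
        msq ν (t₀ / (10 * (2 ^ j * t₀) ^ 2))) +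
    ENNReal.ofReal (U⁻¹ * Real.exp (-π * V ^ 2 / (2 * U ^ 2))) * msq μ (t₀ / 2)

/-- T5: one step of the recursion. -/
def StepStmt : Prop := ∀ (k C₀ : ℝ), 3 / 2 ≤ k → ∃ C₄ : ℝ, 0 ≤ C₄ ∧ ∀ μ ν : Measure ℝ,
  ThetaPair k μ ν → (∫ x, Real.exp (-π * x) ∂μ) ≤ C₀ → (∫ x, Real.exp (-π * x) ∂ν) ≤ C₀ →
  ∀ P Q : ℝ, 0 ≤ P → 0 ≤ Q →
  (∀ t : ℝ, 0 < t → t ≤ 1 → msq μ t ≤ ENNReal.ofReal ((P + Q / t) * t ^ (1 - 2 * k))) →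
  (∀ t : ℝ, 0 < t → t ≤ 1 → msq ν t ≤ ENNReal.ofReal ((P + Q / t) * t ^ (1 - 2 * k))) →
  ∀ t : ℝ, 0 < t → t ≤ 1 →
    msq μ t ≤ ENNReal.ofReal ((C₄ + P / 4 + 3 / 8 * Q / t) * t ^ (1 - 2 * k))

/-- T6: the mean square bound. -/
def BoundStmt : Prop := ∀ (k : ℝ) (μ ν : Measure ℝ), 3 / 2 ≤ k → ThetaPair k μ ν →
  ∃ P : ℝ, 0 < P ∧ ∀ t : ℝ, 0 < t → t ≤ 1 → msq μ t ≤ ENNReal.ofReal (P * t ^ (1 - 2 * k))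

/-- T7: counting. -/
def CountStmt : Prop := ∀ (k : ℝ) (μ ν : Measure ℝ), 3 / 2 ≤ k → ThetaPair k μ ν →
  ∃ c X₀ : ℝ, 0 < c ∧ ∀ X : ℝ, X₀ ≤ X →
    c * X ≤ ({j : ℕ | (j : ℝ) < X ∧ μ (Ico (j : ℝ) (j + 1)) ≠ 0}.ncard : ℝ)

end Pool.Agent.Lib.MP_adb5ad_gt
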