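import Mathlib

open MeasureTheory FourierTransform Real

noncomputable section

namespace Pool.Agent.Lib.MP_adb5ad_gt

/-- The Euclidean space `ℝ^d`. -/
abbrev E (d : ℕ) := EuclideanSpace ℝ (Fin d)

/-- The Fourier transform `∫ f(x) exp(-2πi⟨x,y⟩) dx` of a real function on `ℝ^d`. -/
def ft {d : ℕ} (f : E d → ℝ) (y : E d) : ℂ := 𝓕 (fun x => (f x : ℂ)) y

/-- Admissible functions for the potential `exp(-α r^2)`: continuous, `f` and its Fourier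
transform are `O((1+|x|)^(-d-ε))` for some `ε>0`, `f(x) ≤ exp(-α|x|^2)` for `x ≠ 0`, and the
Fourier transform is real and nonnegative. -/
structure Admissible (d : ℕ) (α : ℝ) (f : E d → ℝ) : Prop where
  cont : Continuous f
  decay : ∃ ε : ℝ, 0 < ε ∧ ∃ C : ℝ, ∀ x, |f x| ≤ C * (1 + ‖x‖) ^ (-(d : ℝ) - ε) ∧
      ‖ft f x‖ ≤ C * (1 + ‖x‖) ^ (-(d : ℝ) - ε)
  le_gauss : ∀ x, x ≠ 0 → f x ≤ Real.exp (-α * ‖x‖ ^ 2)
  ft_nonneg : ∀ y, (ft f y).im = 0 ∧ 0 ≤ (ft f y).re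

/-- The linear programming value `f̂(0) - f(0)`. -/
def value {d : ℕ} (f : E d → ℝ) : ℝ := (ft f 0).re - f 0

/-- `f` is admissible and attains the supremum `B_d(α)` of the linear programming values. -/
def IsOptimal (d : ℕ) (α : ℝ) (f : E d → ℝ) : Prop :=
  Admissible d α f ∧ ∀ g : E d → ℝ, Admissible d α g → value g ≤ value f

/-- Statement: decay of the averages of characters over the unit sphere. -/
def SphereStmt : Prop := ∀ d : ℕ, 2 ≤ d → ∃ μ : Measure (E d), IsProbabilityMeasure μ ∧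
  (∀ᵐ u ∂μ, ‖u‖ = 1) ∧
  (∀ ξ : E d, (∫ u, Complex.exp ((-2 * π * (inner ℝ u ξ : ℝ) : ℝ) * Complex.I) ∂μ).im = 0) ∧
  ∀ η : ℝ, 0 < η → ∃ t : ℝ, 0 < t ∧ ∀ ξ : E d, t ≤ ‖ξ‖ →
    ‖∫ u, Complex.exp ((-2 * π * (inner ℝ u ξ : ℝ) : ℝ) * Complex.I) ∂μ‖ ≤ η

/-- Statement: positive definite bump functions. -/
def BumpStmt : Prop := ∀ (d : ℕ) (r : ℝ), 0 < r → ∃ φ : E d → ℝ, Continuous φ ∧
  (∀ x, r ≤ ‖x‖ → φ x = 0) ∧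
  (∀ y, (ft φ y).im = 0 ∧ 0 ≤ (ft φ y).re) ∧
  (∃ C : ℝ, ∀ x, ‖ft φ x‖ ≤ C * (1 + ‖x‖) ^ (-(d : ℝ) - 1)) ∧
  ∃ I : ℝ, (volume (Metric.ball (0 : E d) (r / 4))).toReal ≤ I ∧ 0 < I ∧
    (ft φ 0).re = I ^ 2 ∧ φ 0 ≤ I

/-- Statement: the average of the translates of `φ` over a sphere of radius `s`. -/
def AverageStmt : Prop := ∀ (d : ℕ) (μ : Measure (E d)), IsProbabilityMeasure μ →
  (∀ᵐ u ∂μ, ‖u‖ = 1) → ∀ (φ : E d → ℝ) (r : ℝ), 0 < r → Continuous φ →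
  (∀ x, r ≤ ‖x‖ → φ x = 0) → ∀ s : ℝ, 0 ≤ s → ∃ h : E d → ℝ, Continuous h ∧
  (∀ x, ‖x‖ ≤ s - r → h x = 0) ∧ (∀ x, s + r ≤ ‖x‖ → h x = 0) ∧
  ∀ y, ft h y = ft φ y *
    ∫ u, Complex.exp ((-2 * π * (inner ℝ u (s • y) : ℝ) : ℝ) * Complex.I) ∂μ

/-- Statement: duality. -/
def DualStmt : Prop := ∀ (d : ℕ) (α : ℝ), 1 ≤ d → 0 < α → ∀ f : E d → ℝ, IsOptimal d α f →
  ∃ g : E d → ℝ, IsOptimal d (π ^ 2 / α) g ∧
    (∀ y, g y = Real.exp (-(π ^ 2 / α) * ‖y‖ ^ 2) - (α / π) ^ ((d : ℝ) / 2) * (ft f y).re) ∧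
    ∀ y, (ft g y).re = (α / π) ^ ((d : ℝ) / 2) * (Real.exp (-α * ‖y‖ ^ 2) - f (-y))

end Pool.Agent.Lib.MP_adb5ad_gt
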