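import Mathlib
import Pool.Agent.Lib.MP_adb5ad_gt.Defs

open MeasureTheory FourierTransform Real

noncomputable section

namespace Pool.Agent.Lib.MP_adb5ad_gt

namespace Dual

/-- Gaussians decay faster than every power. -/
lemma gauss_decay {a : ℝ} (ha : 0 < a) (s : ℝ) :
    ∃ C : ℝ, 0 ≤ C ∧ ∀ t : ℝ, 0 ≤ t → Real.exp (-a * t ^ 2) ≤ C * (1 + t) ^ (-s) := by
  obtain ⟨N, hN⟩ := exists_nat_ge s
  refine ⟨Real.exp a * ((N.factorial : ℝ) / (a / 2) ^ N), by positivity, fun t ht => ?_⟩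
  have hu : (1 : ℝ) ≤ 1 + t := by linarith
  have hupos : (0 : ℝ) < 1 + t := by linarith
  have h1 : -a * t ^ 2 ≤ a + -(a / 2 * (1 + t)) := by
    have h2 : (1 + t) ^ 2 ≤ 2 + 2 * t ^ 2 := by nlinarith [sq_nonneg (1 - t)]
    have h3 : (1 + t) ≤ (1 + t) ^ 2 := by nlinarith
    nlinarith
  have h4 : Real.exp (-a * t ^ 2) ≤ Real.exp a * Real.exp (-(a / 2 * (1 + t))) := by
    rw [← Real.exp_add]
    exact Real.exp_le_exp.2 h1
  refine h4.trans ?_
  rw [mul_assoc]
  apply mul_le_mul_of_nonneg_left _ (Real.exp_pos a).le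
  have h5 := Real.pow_div_factorial_le_exp (a / 2 * (1 + t)) (by positivity) N
  have h6 : (0 : ℝ) < (a / 2 * (1 + t)) ^ N / N.factorial := by positivity
  have h7 : Real.exp (-(a / 2 * (1 + t))) ≤ ((a / 2 * (1 + t)) ^ N / N.factorial)⁻¹ := by
    rw [Real.exp_neg]
    exact inv_anti₀ h6 h5
  refine h7.trans ?_
  have h8 : ((a / 2 * (1 + t)) ^ N / (N.factorial : ℝ))⁻¹ =
      (N.factorial : ℝ) / (a / 2) ^ N * ((1 + t) ^ N)⁻¹ := by
    rw [mul_pow]
    field_simp
  rw [h8]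
  apply mul_le_mul_of_nonneg_left _ (by positivity)
  rw [← Real.rpow_natCast, ← Real.rpow_neg hupos.le]
  exact Real.rpow_le_rpow_of_exponent_le hu (by linarith)

lemma finrank_E (d : ℕ) : (Module.finrank ℝ (E d) : ℝ) = d := by
  simp [E]

/-- the dual function -/
def D (d : ℕ) (α : ℝ) (f : E d → ℝ) (y : E d) : ℝ :=
  Real.exp (-(π ^ 2 / α) * ‖y‖ ^ 2) - (α / π) ^ ((d : ℝ) / 2) * (ft f y).re

lemma integrable_of_decay {d : ℕ} {V : Type} [NormedAddCommGroup V] {g : E d → V} (hg : Continuous g)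
    {ε C : ℝ} (hε : 0 < ε) (h : ∀ x, ‖g x‖ ≤ C * (1 + ‖x‖) ^ (-(d : ℝ) - ε)) : Integrable g := by
  have h1 : Integrable (fun x : E d => (1 + ‖x‖) ^ (-((d : ℝ) + ε))) := by
    apply integrable_one_add_norm
    rw [finrank_E]
    linarith
  refine (h1.const_mul C).mono' hg.aestronglyMeasurable (Filter.Eventually.of_forall fun x => ?_)
  have := h x
  rw [neg_add']
  exact this

lemma continuous_ft {d : ℕ} {F : E d → ℂ} (hF : Integrable F) : Continuous (𝓕 F) := by
  have : Continuous (VectorFourier.fourierIntegral Real.fourierChar volume (innerₗ (E d)) F) := by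
    apply VectorFourier.fourierIntegral_continuous Real.continuous_fourierChar _ hF
    exact continuous_inner
  exact this

lemma le_one {d : ℕ} (hd : 1 ≤ d) {α : ℝ} {f : E d → ℝ} (hf : Admissible d α f) (x : E d) :
    f x ≤ Real.exp (-α * ‖x‖ ^ 2) := by
  haveI : NeZero d := ⟨by omega⟩
  haveI : Nontrivial (E d) := by
    refine ⟨EuclideanSpace.single 0 1, 0, ?_⟩
    intro h
    have := congrArg (fun v : E d => v 0) h
    simp at this
  haveI : Filter.NeBot (nhdsWithin (0 : E d) {0}ᶜ) := Module.punctured_nhds_neBot ℝ (E d) 0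
  have hclosed : IsClosed {x : E d | f x ≤ Real.exp (-α * ‖x‖ ^ 2)} := by
    apply isClosed_le hf.cont
    fun_prop
  have hsub : ({0}ᶜ : Set (E d)) ⊆ {x : E d | f x ≤ Real.exp (-α * ‖x‖ ^ 2)} := fun x hx =>
    hf.le_gauss x hx
  have hdense : Dense ({0}ᶜ : Set (E d)) := dense_compl_singleton 0
  have := hclosed.closure_subset_iff.2 hsub
  rw [hdense.closure_eq] at this
  exact this (Set.mem_univ x)

lemma gauss_ft (d : ℕ) {β : ℝ} (hβ : 0 < β) (w : E d) :
    𝓕 (fun v : E d => ((Real.exp (-β * ‖v‖ ^ 2) : ℝ) : ℂ)) w =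
      (((π / β) ^ ((d : ℝ) / 2) * Real.exp (-(π ^ 2 / β) * ‖w‖ ^ 2) : ℝ) : ℂ) := by
  have h := fourier_gaussian_innerProductSpace (V := E d) (b := (β : ℂ)) (by simpa using hβ) w
  have h1 : (fun v : E d => ((Real.exp (-β * ‖v‖ ^ 2) : ℝ) : ℂ)) =
      fun v : E d => Complex.exp (-(β : ℂ) * (‖v‖ : ℂ) ^ 2) := by
    funext v
    push_cast
    rfl
  rw [h1, h]
  push_cast
  congr 1
  · rw [← Complex.ofReal_div, show ((Module.finrank ℝ (E d) : ℂ) / 2) = (((d : ℝ) / 2 : ℝ) : ℂ) by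
      push_cast
      simp [E], ← Complex.ofReal_cpow (by positivity)]
  · congr 1
    ring

theorem claim {d : ℕ} (hd : 1 ≤ d) {α : ℝ} (hα : 0 < α) {f : E d → ℝ} (hf : Admissible d α f) :
    Admissible d (π ^ 2 / α) (D d α f) ∧
    (∀ y, ft (D d α f) y =
      (((α / π) ^ ((d : ℝ) / 2) * (Real.exp (-α * ‖y‖ ^ 2) - f (-y)) : ℝ) : ℂ)) ∧
    value (D d α f) = (α / π) ^ ((d : ℝ) / 2) - 1 + (α / π) ^ ((d : ℝ) / 2) * value f := by
  set c : ℝ := (α / π) ^ ((d : ℝ) / 2) with hc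
  have hc0 : 0 < c := by positivity
  set β : ℝ := π ^ 2 / α with hβdef
  have hβ : 0 < β := by positivity
  obtain ⟨ε, hε, C, hC⟩ := hf.decay
  have hC0 : 0 ≤ C := by
    have h1 := (hC 0).1
    rw [norm_zero, add_zero, Real.one_rpow, mul_one] at h1
    exact (abs_nonneg _).trans h1
  set F : E d → ℂ := fun x => (f x : ℂ) with hF
  have hFc : Continuous F := Complex.continuous_ofReal.comp hf.cont
  have hFi : Integrable F := by
    apply integrable_of_decay hFc hε (C := C)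
    intro x
    rw [hF]
    simp only [Complex.norm_real, Real.norm_eq_abs]
    exact (hC x).1
  have hftc : Continuous (𝓕 F) := continuous_ft hFi
  have hfti : Integrable (𝓕 F) := integrable_of_decay hftc hε (fun x => (hC x).2)
  have hreal : ∀ y, (((ft f y).re : ℝ) : ℂ) = 𝓕 F y := by
    intro y
    apply Complex.ext
    · simp [ft, hF]
    · rw [Complex.ofReal_im]
      exact ((hf.ft_nonneg y).1).symm
  have hftcont : Continuous (fun y => (ft f y).re) := Complex.continuous_re.comp hftc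
  have hDc : Continuous (D d α f) := by
    unfold D
    apply Continuous.sub
    · fun_prop
    · exact continuous_const.mul hftcont
  -- the Gaussian
  set G : E d → ℂ := fun v => ((Real.exp (-β * ‖v‖ ^ 2) : ℝ) : ℂ) with hG
  have hGc : Continuous G := by
    rw [hG]
    apply Complex.continuous_ofReal.comp
    fun_prop
  obtain ⟨C1, hC1, hC1'⟩ := gauss_decay hβ ((d : ℝ) + ε)
  obtain ⟨C2, hC2, hC2'⟩ := gauss_decay hα ((d : ℝ) + ε)
  rw [neg_add'] at hC1' hC2'
  have hGi : Integrable G := by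
    apply integrable_of_decay hGc hε (C := C1)
    intro x
    rw [hG]
    simp only [Complex.norm_real, Real.norm_eq_abs, abs_of_pos (Real.exp_pos _)]
    exact hC1' ‖x‖ (norm_nonneg _)
  have hinv : ∀ y, 𝓕 (𝓕 F) y = F (-y) := by
    intro y
    have h1 := congrFun (hFc.fourierInv_fourier_eq hFi hfti) (-y)
    rw [Real.fourierInv_eq_fourier_neg, neg_neg] at h1
    exact h1
  have hgauss : ∀ y, 𝓕 G y = ((c * Real.exp (-α * ‖y‖ ^ 2) : ℝ) : ℂ) := by
    intro y
    rw [hG, gauss_ft d hβ y]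
    have e1 : π / β = α / π := by
      rw [hβdef]
      field_simp
    have e2 : π ^ 2 / β = α := by
      rw [hβdef]
      field_simp
    rw [e1, e2]
  have hft : ∀ y, ft (D d α f) y = ((c * (Real.exp (-α * ‖y‖ ^ 2) - f (-y)) : ℝ) : ℂ) := by
    intro y
    have e1 : (fun x => ((D d α f x : ℝ) : ℂ)) = fun x => G x - (c : ℂ) * 𝓕 F x := by
      funext x
      unfold D
      rw [Complex.ofReal_sub, Complex.ofReal_mul, hreal x]
    unfold ft
    rw [e1, Real.fourier_eq]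
    have e2 : ∀ v : E d, (Real.fourierChar (-inner ℝ v y)) • (G v - (c : ℂ) * 𝓕 F v) =
        (Real.fourierChar (-inner ℝ v y)) • G v -
          (c : ℂ) * ((Real.fourierChar (-inner ℝ v y)) • 𝓕 F v) := by
      intro v
      simp only [Circle.smul_def, smul_eq_mul]
      ring
    simp only [e2]
    rw [integral_sub, integral_const_mul, ← Real.fourier_eq, ← Real.fourier_eq, hinv, hgauss]
    · push_cast
      rw [hF]
      ring
    · exact (Real.fourierIntegral_convergent_iff y).2 hGi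
    · exact ((Real.fourierIntegral_convergent_iff y).2 hfti).const_mul _
  have hexp_le : ∀ y, f y ≤ Real.exp (-α * ‖y‖ ^ 2) := le_one hd hf
  refine ⟨⟨hDc, ?_, ?_, ?_⟩, hft, ?_⟩
  · refine ⟨ε, hε, C1 + c * C + (c * C2 + c * C), fun x => ?_⟩
    have hp : 0 ≤ (1 + ‖x‖) ^ (-(d : ℝ) - ε) := by positivity
    constructor
    · have h1 : |D d α f x| ≤ Real.exp (-β * ‖x‖ ^ 2) + c * ‖ft f x‖ := by
        unfold D
        refine (abs_sub _ _).trans ?_
        rw [abs_of_pos (Real.exp_pos _), abs_mul, abs_of_pos hc0]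
        gcongr
        exact Complex.abs_re_le_norm _
      have h2 := hC1' ‖x‖ (norm_nonneg _)
      have h3 := (hC x).2
      have h4 : c * ‖ft f x‖ ≤ c * (C * (1 + ‖x‖) ^ (-(d : ℝ) - ε)) :=
        mul_le_mul_of_nonneg_left h3 hc0.le
      have h5 : 0 ≤ (c * C2 + c * C) * (1 + ‖x‖) ^ (-(d : ℝ) - ε) := by positivity
      calc |D d α f x| ≤ _ := h1
        _ ≤ C1 * (1 + ‖x‖) ^ (-(d : ℝ) - ε) + c * (C * (1 + ‖x‖) ^ (-(d : ℝ) - ε)) :=
          add_le_add h2 h4
        _ ≤ (C1 + c * C + (c * C2 + c * C)) * (1 + ‖x‖) ^ (-(d : ℝ) - ε) := by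
          nlinarith
    · rw [hft x, Complex.norm_real, Real.norm_eq_abs, abs_mul, abs_of_pos hc0]
      have h1 : |Real.exp (-α * ‖x‖ ^ 2) - f (-x)| ≤ Real.exp (-α * ‖x‖ ^ 2) + |f (-x)| := by
        refine (abs_sub _ _).trans ?_
        rw [abs_of_pos (Real.exp_pos _)]
      have h2 := hC2' ‖x‖ (norm_nonneg _)
      have h3 := (hC (-x)).1
      rw [norm_neg] at h3
      have h4 : c * |Real.exp (-α * ‖x‖ ^ 2) - f (-x)| ≤
          c * (C2 * (1 + ‖x‖) ^ (-(d : ℝ) - ε) + C * (1 + ‖x‖) ^ (-(d : ℝ) - ε)) :=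
        mul_le_mul_of_nonneg_left (h1.trans (add_le_add h2 h3)) hc0.le
      have h5 : 0 ≤ (C1 + c * C) * (1 + ‖x‖) ^ (-(d : ℝ) - ε) := by positivity
      nlinarith
  · intro x _
    unfold D
    have := (hf.ft_nonneg x).2
    have h2 : 0 ≤ c * (ft f x).re := by positivity
    linarith
  · intro y
    rw [hft y, Complex.ofReal_im, Complex.ofReal_re]
    refine ⟨rfl, ?_⟩
    have := hexp_le (-y)
    rw [norm_neg] at this
    apply mul_nonneg hc0.le
    linarith
  · unfold value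
    rw [hft 0, Complex.ofReal_re]
    unfold D
    rw [norm_zero, neg_zero]
    simp only [ne_eq, OfNat.ofNat_ne_zero, not_false_eq_true, zero_pow, mul_zero, Real.exp_zero]
    rw [← hc]
    ring

theorem dual_of_pos (d : ℕ) (α : ℝ) (hd : 1 ≤ d) (hα : 0 < α) (f : E d → ℝ)
    (hf : IsOptimal d α f) :
    ∃ g : E d → ℝ, IsOptimal d (π ^ 2 / α) g ∧
      (∀ y, g y = Real.exp (-(π ^ 2 / α) * ‖y‖ ^ 2) - (α / π) ^ ((d : ℝ) / 2) * (ft f y).re) ∧
      ∀ y, (ft g y).re = (α / π) ^ ((d : ℝ) / 2) * (Real.exp (-α * ‖y‖ ^ 2) - f (-y)) := by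
  obtain ⟨h1, h2, h3⟩ := claim hd hα hf.1
  refine ⟨D d α f, ⟨h1, ?_⟩, fun _ => rfl, fun y => ?_⟩
  · intro g hg
    have hβ : 0 < π ^ 2 / α := by positivity
    obtain ⟨k1, k2, k3⟩ := claim hd hβ hg
    have e1 : π ^ 2 / (π ^ 2 / α) = α := by field_simp
    rw [e1] at k1
    have k4 := hf.2 _ k1
    rw [k3] at k4
    rw [h3]
    set c : ℝ := (α / π) ^ ((d : ℝ) / 2) with hc
    have hc0 : 0 < c := by positivity
    have e2 : (π ^ 2 / α / π) ^ ((d : ℝ) / 2) = c⁻¹ := by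
      rw [hc, ← Real.inv_rpow (by positivity)]
      congr 1
      field_simp
    rw [e2] at k4
    have k5 := mul_le_mul_of_nonneg_left k4 hc0.le
    have e3 : c * (c⁻¹ - 1 + c⁻¹ * value g) = 1 - c + value g := by
      field_simp
    rw [e3] at k5
    linarith
  · rw [h2 y, Complex.ofReal_re]

end Dual

end Pool.Agent.Lib.MP_adb5ad_gt
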