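import Pool.Agent.Lib.MP_adb5ad_gt.CDefs
import Pool.Agent.Lib.MP_adb5ad_gt.Dual

open MeasureTheory FourierTransform Real Filter Topology Set

noncomputable section

namespace Pool.Agent.Lib.MP_adb5ad_gt

theorem integrable_cexp {m : Measure ℝ}
    (hm : ∀ t : ℝ, 0 < t → Integrable (fun x => Real.exp (-t * x)) m) {z : ℂ} (hz : 0 < z.re) :
    Integrable (fun x : ℝ => Complex.exp (-(π : ℂ) * z * x)) m := by
  have h := hm (π * z.re) (by positivity)
  refine h.mono' ?_ (ae_of_all _ fun x => ?_)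
  · exact (by fun_prop : Continuous fun x : ℝ => Complex.exp (-(π : ℂ) * z * x)).aestronglyMeasurable
  · rw [Complex.norm_exp]
    apply le_of_eq
    congr 1
    simp

theorem LT_dirac_add {m : Measure ℝ}
    (hm : ∀ t : ℝ, 0 < t → Integrable (fun x => Real.exp (-t * x)) m) {z : ℂ} (hz : 0 < z.re) :
    LT (Measure.dirac 0 + m) z = 1 + LT m z := by
  unfold LT
  rw [integral_add_measure]
  · simp
  · exact integrable_dirac (by simp)
  · exact integrable_cexp hm hz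

theorem thetaPair_of {k : ℝ} {m n : Measure ℝ} {a : ℝ} (ha : 0 < a) (hm : m (Iio a) = 0)
    (hn : n (Iio a) = 0)
    (hm2 : ∀ t : ℝ, 0 < t → Integrable (fun x => Real.exp (-t * x)) m)
    (hn2 : ∀ t : ℝ, 0 < t → Integrable (fun x => Real.exp (-t * x)) n)
    (hfe : ∀ z : ℂ, 0 < z.re → 1 + LT m z = z ^ (-(k : ℂ)) * (1 + LT n (1 / z))) :
    ThetaPair k (Measure.dirac 0 + m) (Measure.dirac 0 + n) := by
  have key : ∀ m : Measure ℝ, m (Iio a) = 0 →
      ((Measure.dirac (0 : ℝ) + m : Measure ℝ)) (Iio (0 : ℝ)) = 0 := by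
    intro m hm
    rw [Measure.add_apply]
    have h1 : m (Iio 0) = 0 := measure_mono_null (Iio_subset_Iio ha.le) hm
    rw [h1]
    simp
  have kint : ∀ m : Measure ℝ,
      (∀ t : ℝ, 0 < t → Integrable (fun x => Real.exp (-t * x)) m) → ∀ t : ℝ, 0 < t →
      Integrable (fun x => Real.exp (-t * x)) (Measure.dirac (0 : ℝ) + m) := by
    intro m hm t ht
    exact (integrable_dirac (by simp)).add_measure (hm t ht)
  have kone : ∀ m : Measure ℝ,
      (∀ t : ℝ, 0 < t → Integrable (fun x => Real.exp (-t * x)) m) → ∀ t : ℝ, 0 < t →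
      1 ≤ ∫ x, Real.exp (-t * x) ∂(Measure.dirac (0 : ℝ) + m) := by
    intro m hm t ht
    rw [integral_add_measure (integrable_dirac (by simp)) (hm t ht), integral_dirac]
    have : 0 ≤ ∫ x, Real.exp (-t * x) ∂m := integral_nonneg fun x => (Real.exp_pos _).le
    have h0 : Real.exp (-t * 0) = 1 := by simp
    rw [h0]
    linarith
  have hinv : ∀ z : ℂ, 0 < z.re → 0 < (1 / z).re := by
    intro z hz
    rw [one_div, Complex.inv_re]
    have : 0 < Complex.normSq z := by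
      apply Complex.normSq_pos.2
      rintro rfl
      simp at hz
    positivity
  refine ⟨key m hm, key n hn, kint m hm2, kint n hn2, kone m hm2, kone n hn2, ?_, ?_⟩
  · intro z hz
    rw [LT_dirac_add hm2 hz, LT_dirac_add hn2 (hinv z hz), hfe z hz]
  · intro z hz
    rw [LT_dirac_add hn2 hz, LT_dirac_add hm2 (hinv z hz), hfe _ (hinv z hz)]
    have hz0 : z ≠ 0 := by
      rintro rfl
      simp at hz
    rw [one_div_one_div, ← mul_assoc]
    have harg : z.arg ≠ π := by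
      have := Complex.abs_arg_lt_pi_div_two_iff.2 (Or.inl hz)
      intro h
      rw [h, abs_of_pos Real.pi_pos] at this
      linarith [Real.pi_pos]
    have h1 : (1 / z) ^ (-(k : ℂ)) = (z ^ (-(k : ℂ)))⁻¹ := by
      rw [one_div, Complex.inv_cpow _ _ harg]
    rw [h1, mul_inv_cancel₀, one_mul]
    rw [Complex.cpow_def_of_ne_zero hz0]
    exact Complex.exp_ne_zero _

theorem contact_count (h5 : DualMeasureStmt) (h12 : CountStmt) {d : ℕ} (hd : 3 ≤ d) {α : ℝ}
    (hα : 0 < α) {f : E d → ℝ} (hf : IsOptimal d α f) :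
    ∃ c X₀ : ℝ, 0 < c ∧ ∀ X : ℝ, X₀ ≤ X → c * X ≤
      ({j : ℕ | (j : ℝ) < X ∧ ∃ x : E d, x ≠ 0 ∧ (j : ℝ) ≤ ‖x‖ ^ 2 ∧ ‖x‖ ^ 2 < j + 1 ∧
        f x = Real.exp (-α * ‖x‖ ^ 2)}.ncard : ℝ) := by
  obtain ⟨m, n, a, ha, hm, hn, hm2, hn2, hfe, hsl⟩ := h5 d α f (by omega) hα hf
  have hk : (3 : ℝ) / 2 ≤ (d : ℝ) / 2 := by
    have : (3 : ℝ) ≤ d := by exact_mod_cast hd
    linarith
  have hT : ThetaPair ((d : ℝ) / 2) (Measure.dirac 0 + m) (Measure.dirac 0 + n) := by
    apply thetaPair_of ha hm hn hm2 hn2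
    intro z hz
    rw [hfe z hz]
    push_cast
    rfl
  obtain ⟨c, X₀, hc, hX⟩ := h12 _ _ _ hk hT
  refine ⟨c / 2, max X₀ (2 / c), by positivity, fun X hXX => ?_⟩
  have h1 := hX X ((le_max_left _ _).trans hXX)
  set A := {j : ℕ | (j : ℝ) < X ∧
    (Measure.dirac 0 + m : Measure ℝ) (Ico (j : ℝ) (j + 1)) ≠ 0} with hA
  set B := {j : ℕ | (j : ℝ) < X ∧ ∃ x : E d, x ≠ 0 ∧ (j : ℝ) ≤ ‖x‖ ^ 2 ∧ ‖x‖ ^ 2 < j + 1 ∧
        f x = Real.exp (-α * ‖x‖ ^ 2)} with hB
  have hBfin : B.Finite := by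
    apply (Set.finite_lt_nat (Nat.ceil X)).subset
    intro j hj
    exact Nat.lt_ceil.2 hj.1
  have hsub : A ⊆ insert 0 B := by
    intro j hj
    rcases Nat.eq_zero_or_pos j with h0 | h0
    · left
      exact h0
    · right
      refine ⟨hj.1, ?_⟩
      by_contra hcon
      push Not at hcon
      apply hj.2
      rw [Measure.add_apply]
      have hj1 : (1 : ℝ) ≤ j := by exact_mod_cast h0
      have e1 : Measure.dirac (0 : ℝ) (Ico (j : ℝ) (j + 1)) = 0 := by
        rw [Measure.dirac_apply' _ measurableSet_Ico]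
        simp only [Set.indicator_apply_eq_zero, Set.mem_Ico, Pi.one_apply, one_ne_zero, imp_false]
        rintro ⟨h, -⟩
        linarith
      rw [e1, zero_add]
      refine measure_mono_null ?_ hsl
      intro s hs x hx hfx
      have hx0 : x ≠ 0 := by
        rintro rfl
        simp at hx
        rw [← hx] at hs
        have := hs.1
        linarith
      exact hcon x hx0 (by rw [hx]; exact hs.1) (by rw [hx]; exact hs.2) hfx
  have h2 : (A.ncard : ℝ) ≤ B.ncard + 1 := by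
    have h3 := Set.ncard_le_ncard hsub (hBfin.insert 0)
    have h4 := Set.ncard_insert_le 0 B
    exact_mod_cast h3.trans h4
  have h3 : 2 / c ≤ X := (le_max_right _ _).trans hXX
  have h4 : 1 ≤ c / 2 * X := by
    calc (1 : ℝ) = c / 2 * (2 / c) := by field_simp
      _ ≤ c / 2 * X := mul_le_mul_of_nonneg_left h3 (by positivity)
  linarith

theorem zero_count (h5 : DualMeasureStmt) (h12 : CountStmt) {d : ℕ} (hd : 3 ≤ d) {α : ℝ}
    (hα : 0 < α) {f : E d → ℝ} (hf : IsOptimal d α f) :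
    ∃ c X₀ : ℝ, 0 < c ∧ ∀ X : ℝ, X₀ ≤ X → c * X ≤
      ({j : ℕ | (j : ℝ) < X ∧ ∃ y : E d, y ≠ 0 ∧ (j : ℝ) ≤ ‖y‖ ^ 2 ∧ ‖y‖ ^ 2 < j + 1 ∧
        ft f y = 0}.ncard : ℝ) := by
  obtain ⟨g, hg, hg1, -⟩ := Dual.dual_of_pos d α (by omega) hα f hf
  obtain ⟨c, X₀, hc, hX⟩ := contact_count h5 h12 hd (by positivity) hg
  refine ⟨c, X₀, hc, fun X hXX => (hX X hXX).trans ?_⟩
  have hc2 : 0 < (α / π) ^ ((d : ℝ) / 2) := by positivity
  norm_cast
  apply Set.ncard_le_ncard
  · rintro j ⟨hj, x, hx0, hx1, hx2, hx3⟩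
    refine ⟨hj, x, hx0, hx1, hx2, ?_⟩
    rw [hg1 x] at hx3
    have h1 : (α / π) ^ ((d : ℝ) / 2) * (ft f x).re = 0 := by linarith
    have h2 : (ft f x).re = 0 := by
      rcases mul_eq_zero.1 h1 with h | h
      · exact absurd h hc2.ne'
      · exact h
    exact Complex.ext (by simpa using h2) (by simpa using (hf.1.ft_nonneg x).1)
  · apply (Set.finite_lt_nat (Nat.ceil X)).subset
    intro j hj
    exact Nat.lt_ceil.2 hj.1

end Pool.Agent.Lib.MP_adb5ad_gt
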