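import Pool.Agent.Lib.MP_adb5ad_gt.LTBasic

open MeasureTheory FourierTransform Real Filter Topology Set

noncomputable section

namespace Pool.Agent.Lib.MP_adb5ad_gt

theorem sum_Ico_integral {μ : Measure ℝ} {g : ℝ → ℝ} (hg : Integrable g μ) (N : ℕ) :
    ∑ j ∈ Finset.range N, ∫ x in Ico (j : ℝ) (j + 1), g x ∂μ = ∫ x in Ico (0 : ℝ) N, g x ∂μ := by
  induction N with
  | zero => simp
  | succ n ih =>
    rw [Finset.sum_range_succ, ih]
    have h1 : Ico (0 : ℝ) ((n + 1 : ℕ) : ℝ) = Ico (0 : ℝ) n ∪ Ico (n : ℝ) (n + 1) := by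
      push_cast
      rw [Ico_union_Ico_eq_Ico (Nat.cast_nonneg n) (by linarith)]
    rw [h1, setIntegral_union _ measurableSet_Ico hg.integrableOn hg.integrableOn]
    exact Ico_disjoint_Ico_same

theorem countStmt (h6 : MeanSquareStmt) (h11 : BoundStmt) : CountStmt := by
  intro k μ ν hk hT
  obtain ⟨P, hP, hbound⟩ := h11 k μ ν hk hT
  obtain ⟨-, -, -, hP4⟩ := h6 μ hT.neg₁ hT.int₁
  set C₀ := LTr ν 1 with hC₀
  have hC1 : 1 ≤ C₀ := hT.symm.one_le one_pos
  have h2k : (1 : ℝ) ≤ 2 ^ k := Real.one_le_rpow (by norm_num) (by linarith)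
  set A := 2 * C₀ * 2 ^ k with hA
  have hA2 : 2 ≤ A := by nlinarith
  have hlog : 0 < Real.log A := Real.log_pos (by linarith)
  set κ := 2 / π * Real.log A with hκ
  have hκpos : 0 < κ := by positivity
  have hexpκ : Real.exp (-π * κ / 2) = A⁻¹ := by
    rw [hκ]
    have : -π * (2 / π * Real.log A) / 2 = -Real.log A := by
      have := Real.pi_ne_zero
      field_simp
    rw [this, Real.exp_neg, Real.exp_log (by linarith)]
  set D := 4 * Real.exp (π / 4) * P with hD
  have hDpos : 0 < D := by positivity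
  refine ⟨1 / (2 * κ * D), max (2 * κ) 2, by positivity, fun X hX => ?_⟩
  have hX1 : 2 * κ ≤ X := (le_max_left _ _).trans hX
  have hX2 : 2 ≤ X := (le_max_right _ _).trans hX
  have hXpos : 0 < X := by linarith
  set t := 2 * κ / X with ht
  have htpos : 0 < t := by positivity
  have ht1 : t ≤ 1 := by
    rw [ht, div_le_one hXpos]
    exact hX1
  set N := Nat.ceil (X / 2) with hN
  have hNge : X / 2 ≤ N := Nat.le_ceil _
  have htN : κ ≤ t * N := by
    calc κ = t * (X / 2) := by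
          rw [ht]
          field_simp
      _ ≤ t * N := mul_le_mul_of_nonneg_left hNge htpos.le
  have hint := LTr_integrable hT.int₁ htpos
  have hint2 := LTr_integrable hT.int₁ (half_pos htpos)
  -- splitting of the Laplace transform
  have hsplit : LTr μ t ≤ (∫ x in Ico (0 : ℝ) N, Real.exp (-π * t * x) ∂μ) +
      Real.exp (-π * κ / 2) * LTr μ (t / 2) := by
    have e1 : LTr μ t = (∫ x in Ico (0 : ℝ) N, Real.exp (-π * t * x) ∂μ) +
        ∫ x in (Ico (0 : ℝ) N)ᶜ, Real.exp (-π * t * x) ∂μ :=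
      (integral_add_compl measurableSet_Ico hint).symm
    rw [e1]
    refine add_le_add le_rfl ?_
    have e2 : ∫ x in (Ico (0 : ℝ) N)ᶜ, Real.exp (-π * t * x) ∂μ ≤
        ∫ x in (Ico (0 : ℝ) N)ᶜ, Real.exp (-π * κ / 2) * Real.exp (-π * (t / 2) * x) ∂μ := by
      apply integral_mono_ae hint.integrableOn (hint2.const_mul _).integrableOn
      rw [EventuallyLE, ae_restrict_iff' measurableSet_Ico.compl]
      filter_upwards [ae_nonneg hT.neg₁] with x hx hxc
      have hxN : (N : ℝ) ≤ x := by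
        by_contra hcon
        exact hxc ⟨hx, not_le.1 hcon⟩
      rw [← Real.exp_add]
      apply Real.exp_le_exp.2
      have h1 : κ ≤ t * x := htN.trans (mul_le_mul_of_nonneg_left hxN htpos.le)
      have h2 : π * κ ≤ π * (t * x) := mul_le_mul_of_nonneg_left h1 Real.pi_pos.le
      linarith
    refine e2.trans ?_
    rw [integral_const_mul]
    apply mul_le_mul_of_nonneg_left _ (Real.exp_pos _).le
    exact setIntegral_le_integral hint2 (ae_of_all _ fun x => (Real.exp_pos _).le)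
  have htail : Real.exp (-π * κ / 2) * LTr μ (t / 2) ≤ t ^ (-k) / 2 := by
    have h1 := hT.LTr_le (half_pos htpos) (by linarith)
    have h2 : (t / 2) ^ (-k) = 2 ^ k * t ^ (-k) := by
      rw [Real.div_rpow htpos.le (by norm_num), Real.rpow_neg (by norm_num : (0 : ℝ) ≤ 2),
        div_inv_eq_mul, mul_comm]
    rw [h2] at h1
    rw [hexpκ]
    calc A⁻¹ * LTr μ (t / 2) ≤ A⁻¹ * (C₀ * (2 ^ k * t ^ (-k))) :=
          mul_le_mul_of_nonneg_left h1 (by positivity)
      _ = t ^ (-k) / 2 := by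
          rw [hA]
          field_simp
  have hlow := hT.LTr_ge htpos
  set b : ℕ → ℝ := fun j => ∫ x in Ico (j : ℝ) (j + 1), Real.exp (-π * t * x) ∂μ with hb
  have hsum : t ^ (-k) / 2 ≤ ∑ j ∈ Finset.range N, b j := by
    rw [hb, sum_Ico_integral hint N]
    linarith
  classical
  set J : Finset ℕ := {j ∈ Finset.range N | μ (Ico ((j : ℕ) : ℝ) ((j : ℕ) + 1)) ≠ 0} with hJ
  have hsumJ : ∑ j ∈ Finset.range N, b j = ∑ j ∈ J, b j := by
    rw [hJ, Finset.sum_filter]
    apply Finset.sum_congr rfl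
    intro j _
    split_ifs with h
    · rfl
    · push Not at h
      simp only [hb]
      rw [setIntegral_measure_zero _ h]
  have hsq : ∑ j ∈ J, b j ^ 2 ≤ Real.exp (π / 4) * (P * t ^ (1 - 2 * k)) := by
    have h1 : ∑ j ∈ J, b j ^ 2 ≤ ∑ j ∈ Finset.range N, b j ^ 2 :=
      Finset.sum_le_sum_of_subset_of_nonneg (Finset.filter_subset _ _) fun _ _ _ => sq_nonneg _
    refine h1.trans ?_
    have h2 := (hP4 t htpos N).trans (mul_le_mul_right (hbound t htpos ht1) _)
    rw [← ENNReal.ofReal_mul (Real.exp_pos _).le] at h2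
    exact (ENNReal.ofReal_le_ofReal_iff (by positivity)).1 h2
  have hCS : (∑ j ∈ J, b j) ^ 2 ≤ J.card * ∑ j ∈ J, b j ^ 2 := sq_sum_le_card_mul_sum_sq
  have hJcard : 1 / (2 * κ * D) * X ≤ (J.card : ℝ) := by
    have h1 : (t ^ (-k) / 2) ^ 2 ≤ J.card * (Real.exp (π / 4) * (P * t ^ (1 - 2 * k))) := by
      calc (t ^ (-k) / 2) ^ 2 ≤ (∑ j ∈ J, b j) ^ 2 := by
            apply pow_le_pow_left₀ (by positivity)
            rw [← hsumJ]
            exact hsum
        _ ≤ J.card * ∑ j ∈ J, b j ^ 2 := hCS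
        _ ≤ _ := mul_le_mul_of_nonneg_left hsq (Nat.cast_nonneg _)
    have h2 : (t ^ (-k) / 2) ^ 2 = t ^ (1 - 2 * k) * (t⁻¹ / 4) := by
      rw [div_pow, ← Real.rpow_natCast (t ^ (-k)) 2, ← Real.rpow_mul htpos.le,
        ← Real.rpow_neg_one t, mul_div_assoc', ← Real.rpow_add htpos]
      norm_num
      congr 1
      ring
    rw [h2] at h1
    have h3 : 0 < t ^ (1 - 2 * k) := Real.rpow_pos_of_pos htpos _
    have h4 : t⁻¹ / 4 ≤ J.card * (Real.exp (π / 4) * P) := by
      apply le_of_mul_le_mul_left _ h3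
      calc t ^ (1 - 2 * k) * (t⁻¹ / 4) ≤ _ := h1
        _ = _ := by ring
    have h5 : t⁻¹ = X / (2 * κ) := by
      rw [ht, inv_div]
    rw [h5] at h4
    have h6 : X / (2 * κ) ≤ J.card * D := by
      rw [hD]
      linarith
    calc 1 / (2 * κ * D) * X = X / (2 * κ) / D := by
          field_simp
      _ ≤ J.card := by
          rw [div_le_iff₀ hDpos]
          exact h6
  refine hJcard.trans ?_
  have hfin : {j : ℕ | (j : ℝ) < X ∧ μ (Ico (j : ℝ) (j + 1)) ≠ 0}.Finite := by
    apply (Set.finite_lt_nat (Nat.ceil X)).subset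
    intro j hj
    exact Nat.lt_ceil.2 hj.1
  have hsub : (J : Set ℕ) ⊆ {j : ℕ | (j : ℝ) < X ∧ μ (Ico (j : ℝ) (j + 1)) ≠ 0} := by
    intro j hj
    rw [hJ] at hj
    simp only [Finset.coe_filter, Finset.mem_range, mem_setOf_eq] at hj
    refine ⟨?_, hj.2⟩
    have := Nat.lt_ceil.1 hj.1
    linarith
  have := Set.ncard_le_ncard hsub hfin
  rw [Set.ncard_coe_finset] at this
  exact_mod_cast this

end Pool.Agent.Lib.MP_adb5ad_gt
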