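import Pool.Agent.Lib.MP_adb5ad_gt.CDefs
import Pool.Agent.Lib.MP_adb5ad_gt.Bump
import Pool.Agent.Lib.MP_adb5ad_gt.Dual

/-!
# The dual measures of an optimal function
-/

open MeasureTheory FourierTransform Real Filter Topology Set

noncomputable section

namespace Pool.Agent.Lib.MP_adb5ad_gt

namespace DualMeasure

variable {d : ℕ}

/-- The Fourier transform of an even real function is real. -/
lemma ft_im_even {h : E d → ℝ} (he : ∀ x, h (-x) = h x) (y : E d) : (ft h y).im = 0 := by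
  rw [← Complex.conj_eq_iff_im]
  have h1 : ft h y = ∫ v, Complex.exp (((-2 * π * inner ℝ v y : ℝ) : ℂ) * Complex.I) •
      ((h v : ℝ) : ℂ) := by
    unfold ft
    rw [Real.fourier_eq']
  have h2 : ∫ v, Complex.exp (((-2 * π * inner ℝ v y : ℝ) : ℂ) * Complex.I) • ((h v : ℝ) : ℂ)
      = ∫ v, Complex.exp (((-2 * π * inner ℝ (-v) y : ℝ) : ℂ) * Complex.I) •
        ((h (-v) : ℝ) : ℂ) :=
    (integral_neg_eq_self (fun v => Complex.exp (((-2 * π * inner ℝ v y : ℝ) : ℂ) * Complex.I) •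
      ((h v : ℝ) : ℂ)) volume).symm
  rw [h1, ← integral_conj]
  rw [h2]
  congr 1
  ext v
  rw [he v]
  simp only [smul_eq_mul, map_mul]
  congr 1
  · rw [← Complex.exp_conj]
    congr 1
    simp only [map_mul, Complex.conj_ofReal, Complex.conj_I, inner_neg_left]
    push_cast
    ring
  · rw [Complex.conj_ofReal]

/-- The Fourier transform of the real part of an even function. -/
lemma ft_re {F : E d → ℂ} (hF : Integrable F) (he : ∀ x, F (-x) = F x) (y : E d) :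
    ft (fun x => (F x).re) y = (((𝓕 F y).re : ℝ) : ℂ) := by
  have h1 : (ft (fun x => (F x).re) y).im = 0 := ft_im_even (fun x => by rw [he x]) y
  have h2 : (ft (fun x => (F x).im) y).im = 0 := ft_im_even (fun x => by rw [he x]) y
  have hre : Integrable (fun x => (F x).re) := hF.re
  have him : Integrable (fun x => (F x).im) := hF.im
  have h3 : 𝓕 F y = ft (fun x => (F x).re) y + Complex.I * ft (fun x => (F x).im) y := by
    unfold ft
    rw [Real.fourier_eq, Real.fourier_eq, Real.fourier_eq, ← integral_const_mul, ← integral_add]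
    · congr 1
      ext x
      simp only [Circle.smul_def, smul_eq_mul]
      have h4 : F x = ((F x).re : ℂ) + Complex.I * ((F x).im : ℂ) := by
        rw [mul_comm]
        exact (Complex.re_add_im (F x)).symm
      nth_rewrite 1 [h4]
      ring
    · exact (Real.fourierIntegral_convergent_iff y).2 hre.ofReal
    · exact ((Real.fourierIntegral_convergent_iff y).2 him.ofReal).const_mul _
  apply Complex.ext
  · rw [h3, Complex.ofReal_re, Complex.add_re, Complex.mul_re, h2]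
    simp
  · rw [h1, Complex.ofReal_im]

/-- The Fourier transform of a complex Gaussian. -/
lemma ft_gauss {z : ℂ} (hz : 0 < z.re) (c : ℂ) (y : E d) :
    𝓕 (fun x : E d => c * Complex.exp (-(π : ℂ) * z * ((‖x‖ ^ 2 : ℝ) : ℂ))) y =
      c * (z ^ (-((d : ℂ) / 2)) * Complex.exp (-(π : ℂ) * (1 / z) * ((‖y‖ ^ 2 : ℝ) : ℂ))) := by
  have hz0 : z ≠ 0 := by
    rintro rfl
    simp at hz
  have hpi : (π : ℂ) ≠ 0 := by exact_mod_cast pi_pos.ne'
  have hb : 0 < ((π : ℂ) * z).re := by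
    rw [Complex.re_ofReal_mul]
    exact mul_pos pi_pos hz
  have h := fourier_gaussian_innerProductSpace (V := E d) (b := (π : ℂ) * z) hb y
  have h1 : 𝓕 (fun x : E d => c * Complex.exp (-(π : ℂ) * z * ((‖x‖ ^ 2 : ℝ) : ℂ))) y =
      c * 𝓕 (fun x : E d => Complex.exp (-((π : ℂ) * z) * (‖x‖ : ℂ) ^ 2)) y := by
    rw [Real.fourier_eq, Real.fourier_eq, ← integral_const_mul]
    congr 1
    ext x
    simp only [Circle.smul_def, smul_eq_mul]
    push_cast
    rw [show -(π : ℂ) * z * (‖x‖ : ℂ) ^ 2 = -((π : ℂ) * z) * (‖x‖ : ℂ) ^ 2 by ring]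
    ring
  rw [h1, h]
  congr 1
  congr 1
  · have e1 : (π : ℂ) / ((π : ℂ) * z) = z⁻¹ := by
      field_simp
    have e2 : z.arg ≠ π := by
      intro h2
      have := (Complex.arg_eq_pi_iff.1 h2).1
      linarith
    rw [e1, Complex.inv_cpow _ _ e2, Complex.cpow_neg]
    congr 2
    simp [E]
  · congr 1
    push_cast
    field_simp

lemma norm_cexp (z : ℂ) (s : ℝ) : ‖Complex.exp (-(π : ℂ) * z * (s : ℂ))‖ =
    Real.exp (-(π * z.re) * s) := by
  rw [Complex.norm_exp]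
  congr 1
  rw [show -(π : ℂ) * z * (s : ℂ) = ((-(π * s) : ℝ) : ℂ) * z by push_cast; ring,
    Complex.re_ofReal_mul]
  ring

lemma one_div_re_pos {z : ℂ} (hz : 0 < z.re) : 0 < (1 / z).re := by
  rw [one_div, Complex.inv_re]
  have hz0 : z ≠ 0 := by
    rintro rfl
    simp at hz
  exact div_pos hz (Complex.normSq_pos.2 hz0)

/-- Gaussians are bounded by the weight. -/
lemma gauss_wt {a : ℝ} (ha : 0 < a) (d : ℕ) (ε : ℝ) : ∃ C : ℝ, 0 ≤ C ∧ ∀ x : E d,
    Real.exp (-a * ‖x‖ ^ 2) ≤ C * wt d ε x := by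
  obtain ⟨C, hC0, hC⟩ := Dual.gauss_decay ha ((d : ℝ) + ε)
  refine ⟨C, hC0, fun x => ?_⟩
  have := hC ‖x‖ (norm_nonneg x)
  unfold wt
  rwa [show -(d : ℝ) - ε = -((d : ℝ) + ε) by ring]

/-- The real parts of multiples of complex Gaussians are test functions. -/
lemma test_gauss {ε : ℝ} (hε : 0 < ε) {z : ℂ} (hz : 0 < z.re) (c : ℂ) :
    Test d ε (fun x : E d => (c * Complex.exp (-(π : ℂ) * z * ((‖x‖ ^ 2 : ℝ) : ℂ))).re) ∧
    ∀ y : E d, ft (fun x : E d => (c * Complex.exp (-(π : ℂ) * z * ((‖x‖ ^ 2 : ℝ) : ℂ))).re) y =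
      ((c * (z ^ (-((d : ℂ) / 2)) *
        Complex.exp (-(π : ℂ) * (1 / z) * ((‖y‖ ^ 2 : ℝ) : ℂ)))).re : ℂ) := by
  have hcF : Continuous
      (fun x : E d => c * Complex.exp (-(π : ℂ) * z * ((‖x‖ ^ 2 : ℝ) : ℂ))) := by
    fun_prop
  obtain ⟨C1, hC10, hC1⟩ := gauss_wt (mul_pos pi_pos hz) d ε
  obtain ⟨C2, hC20, hC2⟩ := gauss_wt (mul_pos pi_pos (one_div_re_pos hz)) d ε
  have hbF : ∀ x : E d, ‖c * Complex.exp (-(π : ℂ) * z * ((‖x‖ ^ 2 : ℝ) : ℂ))‖ ≤
      (‖c‖ * C1) * wt d ε x := by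
    intro x
    rw [norm_mul, norm_cexp, mul_assoc]
    exact mul_le_mul_of_nonneg_left (hC1 x) (norm_nonneg c)
  have hFi : Integrable
      (fun x : E d => c * Complex.exp (-(π : ℂ) * z * ((‖x‖ ^ 2 : ℝ) : ℂ))) :=
    integrable_of_decay hε hcF hbF
  have hft : ∀ y : E d,
      ft (fun x : E d => (c * Complex.exp (-(π : ℂ) * z * ((‖x‖ ^ 2 : ℝ) : ℂ))).re) y =
      ((c * (z ^ (-((d : ℂ) / 2)) *
        Complex.exp (-(π : ℂ) * (1 / z) * ((‖y‖ ^ 2 : ℝ) : ℂ)))).re : ℂ) := by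
    intro y
    rw [ft_re hFi (fun x => by rw [norm_neg]), ft_gauss hz]
  have hw : ∀ x : E d, 0 < wt d ε x := by
    intro x
    unfold wt
    positivity
  refine ⟨⟨?_, ?_, ?_⟩, hft⟩
  · exact Complex.continuous_re.comp hcF
  · intro y
    rw [hft y, Complex.ofReal_im]
  · refine ⟨‖c‖ * C1 + ‖c‖ * ‖z ^ (-((d : ℂ) / 2))‖ * C2, fun x => ?_⟩
    have hnn := norm_nonneg c
    have hnn2 := norm_nonneg (z ^ (-((d : ℂ) / 2)))
    constructor
    · refine (Complex.abs_re_le_norm _).trans ((hbF x).trans ?_)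
      apply mul_le_mul_of_nonneg_right _ (hw x).le
      have : 0 ≤ ‖c‖ * ‖z ^ (-((d : ℂ) / 2))‖ * C2 := by positivity
      linarith
    · rw [hft x, Complex.norm_real]
      refine (Complex.abs_re_le_norm _).trans ?_
      rw [norm_mul, norm_mul, norm_cexp]
      calc ‖c‖ * (‖z ^ (-((d : ℂ) / 2))‖ * Real.exp (-(π * (1 / z).re) * ‖x‖ ^ 2))
          ≤ ‖c‖ * (‖z ^ (-((d : ℂ) / 2))‖ * (C2 * wt d ε x)) := by
            apply mul_le_mul_of_nonneg_left _ hnn
            exact mul_le_mul_of_nonneg_left (hC2 x) hnn2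
        _ = (‖c‖ * ‖z ^ (-((d : ℂ) / 2))‖ * C2) * wt d ε x := by ring
        _ ≤ _ := by
            apply mul_le_mul_of_nonneg_right _ (hw x).le
            have : 0 ≤ ‖c‖ * C1 := by positivity
            linarith

/-- The value of a functional on the real part of a Gaussian. -/
lemma rep_gauss {ε r : ℝ} {l : Y d ε →ₗ[ℝ] ℝ} {m : Measure ℝ} (hm : Represents d ε r l m)
    {z : ℂ} (hz : 0 < z.re) (c : ℂ) (q : Y d ε)
    (hq : ∀ x, q.1 x = (c * Complex.exp (-(π : ℂ) * z * ((‖x‖ ^ 2 : ℝ) : ℂ))).re) :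
    l q = (c * LT m z).re := by
  have hcont : Continuous (fun s : ℝ => c * Complex.exp (-(π : ℂ) * z * (s : ℂ))) := by
    fun_prop
  obtain ⟨-, h2⟩ := hm.2 (fun s : ℝ => (c * Complex.exp (-(π : ℂ) * z * (s : ℂ))).re)
    (Complex.continuous_re.comp hcont) ⟨‖c‖, π * z.re, mul_pos pi_pos hz, fun s _ => by
      refine (Complex.abs_re_le_norm _).trans ?_
      rw [norm_mul, norm_cexp]⟩
  rw [h2 q hq]
  obtain ⟨h3, -⟩ := hm.2 (fun s : ℝ => Real.exp (-(π * z.re) * s)) (by fun_prop)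
    ⟨1, π * z.re, mul_pos pi_pos hz, fun s _ => by
      rw [abs_of_pos (Real.exp_pos _), one_mul]⟩
  have h4 : Integrable (fun s : ℝ => Complex.exp (-(π : ℂ) * z * (s : ℂ))) m := by
    refine h3.mono' (Continuous.aestronglyMeasurable (by fun_prop)) (ae_of_all _ fun s => ?_)
    rw [norm_cexp]
  have h5 : ∫ s : ℝ, (c * Complex.exp (-(π : ℂ) * z * (s : ℂ))).re ∂m =
      (∫ s : ℝ, c * Complex.exp (-(π : ℂ) * z * (s : ℂ)) ∂m).re :=
    integral_re (h4.const_mul c)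
  rw [h5, integral_const_mul]
  rfl

end DualMeasure

open DualMeasure

theorem dualMeasureStmt (h3 : FunctionalStmt) (h4 : MeasureAStmt) (h5 : MeasureBStmt) :
    DualMeasureStmt := by
  intro d α f hd hα hf
  obtain ⟨ε, hε, C, hC⟩ := hf.1.decay
  have hint := hf.1.integrable
  have hDual : DualStmt := fun d α hd hα f hf => Dual.dual_of_pos d α hd hα f hf
  have hlt : f 0 < 1 := zero_lt_one' bumpStmt hDual hd hα hf
  have hft0 : 0 < (ft f 0).re := ft_zero_pos bumpStmt hd hα hf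
  have hpc : Continuous (fun x : E d => Real.exp (-α * ‖x‖ ^ 2) - f x) := by
    have := hf.1.cont
    fun_prop
  obtain ⟨r₀, hr₀, hstrict⟩ : ∃ r₀ : ℝ, 0 < r₀ ∧ ∀ x : E d, ‖x‖ ≤ r₀ →
      f x < Real.exp (-α * ‖x‖ ^ 2) := by
    have h0 : (0 : ℝ) < Real.exp (-α * ‖(0 : E d)‖ ^ 2) - f 0 := by
      simp
      exact hlt
    have ev : ∀ᶠ x in 𝓝 (0 : E d), 0 < Real.exp (-α * ‖x‖ ^ 2) - f x :=
      hpc.continuousAt.eventually (lt_mem_nhds h0)
    obtain ⟨r, hr, h⟩ := (Metric.nhds_basis_closedBall (x := (0 : E d))).eventually_iff.1 ev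
    refine ⟨r, hr, fun x hx => ?_⟩
    have := h (show x ∈ Metric.closedBall (0 : E d) r by simpa using hx)
    linarith
  obtain ⟨δ, hδ, hpos⟩ : ∃ δ : ℝ, 0 < δ ∧ ∀ y : E d, ‖y‖ ≤ δ → 0 < (ft f y).re := by
    have hc : Continuous (fun y : E d => (ft f y).re) :=
      Complex.continuous_re.comp (ft_continuous hint)
    have ev : ∀ᶠ y in 𝓝 (0 : E d), 0 < (ft f y).re :=
      hc.continuousAt.eventually (lt_mem_nhds hft0)
    obtain ⟨r, hr, h⟩ := (Metric.nhds_basis_closedBall (x := (0 : E d))).eventually_iff.1 ev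
    exact ⟨r, hr, fun y hy => h (show y ∈ Metric.closedBall (0 : E d) r by simpa using hy)⟩
  have htest : Test d ε f := ⟨hf.1.cont, fun y => (hf.1.ft_nonneg y).1, C, hC⟩
  have hS : Setup d α f ε r₀ δ := ⟨hd, hα, hf, hε, htest, hr₀, hδ, hstrict, hpos⟩
  obtain ⟨l₁, l₂, hl₁, hl₂, hl, hl₁f, hl₂f⟩ := h3 d α f ε r₀ δ hS
  obtain ⟨m, hm⟩ := h4 d ε r₀ hd hε hr₀ l₁ hl₁
  obtain ⟨n, hn⟩ := h4 d ε δ hd hε hδ l₂ hl₂
  have hInt : ∀ (r : ℝ) (l : Y d ε →ₗ[ℝ] ℝ) (μ : Measure ℝ), Represents d ε r l μ →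
      ∀ t : ℝ, 0 < t → Integrable (fun x => Real.exp (-t * x)) μ := by
    intro r l μ hμ t ht
    exact (hμ.2 (fun s : ℝ => Real.exp (-t * s)) (by fun_prop)
      ⟨1, t, ht, fun s _ => by rw [abs_of_pos (Real.exp_pos _), one_mul]⟩).1
  refine ⟨m, n, min (r₀ ^ 2) (δ ^ 2), lt_min (by positivity) (by positivity),
    measure_mono_null (Iio_subset_Iio (min_le_left _ _)) hm.1,
    measure_mono_null (Iio_subset_Iio (min_le_right _ _)) hn.1,
    hInt _ _ _ hm, hInt _ _ _ hn, ?_, ?_⟩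
  · intro z hz
    have key : ∀ c : ℂ, (c * (1 + LT m z)).re =
        (c * (z ^ (-((d : ℂ) / 2)) * (1 + LT n (1 / z)))).re := by
      intro c
      obtain ⟨ht, hfth⟩ := test_gauss (d := d) hε hz c
      obtain ⟨K, hK⟩ := ht.bd
      let q₁ : Y d ε := ⟨fun x : E d =>
        (c * Complex.exp (-(π : ℂ) * z * ((‖x‖ ^ 2 : ℝ) : ℂ))).re, K, fun x => (hK x).1⟩
      let q₂ : Y d ε := ⟨fun y : E d => (ft (fun x : E d =>
        (c * Complex.exp (-(π : ℂ) * z * ((‖x‖ ^ 2 : ℝ) : ℂ))).re) y).re, K, fun y =>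
          (Complex.abs_re_le_norm _).trans (hK y).2⟩
      have e1 := hl _ ht q₁ q₂ (fun _ => rfl) (fun _ => rfl)
      have e2 : l₁ q₁ = (c * LT m z).re := rep_gauss hm hz c q₁ (fun _ => rfl)
      have e3 : l₂ q₂ = ((c * z ^ (-((d : ℂ) / 2))) * LT n (1 / z)).re := by
        refine rep_gauss hn (one_div_re_pos hz) _ q₂ (fun y => ?_)
        show (ft (fun x : E d =>
          (c * Complex.exp (-(π : ℂ) * z * ((‖x‖ ^ 2 : ℝ) : ℂ))).re) y).re = _
        rw [hfth y, Complex.ofReal_re]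
        congr 1
        ring
      have e4 : value (fun x : E d =>
          (c * Complex.exp (-(π : ℂ) * z * ((‖x‖ ^ 2 : ℝ) : ℂ))).re) =
          (c * z ^ (-((d : ℂ) / 2))).re - c.re := by
        have e0 : ((‖(0 : E d)‖ ^ 2 : ℝ) : ℂ) = 0 := by simp
        have e0' : (c * Complex.exp (-(π : ℂ) * z * ((‖(0 : E d)‖ ^ 2 : ℝ) : ℂ))).re = c.re := by
          rw [e0, mul_zero, Complex.exp_zero, mul_one]
        show (ft (fun x : E d =>
          (c * Complex.exp (-(π : ℂ) * z * ((‖x‖ ^ 2 : ℝ) : ℂ))).re) 0).re -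
          (c * Complex.exp (-(π : ℂ) * z * ((‖(0 : E d)‖ ^ 2 : ℝ) : ℂ))).re = _
        rw [e0', hfth 0, Complex.ofReal_re, e0, mul_zero, Complex.exp_zero, mul_one]
      rw [e2, e3, e4] at e1
      have e5 : c * (1 + LT m z) = c + c * LT m z := by ring
      have e6 : c * (z ^ (-((d : ℂ) / 2)) * (1 + LT n (1 / z))) =
          c * z ^ (-((d : ℂ) / 2)) + c * z ^ (-((d : ℂ) / 2)) * LT n (1 / z) := by ring
      rw [e5, e6, Complex.add_re, Complex.add_re]
      linarith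
    have k1 := key 1
    have k2 := key (-Complex.I)
    rw [one_mul, one_mul] at k1
    apply Complex.ext k1
    simpa using k2
  · have hg0 : ∀ x : E d, x ≠ 0 → 0 ≤ Real.exp (-α * ‖x‖ ^ 2) - f x := by
      intro x hx
      have := hf.1.le_gauss x hx
      linarith
    obtain ⟨K, hK0, hK⟩ := gauss_wt hα d ε
    let g : Y d ε := ⟨fun x : E d => Real.exp (-α * ‖x‖ ^ 2) - f x, K + C, fun x => by
      rw [add_mul]
      refine (abs_sub _ _).trans (add_le_add ?_ (hC x).1)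
      rw [abs_of_pos (Real.exp_pos _)]
      exact hK x⟩
    have h6 := h5 d ε r₀ hd hε hr₀ l₁ hl₁ m hm g hpc (fun x hx => hg0 x (by
      rintro rfl
      rw [norm_zero] at hx
      linarith)) (hl₁f g fun _ => rfl)
    have h7 : {s : ℝ | ∀ x : E d, ‖x‖ ^ 2 = s → f x ≠ Real.exp (-α * ‖x‖ ^ 2)} =
        {s : ℝ | ∀ x : E d, ‖x‖ ^ 2 = s → g.1 x ≠ 0} := by
      ext s
      constructor
      · intro h x hx h0
        exact h x hx (by
          have h8 : Real.exp (-α * ‖x‖ ^ 2) - f x = 0 := h0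
          linarith)
      · intro h x hx h0
        exact h x hx (by
          show Real.exp (-α * ‖x‖ ^ 2) - f x = 0
          rw [h0, sub_self])
    rw [h7]
    exact h6

end Pool.Agent.Lib.MP_adb5ad_gt
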