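import Pool.Agent.Lib.MP_adb5ad_gt.CDefs

/-!
# The dual functionals
-/

open MeasureTheory FourierTransform Real Filter Topology Set

noncomputable section

namespace Pool.Agent.Lib.MP_adb5ad_gt

variable {d : ℕ}

private lemma Functional_wt_pos (ε : ℝ) (x : E d) : 0 < wt d ε x := by
  unfold wt
  positivity

private lemma Test.integrable {ε : ℝ} (hε : 0 < ε) {h : E d → ℝ} (hh : Test d ε h) :
    Integrable h := by
  obtain ⟨C, hC⟩ := hh.bd
  exact integrable_of_decay hε hh.cont (fun x => by simpa [wt] using (hC x).1)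

private lemma Functional_ft_zero (y : E d) : ft (0 : E d → ℝ) y = 0 := by
  unfold ft
  rw [Real.fourier_eq]
  simp

private lemma Functional_ft_add {f h : E d → ℝ} (hf : Integrable f) (hh : Integrable h)
    (y : E d) : ft (f + h) y = ft f y + ft h y := by
  have h1 := ft_add_mul hf hh 1 y
  have h2 : (fun x => f x + 1 * h x) = f + h := by
    funext x
    simp
  rw [h2] at h1
  simpa using h1

private lemma Functional_ft_smul {h : E d → ℝ} (hh : Integrable h) (c : ℝ)
    (y : E d) : ft (c • h) y = c * ft h y := by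
  have h1 := ft_add_mul (integrable_zero (E d) ℝ volume) hh c y
  have h2 : (fun x => (0 : E d → ℝ) x + c * h x) = c • h := by
    funext x
    simp
  rw [h2] at h1
  rw [h1, Functional_ft_zero, zero_add]

/-- The space of test functions. -/
private def TS (d : ℕ) (ε : ℝ) (hε : 0 < ε) : Submodule ℝ (E d → ℝ) where
  carrier := {h | Test d ε h}
  add_mem' := by
    intro f h hf hh
    refine ⟨hf.cont.add hh.cont, fun y => ?_, ?_⟩
    · rw [Functional_ft_add (hf.integrable hε) (hh.integrable hε), Complex.add_im, hf.im, hh.im,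
        add_zero]
    · obtain ⟨C, hC⟩ := hf.bd
      obtain ⟨D, hD⟩ := hh.bd
      refine ⟨C + D, fun x => ⟨?_, ?_⟩⟩
      · rw [add_mul]
        exact (abs_add_le _ _).trans (add_le_add (hC x).1 (hD x).1)
      · rw [add_mul, Functional_ft_add (hf.integrable hε) (hh.integrable hε)]
        exact (norm_add_le _ _).trans (add_le_add (hC x).2 (hD x).2)
  zero_mem' := by
    refine ⟨continuous_const, fun y => ?_, 0, fun x => ⟨by simp, ?_⟩⟩
    · rw [Functional_ft_zero]
      simp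
    · rw [Functional_ft_zero]
      simp
  smul_mem' := by
    intro c h hh
    refine ⟨hh.cont.const_smul c, fun y => ?_, ?_⟩
    · rw [Functional_ft_smul (hh.integrable hε)]
      simp [hh.im y]
    · obtain ⟨C, hC⟩ := hh.bd
      refine ⟨|c| * C, fun x => ⟨?_, ?_⟩⟩
      · rw [Pi.smul_apply, smul_eq_mul, abs_mul, mul_assoc]
        exact mul_le_mul_of_nonneg_left (hC x).1 (abs_nonneg c)
      · rw [Functional_ft_smul (hh.integrable hε), norm_mul, Complex.norm_real,
          Real.norm_eq_abs, mul_assoc]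
        exact mul_le_mul_of_nonneg_left (hC x).2 (abs_nonneg c)

/-- The Fourier transform on the space of test functions. -/
private def ftL (d : ℕ) (ε : ℝ) (hε : 0 < ε) : TS d ε hε →ₗ[ℝ] (E d → ℝ) where
  toFun h := fun y => (ft h.1 y).re
  map_add' := by
    intro f h
    funext y
    have h1 : ((f + h : TS d ε hε) : E d → ℝ) = f.1 + h.1 := rfl
    rw [h1, Functional_ft_add (Test.integrable hε f.2) (Test.integrable hε h.2)]
    simp
  map_smul' := by
    intro c h
    funext y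
    have h1 : ((c • h : TS d ε hε) : E d → ℝ) = c • h.1 := rfl
    rw [h1, Functional_ft_smul (Test.integrable hε h.2)]
    simp

/-- The value on the space of test functions. -/
private def valL (d : ℕ) (ε : ℝ) (hε : 0 < ε) : TS d ε hε →ₗ[ℝ] ℝ :=
  (LinearMap.proj (0 : E d)).comp (ftL d ε hε)
    - (LinearMap.proj (0 : E d)).comp (TS d ε hε).subtype

private lemma Functional_gauss_le {α : ℝ} (hα : 0 < α) (ε : ℝ) :
    ∃ C : ℝ, 0 ≤ C ∧ ∀ x : E d, Real.exp (-α * ‖x‖ ^ 2) ≤ C * wt d ε x := by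
  obtain ⟨n, hn⟩ := exists_nat_ge ((d : ℝ) + ε)
  refine ⟨n.factorial * Real.exp (1 + 1 / (4 * α)), by positivity, fun x => ?_⟩
  set t : ℝ := ‖x‖ with ht
  have ht0 : 0 ≤ t := norm_nonneg x
  have h1 : (1 + t) ^ ((d : ℝ) + ε) ≤ (1 + t) ^ n := by
    rw [← Real.rpow_natCast]
    exact Real.rpow_le_rpow_of_exponent_le (by linarith) hn
  have h2 : (1 + t) ^ n ≤ n.factorial * Real.exp (1 + t) := by
    have h3 := Real.pow_div_factorial_le_exp (1 + t) (by linarith) n
    rw [div_le_iff₀ (by positivity)] at h3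
    linarith
  have h4 : Real.exp (1 + t) * Real.exp (-α * t ^ 2) ≤ Real.exp (1 + 1 / (4 * α)) := by
    rw [← Real.exp_add]
    apply Real.exp_le_exp.mpr
    have h5 : 1 / (4 * α) - t + α * t ^ 2 = (2 * α * t - 1) ^ 2 / (4 * α) := by
      field_simp
      ring
    have h6 : 0 ≤ (2 * α * t - 1) ^ 2 / (4 * α) := by positivity
    linarith
  have hw : wt d ε x = ((1 + t) ^ ((d : ℝ) + ε))⁻¹ := by
    unfold wt
    rw [show -(d : ℝ) - ε = -((d : ℝ) + ε) by ring, Real.rpow_neg (by positivity)]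
  have hp : 0 < (1 + t) ^ ((d : ℝ) + ε) := by positivity
  rw [hw, ← div_eq_mul_inv, le_div_iff₀ hp]
  calc Real.exp (-α * t ^ 2) * (1 + t) ^ ((d : ℝ) + ε)
      ≤ Real.exp (-α * t ^ 2) * (n.factorial * Real.exp (1 + t)) :=
        mul_le_mul_of_nonneg_left (h1.trans h2) (Real.exp_pos _).le
    _ = n.factorial * (Real.exp (1 + t) * Real.exp (-α * t ^ 2)) := by ring
    _ ≤ _ := mul_le_mul_of_nonneg_left h4 (by positivity)

/-- Compactly supported functions of the Slater statement are test functions. -/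
private lemma Functional_test_slater {ε r : ℝ} (hr : 0 < r) {φ : E d → ℝ} (hc : Continuous φ)
    (h0 : ∀ x, r ≤ ‖x‖ → φ x = 0) (him : ∀ y, (ft φ y).im = 0) {c C : ℝ} (hc0 : 0 < c)
    (hb : ∀ y, c * wt d ε y ≤ (ft φ y).re ∧ (ft φ y).re ≤ C * wt d ε y) : Test d ε φ := by
  obtain ⟨D, hD0, hD⟩ := compactly_supported_decay hr hc h0 (-(d : ℝ) - ε)
  refine ⟨hc, him, max C D, fun x => ⟨?_, ?_⟩⟩
  · exact (hD x).trans (mul_le_mul_of_nonneg_right (le_max_right _ _) (Functional_wt_pos ε x).le)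
  · have h1 : ft φ x = (((ft φ x).re : ℝ) : ℂ) := by
      apply Complex.ext
      · simp
      · simp [him x]
    have h2 : 0 ≤ (ft φ x).re :=
      le_trans (mul_nonneg hc0.le (Functional_wt_pos ε x).le) (hb x).1
    rw [h1, Complex.norm_real, Real.norm_eq_abs, abs_of_nonneg h2]
    exact (hb x).2.trans
      (mul_le_mul_of_nonneg_right (le_max_left _ _) (Functional_wt_pos ε x).le)

/-- The transform of a function of the Slater statement. -/
private lemma Functional_test_dual {ε r : ℝ} (hε : 0 < ε) (hr : 0 < r) {φ : E d → ℝ}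
    (hc : Continuous φ) (h0 : ∀ x, r ≤ ‖x‖ → φ x = 0) (hev : ∀ x, φ (-x) = φ x)
    (him : ∀ y, (ft φ y).im = 0) {c C : ℝ} (hc0 : 0 < c)
    (hb : ∀ y, c * wt d ε y ≤ (ft φ y).re ∧ (ft φ y).re ≤ C * wt d ε y) :
    Test d ε (fun x => (ft φ x).re) ∧ ∀ y, ft (fun x => (ft φ x).re) y = φ y := by
  have ht := Functional_test_slater hr hc h0 him hc0 hb
  have hint := ht.integrable hε
  have hcont : Continuous (ft φ) := ft_continuous hint
  have hint2 : Integrable (ft φ) := by
    obtain ⟨D, hD⟩ := ht.bd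
    exact integrable_of_decay hε hcont (fun x => (hD x).2)
  have hreal : (fun x => (((ft φ x).re : ℝ) : ℂ)) = ft φ := by
    funext x
    apply Complex.ext
    · simp
    · simp [him x]
  have hft : ∀ y, ft (fun x => (ft φ x).re) y = φ y := by
    intro y
    have h1 : ft (fun x => (ft φ x).re) y = 𝓕 (ft φ) y := by
      unfold ft at hreal ⊢
      rw [hreal]
    have hinv : 𝓕⁻ (𝓕 (fun x : E d => (φ x : ℂ))) (-y) = (φ (-y) : ℂ) := by
      apply MeasureTheory.Integrable.fourierInv_fourier_eq hint.ofReal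
      · exact hint2
      · exact (Complex.continuous_ofReal.comp hc).continuousAt
    have h2 : 𝓕⁻ (ft φ) (-y) = 𝓕 (ft φ) y := by
      rw [Real.fourierInv_eq_fourier_neg, neg_neg]
    rw [h1, ← h2]
    have h3 : 𝓕⁻ (ft φ) (-y) = (φ (-y) : ℂ) := hinv
    rw [h3, hev]
  refine ⟨⟨Complex.continuous_re.comp hcont, fun y => ?_, ?_⟩, hft⟩
  · rw [hft]
    simp
  · obtain ⟨D, hD⟩ := ht.bd
    refine ⟨D, fun x => ⟨?_, ?_⟩⟩
    · exact (Complex.abs_re_le_norm _).trans (hD x).2
    · rw [hft, Complex.norm_real, Real.norm_eq_abs]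
      exact (hD x).1

theorem functionalStmt (h1 : SlaterStmt) (h2 : RelaxStmt) : FunctionalStmt := by
  intro d α f ε r₀ δ hS
  have hε := hS.hε
  have hr₀ := hS.hr₀
  have hδ := hS.hδ
  have hα := hS.hα
  have hadm : Admissible d α f := hS.opt.1
  -- the two functions of the slackness condition
  obtain ⟨Cp, hCp0, hCp⟩ := Functional_gauss_le (d := d) hα ε
  obtain ⟨Cf, hCf⟩ := hS.test.bd
  let P : Y d ε := ⟨fun x => Real.exp (-α * ‖x‖ ^ 2) - f x, Cp + Cf, fun x => by
    rw [add_mul]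
    refine (abs_sub _ _).trans (add_le_add ?_ (hCf x).1)
    rw [abs_of_pos (Real.exp_pos _)]
    exact hCp x⟩
  let Q : Y d ε := ⟨fun y => (ft f y).re, Cf, fun y =>
    (Complex.abs_re_le_norm _).trans (hCf y).2⟩
  -- the linear maps
  let V := TS d ε hε × ℝ × Y d ε × Y d ε
  let πh : V →ₗ[ℝ] TS d ε hε := LinearMap.fst ℝ _ _
  let πc : V →ₗ[ℝ] ℝ := (LinearMap.fst ℝ _ _).comp (LinearMap.snd ℝ _ _)
  let πq : V →ₗ[ℝ] Y d ε × Y d ε := (LinearMap.snd ℝ _ _).comp (LinearMap.snd ℝ _ _)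
  let π1 : V →ₗ[ℝ] Y d ε := (LinearMap.fst ℝ _ _).comp πq
  let π2 : V →ₗ[ℝ] Y d ε := (LinearMap.snd ℝ _ _).comp πq
  let A : V →ₗ[ℝ] (E d → ℝ) := (TS d ε hε).subtype.comp πh + πc.smulRight P.1
    + (Y d ε).subtype.comp π1
  let B : V →ₗ[ℝ] (E d → ℝ) := -(ftL d ε hε).comp πh + πc.smulRight Q.1
    + (Y d ε).subtype.comp π2
  have hA : ∀ (h : TS d ε hε) (c : ℝ) (q₁ q₂ : Y d ε) (x : E d),
      A (h, c, q₁, q₂) x = h.1 x + c * P.1 x + q₁.1 x := fun h c q₁ q₂ x => rfl
  have hB : ∀ (h : TS d ε hε) (c : ℝ) (q₁ q₂ : Y d ε) (y : E d),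
      B (h, c, q₁, q₂) y = -(ft h.1 y).re + c * Q.1 y + q₂.1 y := fun h c q₁ q₂ y => rfl
  let K : PointedCone ℝ V :=
    { carrier := {v | (∀ x, r₀ ≤ ‖x‖ → 0 ≤ A v x) ∧ ∀ y, δ ≤ ‖y‖ → 0 ≤ B v y}
      zero_mem' := by
        refine ⟨fun x _ => ?_, fun y _ => ?_⟩
        · rw [map_zero]
          exact le_rfl
        · rw [map_zero]
          exact le_rfl
      smul_mem' := by
        rintro ⟨c, hc⟩ v ⟨hv1, hv2⟩
        refine ⟨fun x hx => ?_, fun y hy => ?_⟩
        · have h3 : A ((⟨c, hc⟩ : {c : ℝ // 0 ≤ c}) • v) = c • A v := map_smul A c v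
          rw [h3, Pi.smul_apply, smul_eq_mul]
          exact mul_nonneg hc (hv1 x hx)
        · have h3 : B ((⟨c, hc⟩ : {c : ℝ // 0 ≤ c}) • v) = c • B v := map_smul B c v
          rw [h3, Pi.smul_apply, smul_eq_mul]
          exact mul_nonneg hc (hv2 y hy)
      add_mem' := by
        rintro v w ⟨hv1, hv2⟩ ⟨hw1, hw2⟩
        refine ⟨fun x hx => ?_, fun y hy => ?_⟩
        · rw [map_add, Pi.add_apply]
          exact add_nonneg (hv1 x hx) (hw1 x hx)
        · rw [map_add, Pi.add_apply]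
          exact add_nonneg (hv2 y hy) (hw2 y hy) }
  have hK : ∀ v : V, v ∈ K ↔ (∀ x, r₀ ≤ ‖x‖ → 0 ≤ A v x) ∧ ∀ y, δ ≤ ‖y‖ → 0 ≤ B v y :=
    fun v => Iff.rfl
  let F : V →ₗ.[ℝ] ℝ := ⟨LinearMap.ker πq, ((valL d ε hε).comp πh).domRestrict _⟩
  have hF : ∀ x : F.domain, F x = value x.1.1.1 := fun x => rfl
  obtain ⟨G, hG1, hG2⟩ := riesz_extension K F (by
    rintro ⟨⟨h, c, q₁, q₂⟩, hv⟩ hvK
    rw [hF]
    have hq : (q₁, q₂) = (0 : Y d ε × Y d ε) := hv
    have hq1 : q₁ = 0 := congrArg Prod.fst hq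
    have hq2 : q₂ = 0 := congrArg Prod.snd hq
    subst hq1
    subst hq2
    obtain ⟨hv1, hv2⟩ := (hK _).mp hvK
    have hneg : Test d ε (-h.1) := (TS d ε hε).neg_mem h.2
    have hftn : ∀ y, ft (-h.1) y = - ft h.1 y := by
      intro y
      have h3 := Functional_ft_smul (Test.integrable hε h.2) (-1) y
      have h4 : ((-1 : ℝ) • h.1) = -h.1 := by
        funext x
        simp
      rw [h4] at h3
      rw [h3]
      simp
    have h3 := h2 d α f ε r₀ δ hS (-h.1) c hneg (by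
      intro x hx
      have h4 := hv1 x hx
      have h5 : A (h, c, 0, 0) x = h.1 x + c * (Real.exp (-α * ‖x‖ ^ 2) - f x) + 0 := rfl
      rw [h5] at h4
      rw [Pi.neg_apply]
      linarith) (by
      intro y hy
      have h4 := hv2 y hy
      have h5 : B (h, c, 0, 0) y = -(ft h.1 y).re + c * (ft f y).re + 0 := rfl
      rw [h5] at h4
      rw [hftn, Complex.neg_re]
      linarith)
    have h6 : value (-h.1) = - value h.1 := by
      unfold value
      rw [hftn]
      simp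
      ring
    rw [h6] at h3
    change 0 ≤ value h.1
    linarith) (by
    rintro ⟨h₀, c₀, q₁, q₂⟩
    obtain ⟨φA, hA1, hA2, hA3, hA4, cA, CA, hA5, hA6⟩ := h1 d ε r₀ hε hr₀
    obtain ⟨φB, hB1, hB2, hB3, hB4, cB, CB, hB5, hB6⟩ := h1 d ε δ hε hδ
    have htA := Functional_test_slater hr₀ hA1 hA2 hA4 hA5 hA6
    obtain ⟨htB, hftB⟩ := Functional_test_dual hε hδ hB1 hB2 hB3 hB4 hB5 hB6
    obtain ⟨Ch, hCh⟩ := h₀.2.bd
    obtain ⟨CP, hCP⟩ := P.2
    obtain ⟨CQ, hCQ⟩ := Q.2
    obtain ⟨C1, hC1⟩ := q₁.2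
    obtain ⟨C2, hC2⟩ := q₂.2
    set M : ℝ := |Ch| + |c₀| * |CP| + |C1| + |c₀| * |CQ| + |C2| with hM
    have hM0 : 0 ≤ M := by positivity
    set N : ℝ := M / cA + M / cB with hN
    have hNA : M ≤ N * cA := by
      rw [hN, add_mul, div_mul_cancel₀ _ hA5.ne']
      have : 0 ≤ M / cB * cA := by positivity
      linarith
    have hNB : M ≤ N * cB := by
      rw [hN, add_mul, div_mul_cancel₀ _ hB5.ne']
      have : 0 ≤ M / cA * cB := by positivity
      linarith
    have hN0 : 0 ≤ N := by positivity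
    let gA : TS d ε hε := ⟨φA, htA⟩
    let gB : TS d ε hε := ⟨fun x => (ft φB x).re, htB⟩
    let k : TS d ε hε := N • gB - N • gA
    have hk1 : ∀ x, k.1 x = N * (ft φB x).re - N * φA x := fun x => rfl
    have hk2 : ∀ y, (ft k.1 y).re = N * φB y - N * (ft φA y).re := by
      intro y
      have h3 : ftL d ε hε k = N • ftL d ε hε gB - N • ftL d ε hε gA := by
        simp only [k, map_sub, map_smul]
      have h4 := congrFun h3 y
      have h5 : ftL d ε hε k y = (ft k.1 y).re := rfl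
      have h6 : (N • ftL d ε hε gB - N • ftL d ε hε gA) y
          = N * (ft (fun x => (ft φB x).re) y).re - N * (ft φA y).re := rfl
      rw [h5, h6, hftB] at h4
      simpa using h4
    refine ⟨⟨(k, 0, 0, 0), rfl⟩, ?_⟩
    have hsum : (((⟨(k, 0, 0, 0), rfl⟩ : F.domain) : V) + (h₀, c₀, q₁, q₂))
        = (k + h₀, 0 + c₀, 0 + q₁, 0 + q₂) := rfl
    rw [hsum, hK]
    have hle : ∀ (a C w : ℝ), 0 ≤ w → |a| ≤ C * w → -(|C| * w) ≤ a := by
      intro a C w hw ha
      have h3 : C * w ≤ |C| * w := mul_le_mul_of_nonneg_right (le_abs_self C) hw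
      have h4 := neg_abs_le a
      linarith
    refine ⟨fun x hx => ?_, fun y hy => ?_⟩
    · have hw := Functional_wt_pos ε x
      have e1 : A (k + h₀, 0 + c₀, 0 + q₁, 0 + q₂) x
          = (k.1 x + h₀.1 x) + (0 + c₀) * P.1 x + (0 + q₁.1 x) := rfl
      rw [e1, hk1, hA2 x hx, zero_add, zero_add, mul_zero, sub_zero]
      have b1 := hle _ _ _ hw.le (hCh x).1
      have b2 : -(|c₀| * |CP| * wt d ε x) ≤ c₀ * P.1 x := by
        have h3 : |c₀ * P.1 x| ≤ |c₀| * |CP| * wt d ε x := by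
          rw [abs_mul, mul_assoc]
          exact mul_le_mul_of_nonneg_left ((hCP x).trans
            (mul_le_mul_of_nonneg_right (le_abs_self CP) hw.le)) (abs_nonneg _)
        have h4 := neg_abs_le (c₀ * P.1 x)
        linarith
      have b3 := hle _ _ _ hw.le (hC1 x)
      have b4 : M * wt d ε x ≤ N * (ft φB x).re := by
        calc M * wt d ε x ≤ (N * cB) * wt d ε x := mul_le_mul_of_nonneg_right hNB hw.le
          _ = N * (cB * wt d ε x) := by ring
          _ ≤ _ := mul_le_mul_of_nonneg_left (hB6 x).1 hN0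
      have b5 : 0 ≤ |c₀| * |CQ| * wt d ε x := by positivity
      have b6 : 0 ≤ |C2| * wt d ε x := by positivity
      rw [hM] at b4
      nlinarith
    · have hw := Functional_wt_pos ε y
      have e1 : B (k + h₀, 0 + c₀, 0 + q₁, 0 + q₂) y
          = -(ft (k.1 + h₀.1) y).re + (0 + c₀) * Q.1 y + (0 + q₂.1 y) := rfl
      rw [e1, Functional_ft_add (Test.integrable hε k.2) (Test.integrable hε h₀.2),
        Complex.add_re, hk2, hB2 y hy, zero_add, zero_add, mul_zero, zero_sub]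
      have b1 : (ft h₀.1 y).re ≤ |Ch| * wt d ε y := by
        calc (ft h₀.1 y).re ≤ |(ft h₀.1 y).re| := le_abs_self _
          _ ≤ ‖ft h₀.1 y‖ := Complex.abs_re_le_norm _
          _ ≤ Ch * wt d ε y := (hCh y).2
          _ ≤ _ := mul_le_mul_of_nonneg_right (le_abs_self Ch) hw.le
      have b2 : -(|c₀| * |CQ| * wt d ε y) ≤ c₀ * Q.1 y := by
        have h3 : |c₀ * Q.1 y| ≤ |c₀| * |CQ| * wt d ε y := by
          rw [abs_mul, mul_assoc]
          exact mul_le_mul_of_nonneg_left ((hCQ y).trans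
            (mul_le_mul_of_nonneg_right (le_abs_self CQ) hw.le)) (abs_nonneg _)
        have h4 := neg_abs_le (c₀ * Q.1 y)
        linarith
      have b3 := hle _ _ _ hw.le (hC2 y)
      have b4 : M * wt d ε y ≤ N * (ft φA y).re := by
        calc M * wt d ε y ≤ (N * cA) * wt d ε y := mul_le_mul_of_nonneg_right hNA hw.le
          _ = N * (cA * wt d ε y) := by ring
          _ ≤ _ := mul_le_mul_of_nonneg_left (hA6 y).1 hN0
      have b5 : 0 ≤ |c₀| * |CP| * wt d ε y := by positivity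
      have b6 : 0 ≤ |C1| * wt d ε y := by positivity
      rw [hM] at b4
      nlinarith)
  -- consequences
  have hzero : ∀ v : V, A v = 0 → B v = 0 → G v = 0 := by
    intro v hvA hvB
    have p1 : 0 ≤ G v := hG2 v ((hK v).mpr ⟨fun x _ => by rw [hvA]; exact le_rfl,
      fun y _ => by rw [hvB]; exact le_rfl⟩)
    have p2 : 0 ≤ G (-v) := hG2 (-v) ((hK _).mpr ⟨fun x _ => by
      rw [map_neg, hvA, neg_zero]; exact le_rfl, fun y _ => by
      rw [map_neg, hvB, neg_zero]; exact le_rfl⟩)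
    rw [map_neg] at p2
    linarith
  let l₁ : Y d ε →ₗ[ℝ] ℝ := G.comp ((LinearMap.inr ℝ _ _).comp ((LinearMap.inr ℝ _ _).comp
    (LinearMap.inl ℝ _ _)))
  let l₂ : Y d ε →ₗ[ℝ] ℝ := G.comp ((LinearMap.inr ℝ _ _).comp ((LinearMap.inr ℝ _ _).comp
    (LinearMap.inr ℝ _ _)))
  have hl₁ : ∀ q, l₁ q = G (0, 0, q, 0) := fun q => rfl
  have hl₂ : ∀ q, l₂ q = G (0, 0, 0, q) := fun q => rfl
  have hGdec : ∀ (h : TS d ε hε) (c : ℝ) (q₁ q₂ : Y d ε),
      G (h, c, q₁, q₂) = value h.1 + l₁ q₁ + l₂ q₂ := by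
    intro h c q₁ q₂
    have h3 : ((h, c, q₁, q₂) : V) = (h, c, 0, 0) + (0, 0, q₁, 0) + (0, 0, 0, q₂) := by
      simp
    have h4 := hG1 ⟨(h, c, 0, 0), rfl⟩
    rw [hF] at h4
    rw [h3, map_add, map_add, hl₁, hl₂]
    congr 2
  have pos₁ : ∀ q : Y d ε, (∀ x, r₀ ≤ ‖x‖ → 0 ≤ q.1 x) → 0 ≤ l₁ q := by
    intro q hq
    rw [hl₁]
    apply hG2
    rw [hK]
    refine ⟨fun x hx => ?_, fun y hy => ?_⟩
    · rw [hA]
      have := hq x hx
      simpa using this
    · rw [hB]
      have h3 : ft ((0 : TS d ε hε) : E d → ℝ) y = 0 := Functional_ft_zero y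
      rw [h3]
      simp
  have pos₂ : ∀ q : Y d ε, (∀ y, δ ≤ ‖y‖ → 0 ≤ q.1 y) → 0 ≤ l₂ q := by
    intro q hq
    rw [hl₂]
    apply hG2
    rw [hK]
    refine ⟨fun x hx => ?_, fun y hy => ?_⟩
    · rw [hA]
      simp
    · rw [hB]
      have h3 : ft ((0 : TS d ε hε) : E d → ℝ) y = 0 := Functional_ft_zero y
      rw [h3]
      have := hq y hy
      simpa using this
  have hslack : l₁ P = 0 ∧ l₂ Q = 0 := by
    have h3 := hzero (0, 1, -P, -Q) (by
      funext x
      rw [hA]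
      simp) (by
      funext y
      rw [hB]
      have h3 : ft ((0 : TS d ε hε) : E d → ℝ) y = 0 := Functional_ft_zero y
      rw [h3]
      simp)
    rw [hGdec] at h3
    have h4 : value ((0 : TS d ε hε) : E d → ℝ) = 0 := by
      have h5 : ft ((0 : TS d ε hε) : E d → ℝ) (0 : E d) = 0 := Functional_ft_zero 0
      unfold value
      rw [h5]
      simp
    rw [h4, map_neg, map_neg] at h3
    have h5 : 0 ≤ l₁ P := pos₁ P (by
      intro x hx
      have hx0 : x ≠ 0 := by
        rintro rfl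
        rw [norm_zero] at hx
        linarith
      have := hadm.le_gauss x hx0
      change 0 ≤ Real.exp (-α * ‖x‖ ^ 2) - f x
      linarith)
    have h6 : 0 ≤ l₂ Q := pos₂ Q (fun y _ => (hadm.ft_nonneg y).2)
    constructor <;> linarith
  refine ⟨l₁, l₂, pos₁, pos₂, ?_, ?_, ?_⟩
  · intro h hh q₁ q₂ hq₁ hq₂
    have h3 := hzero (⟨h, hh⟩, 0, -q₁, q₂) (by
      funext x
      rw [hA]
      have := hq₁ x
      simp [this]) (by
      funext y
      rw [hB]
      have := hq₂ y
      simp [this])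
    rw [hGdec, map_neg] at h3
    have h4 : value ((⟨h, hh⟩ : TS d ε hε) : E d → ℝ) = value h := rfl
    rw [h4] at h3
    linarith
  · intro q hq
    have h3 : q = P := Subtype.ext (funext hq)
    rw [h3]
    exact hslack.1
  · intro q hq
    have h3 : q = Q := Subtype.ext (funext hq)
    rw [h3]
    exact hslack.2

end Pool.Agent.Lib.MP_adb5ad_gt
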