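import Pool.Agent.Lib.MP_adb5ad_gt.CDefs

open MeasureTheory FourierTransform Real Filter Topology Set

noncomputable section

namespace Pool.Agent.Lib.MP_adb5ad_gt

theorem tonelli_complex (G : ℂ → ENNReal) (hG : Measurable G) {A B : Set ℝ}
    (hA : MeasurableSet A) (hB : MeasurableSet B) :
    ∫⁻ t in A, ∫⁻ v in B, G ((t : ℂ) + v * Complex.I) =
      ∫⁻ z in {z : ℂ | z.re ∈ A ∧ z.im ∈ B}, G z := by
  have e := Complex.volume_preserving_equiv_real_prod.symm
  have hS : MeasurableSet {z : ℂ | z.re ∈ A ∧ z.im ∈ B} :=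
    (Complex.measurable_re hA).inter (Complex.measurable_im hB)
  rw [← e.setLIntegral_comp_preimage hS hG]
  have hpre : Complex.measurableEquivRealProd.symm ⁻¹' {z : ℂ | z.re ∈ A ∧ z.im ∈ B} = A ×ˢ B := by
    ext p
    simp [Complex.measurableEquivRealProd_symm_apply]
  rw [hpre, Measure.volume_eq_prod, ← Measure.prod_restrict, lintegral_prod]
  · apply lintegral_congr
    intro t
    apply lintegral_congr
    intro v
    congr 1
    apply Complex.ext <;> simp [Complex.measurableEquivRealProd_symm_apply]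
  · exact (hG.comp Complex.measurableEquivRealProd.symm.measurable).aemeasurable

theorem det_mul_complex (a : ℂ) :
    ((ContinuousLinearMap.restrictScalars ℝ
      (ContinuousLinearMap.smulRight (1 : ℂ →L[ℂ] ℂ) a)) : ℂ →L[ℝ] ℂ).det = Complex.normSq a := by
  have h1 : ((ContinuousLinearMap.restrictScalars ℝ
      (ContinuousLinearMap.smulRight (1 : ℂ →L[ℂ] ℂ) a) : ℂ →L[ℝ] ℂ) : ℂ →ₗ[ℝ] ℂ) =
      Algebra.lmul ℝ ℂ a := by
    ext z <;> simp [mul_comm]
  rw [ContinuousLinearMap.det, h1, ← Algebra.norm_apply, Algebra.norm_complex_apply]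

theorem inversionStmt : InversionStmt := by
  intro g hg t₀ W ht₀ htW
  have hW : 0 < W := ht₀.trans_le htW
  set A : Set ℝ := Icc (t₀ / 2) t₀ with hA
  set B : Set ℝ := {v : ℝ | W ≤ |v| ∧ |v| ≤ 2 * W} with hB
  have hBm : MeasurableSet B := by
    have e1 : MeasurableSet {v : ℝ | W ≤ |v|} :=
      measurableSet_le measurable_const continuous_abs.measurable
    have e2 : MeasurableSet {v : ℝ | |v| ≤ 2 * W} :=
      measurableSet_le continuous_abs.measurable measurable_const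
    exact e1.inter e2
  have hg' : Measurable fun z : ℂ => g (1 / z) := hg.comp (by fun_prop)
  rw [tonelli_complex (fun z => g (1 / z)) hg' measurableSet_Icc hBm,
    tonelli_complex g hg measurableSet_Icc measurableSet_Icc]
  set S : Set ℂ := {z : ℂ | z.re ∈ A ∧ z.im ∈ B} with hS
  have hSm : MeasurableSet S :=
    (Complex.measurable_re measurableSet_Icc).inter (Complex.measurable_im hBm)
  set S' : Set ℂ := (fun z : ℂ => z⁻¹) ⁻¹' S with hS'
  have hS'm : MeasurableSet S' := measurable_inv hSm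
  have himg : (fun z : ℂ => z⁻¹) '' S' = S := by
    ext z
    constructor
    · rintro ⟨w, hw, rfl⟩
      exact hw
    · intro hz
      exact ⟨z⁻¹, by simpa [hS'] using hz, inv_inv z⟩
  have hne : ∀ w ∈ S', w ≠ 0 := by
    rintro w hw rfl
    have h1 : (0 : ℂ)⁻¹ ∈ S := hw
    rw [inv_zero] at h1
    have := h1.1.1
    simp at this
    linarith
  have hder : ∀ w ∈ S', HasFDerivWithinAt (fun z : ℂ => z⁻¹)
      ((ContinuousLinearMap.restrictScalars ℝ
        (ContinuousLinearMap.smulRight (1 : ℂ →L[ℂ] ℂ) (-(w ^ 2)⁻¹))) : ℂ →L[ℝ] ℂ) S' w := by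
    intro w hw
    exact ((hasDerivAt_inv (hne w hw)).hasFDerivAt.restrictScalars ℝ).hasFDerivWithinAt
  have key := lintegral_image_eq_lintegral_abs_det_fderiv_mul volume hS'm hder
    (inv_injective.injOn) (fun z => g (1 / z))
  rw [himg] at key
  rw [key]
  -- bound on S'
  have hbd : ∀ w ∈ S', w ∈ {z : ℂ | z.re ∈ Icc (t₀ / (10 * W ^ 2)) (t₀ / W ^ 2) ∧
      z.im ∈ Icc (-(2 / W)) (2 / W)} ∧
      |Complex.normSq (-(w ^ 2)⁻¹)| ≤ 25 * W ^ 4 := by
    intro w hw
    have hz : w⁻¹ ∈ S := hw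
    set z := w⁻¹ with hzdef
    have hwz : w = z⁻¹ := by rw [hzdef, inv_inv]
    obtain ⟨⟨h1, h2⟩, h3, h4⟩ := hz
    have hre : 0 < z.re := lt_of_lt_of_le (by positivity) h1
    have him2 : W ^ 2 ≤ z.im ^ 2 := by
      rw [← sq_abs z.im]
      exact pow_le_pow_left₀ hW.le h3 2
    have him3 : z.im ^ 2 ≤ (2 * W) ^ 2 := by
      rw [← sq_abs z.im]
      exact pow_le_pow_left₀ (abs_nonneg _) h4 2
    have hre2 : z.re ^ 2 ≤ W ^ 2 := pow_le_pow_left₀ hre.le (h2.trans htW) 2
    have hn : Complex.normSq z = z.re ^ 2 + z.im ^ 2 := by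
      rw [Complex.normSq_apply]
      ring
    have hn1 : W ^ 2 ≤ Complex.normSq z := by
      rw [hn]
      nlinarith [sq_nonneg z.re]
    have hn2 : Complex.normSq z ≤ 5 * W ^ 2 := by
      rw [hn]
      nlinarith
    have hnpos : 0 < Complex.normSq z := lt_of_lt_of_le (by positivity) hn1
    refine ⟨⟨⟨?_, ?_⟩, ⟨?_, ?_⟩⟩, ?_⟩
    · rw [hwz, Complex.inv_re, div_le_div_iff₀ (by positivity) hnpos]
      nlinarith [mul_le_mul h1 hn2 hnpos.le hre.le]
    · rw [hwz, Complex.inv_re, div_le_div_iff₀ hnpos (by positivity)]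
      exact mul_le_mul h2 hn1 (by positivity) (by positivity)
    · rw [hwz, Complex.inv_im, neg_le, ← neg_div, neg_neg, div_le_div_iff₀ hnpos hW]
      nlinarith [le_abs_self z.im, abs_nonneg z.im]
    · rw [hwz, Complex.inv_im, div_le_div_iff₀ hnpos hW]
      nlinarith [neg_abs_le z.im, abs_nonneg z.im]
    · have e1 : -(w ^ 2)⁻¹ = -(z ^ 2) := by
        rw [hwz]
        simp
      rw [e1, Complex.normSq_neg, map_pow, abs_of_nonneg (by positivity)]
      calc Complex.normSq z ^ 2 ≤ (5 * W ^ 2) ^ 2 := pow_le_pow_left₀ hnpos.le hn2 2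
        _ = 25 * W ^ 4 := by ring
  calc ∫⁻ w in S', ENNReal.ofReal |((ContinuousLinearMap.restrictScalars ℝ
        (ContinuousLinearMap.smulRight (1 : ℂ →L[ℂ] ℂ) (-(w ^ 2)⁻¹))) : ℂ →L[ℝ] ℂ).det| *
          g (1 / w⁻¹) ≤ ∫⁻ w in S', ENNReal.ofReal (25 * W ^ 4) * g w := by
        apply setLIntegral_mono' hS'm
        intro w hw
        rw [det_mul_complex, one_div, inv_inv]
        exact mul_le_mul_left (ENNReal.ofReal_le_ofReal (hbd w hw).2) _
    _ ≤ ∫⁻ w in {z : ℂ | z.re ∈ Icc (t₀ / (10 * W ^ 2)) (t₀ / W ^ 2) ∧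
      z.im ∈ Icc (-(2 / W)) (2 / W)}, ENNReal.ofReal (25 * W ^ 4) * g w :=
        lintegral_mono_set fun w hw => (hbd w hw).1
    _ = _ := by rw [lintegral_const_mul' _ _ ENNReal.ofReal_ne_top]

end Pool.Agent.Lib.MP_adb5ad_gt
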