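import Pool.Agent.Lib.MP_adb5ad_gt.CDefs

open MeasureTheory FourierTransform Real Filter Topology Set

noncomputable section

namespace Pool.Agent.Lib.MP_adb5ad_gt

/-- The real Laplace transform. -/
def LTr (μ : Measure ℝ) (t : ℝ) : ℝ := ∫ x, Real.exp (-π * t * x) ∂μ

theorem LT_real (μ : Measure ℝ) (t : ℝ) : LT μ (t : ℂ) = (LTr μ t : ℂ) := by
  unfold LT LTr
  rw [← integral_complex_ofReal]
  congr 1
  ext x
  push_cast
  rfl

theorem norm_LT_le (μ : Measure ℝ) (t v : ℝ) : ‖LT μ (t + v * Complex.I)‖ ≤ LTr μ t := by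
  unfold LT LTr
  refine (norm_integral_le_integral_norm _).trans (le_of_eq ?_)
  congr 1
  ext x
  rw [Complex.norm_exp]
  congr 1
  simp

theorem LTr_integrable {μ : Measure ℝ}
    (hμ : ∀ t : ℝ, 0 < t → Integrable (fun x => Real.exp (-t * x)) μ) {t : ℝ} (ht : 0 < t) :
    Integrable (fun x => Real.exp (-π * t * x)) μ := by
  have := hμ (π * t) (by positivity)
  simpa [neg_mul] using this

theorem ae_nonneg {μ : Measure ℝ} (h : μ (Iio 0) = 0) : ∀ᵐ x ∂μ, 0 ≤ x := by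
  rw [ae_iff]
  simp only [not_le]
  exact h

theorem LTr_anti {μ : Measure ℝ} (h0 : μ (Iio 0) = 0)
    (hμ : ∀ t : ℝ, 0 < t → Integrable (fun x => Real.exp (-t * x)) μ) {s t : ℝ} (hs : 0 < s)
    (hst : s ≤ t) : LTr μ t ≤ LTr μ s := by
  unfold LTr
  apply integral_mono_ae (LTr_integrable hμ (hs.trans_le hst)) (LTr_integrable hμ hs)
  filter_upwards [ae_nonneg h0] with x hx
  apply Real.exp_le_exp.2
  have : 0 ≤ π * x := by positivity
  nlinarith

theorem LTr_nonneg (μ : Measure ℝ) (t : ℝ) : 0 ≤ LTr μ t :=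
  integral_nonneg fun _ => (Real.exp_pos _).le

variable {k : ℝ} {μ ν : Measure ℝ}

theorem ThetaPair.symm (h : ThetaPair k μ ν) : ThetaPair k ν μ :=
  ⟨h.neg₂, h.neg₁, h.int₂, h.int₁, h.one₂, h.one₁, h.fe₂, h.fe₁⟩

theorem ThetaPair.one_le (h : ThetaPair k μ ν) {t : ℝ} (ht : 0 < t) : 1 ≤ LTr μ t := by
  have := h.one₁ (π * t) (by positivity)
  unfold LTr
  simpa [neg_mul] using this

theorem ThetaPair.LTr_fe (h : ThetaPair k μ ν) {t : ℝ} (ht : 0 < t) :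
    LTr μ t = t ^ (-k) * LTr ν (1 / t) := by
  have h1 := h.fe₁ (t : ℂ) (by simpa using ht)
  have h2 : (1 : ℂ) / (t : ℂ) = ((1 / t : ℝ) : ℂ) := by push_cast; rfl
  rw [h2, LT_real, LT_real, ← Complex.ofReal_neg, ← Complex.ofReal_cpow ht.le] at h1
  exact_mod_cast h1

theorem ThetaPair.LTr_ge (h : ThetaPair k μ ν) {t : ℝ} (ht : 0 < t) : t ^ (-k) ≤ LTr μ t := by
  rw [h.LTr_fe ht]
  have h1 := h.symm.one_le (t := 1 / t) (by positivity)
  have h2 : 0 < t ^ (-k) := by positivity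
  nlinarith

theorem ThetaPair.LTr_le (h : ThetaPair k μ ν) {t : ℝ} (ht : 0 < t) (ht1 : t ≤ 1) :
    LTr μ t ≤ LTr ν 1 * t ^ (-k) := by
  rw [h.LTr_fe ht, mul_comm]
  apply mul_le_mul_of_nonneg_right _ (by positivity)
  apply LTr_anti h.neg₂ h.int₂ one_pos
  rw [le_div_iff₀ ht]
  linarith

theorem lintegral_gauss : ∫⁻ v : ℝ, ENNReal.ofReal (Real.exp (-π * v ^ 2)) = 1 := by
  rw [← ofReal_integral_eq_lintegral_ofReal (integrable_exp_neg_mul_sq Real.pi_pos)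
    (ae_of_all _ fun x => (Real.exp_pos _).le), integral_gaussian]
  rw [div_self Real.pi_ne_zero]
  simp

theorem msq_le (μ : Measure ℝ) (t : ℝ) : msq μ t ≤ ENNReal.ofReal (LTr μ t ^ 2) := by
  unfold msq
  calc ∫⁻ v : ℝ, ENNReal.ofReal (‖LT μ (t + v * Complex.I)‖ ^ 2 * Real.exp (-π * v ^ 2))
      ≤ ∫⁻ v : ℝ, ENNReal.ofReal (LTr μ t ^ 2) * ENNReal.ofReal (Real.exp (-π * v ^ 2)) := by
        apply lintegral_mono
        intro v
        simp only
        rw [← ENNReal.ofReal_mul (by positivity)]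
        apply ENNReal.ofReal_le_ofReal
        apply mul_le_mul_of_nonneg_right _ (Real.exp_pos _).le
        exact pow_le_pow_left₀ (norm_nonneg _) (norm_LT_le μ t v) 2
    _ = ENNReal.ofReal (LTr μ t ^ 2) := by
        rw [lintegral_const_mul' _ _ ENNReal.ofReal_ne_top, lintegral_gauss, mul_one]

theorem msq_ne_top (μ : Measure ℝ) (t : ℝ) : msq μ t ≠ ⊤ :=
  ne_top_of_le_ne_top ENNReal.ofReal_ne_top (msq_le μ t)

theorem ThetaPair.msq_apriori (h : ThetaPair k μ ν) {t : ℝ} (ht : 0 < t) (ht1 : t ≤ 1) :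
    msq μ t ≤ ENNReal.ofReal ((LTr ν 1) ^ 2 / t * t ^ (1 - 2 * k)) := by
  refine (msq_le μ t).trans (ENNReal.ofReal_le_ofReal ?_)
  have h1 := h.LTr_le ht ht1
  calc LTr μ t ^ 2 ≤ (LTr ν 1 * t ^ (-k)) ^ 2 :=
        pow_le_pow_left₀ (LTr_nonneg μ t) h1 2
    _ = (LTr ν 1) ^ 2 / t * t ^ (1 - 2 * k) := by
        rw [mul_pow, ← Real.rpow_natCast (t ^ (-k)) 2, ← Real.rpow_mul ht.le, div_eq_mul_inv,
          ← Real.rpow_neg_one t, mul_assoc, ← Real.rpow_add ht]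
        congr 2
        push_cast
        ring

end Pool.Agent.Lib.MP_adb5ad_gt
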