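import Pool.Agent.Lib.MP_adb5ad_gt.LTBasic

open MeasureTheory FourierTransform Real Filter Topology Set

noncomputable section

namespace Pool.Agent.Lib.MP_adb5ad_gt

theorem sfinite_of {μ : Measure ℝ} (h : Integrable (fun x => Real.exp (-1 * x)) μ) :
    SFinite μ := by
  set g : ℝ → ENNReal := fun x => ENNReal.ofReal (Real.exp (-1 * x)) with hg
  have hgm : Measurable g := by fun_prop
  have hfin : IsFiniteMeasure (μ.withDensity g) := by
    refine ⟨?_⟩
    rw [withDensity_apply _ MeasurableSet.univ, Measure.restrict_univ]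
    exact h.lintegral_lt_top
  have h1 : (μ.withDensity g).withDensity g⁻¹ = μ := by
    apply withDensity_inv_same hgm
    · exact ae_of_all _ fun x => by
        simp only [hg]
        exact (ENNReal.ofReal_pos.2 (Real.exp_pos _)).ne'
    · exact ae_of_all _ fun x => ENNReal.ofReal_ne_top
  rw [← h1]
  infer_instance

theorem measurable_LT {μ : Measure ℝ} [SFinite μ] : Measurable (LT μ) := by
  have : StronglyMeasurable (fun z : ℂ => ∫ x : ℝ, Complex.exp (-(π : ℂ) * z * x) ∂μ) := by
    apply StronglyMeasurable.integral_prod_right (f := fun (z : ℂ) (x : ℝ) =>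
      Complex.exp (-(π : ℂ) * z * x))
    apply Continuous.stronglyMeasurable
    fun_prop
  exact this.measurable

theorem ThetaPair.sfinite₁ {k : ℝ} {μ ν : Measure ℝ} (h : ThetaPair k μ ν) : SFinite μ :=
  sfinite_of (h.int₁ 1 one_pos)

theorem ThetaPair.sfinite₂ {k : ℝ} {μ ν : Measure ℝ} (h : ThetaPair k μ ν) : SFinite ν :=
  sfinite_of (h.int₂ 1 one_pos)

end Pool.Agent.Lib.MP_adb5ad_gt
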