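import Pool.Agent.Lib.MP_adb5ad_gt.Basic

open MeasureTheory FourierTransform Real Filter Topology

noncomputable section

namespace Pool.Agent.Lib.MP_adb5ad_gt

variable {d : ℕ}

theorem contact_gap (hS : SphereStmt) (hB : BumpStmt) (hA : AverageStmt) (hD : DualStmt)
    (hd : 2 ≤ d) {α : ℝ} (hα : 0 < α) {f : E d → ℝ} (hf : IsOptimal d α f) {ρ : ℝ}
    (hρ : 0 < ρ) :
    ∃ s₀ : ℝ, ∀ s : ℝ, s₀ ≤ s → ∃ x : E d, s ≤ ‖x‖ ∧ ‖x‖ ≤ s + ρ ∧
      f x = Real.exp (-α * ‖x‖ ^ 2) := by
  have hf0 : f 0 < 1 := zero_lt_one' hB hD (by omega) hα hf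
  have hAf : 0 < (ft f 0).re := ft_zero_pos hB (by omega) hα hf
  have hgc : Continuous (fun x : E d => Real.exp (-α * ‖x‖ ^ 2) - f x) := by
    have := hf.1.cont
    fun_prop
  obtain ⟨r₀, hr₀, hr⟩ : ∃ r₀ > 0, ∀ x : E d, ‖x‖ ≤ r₀ → 0 < Real.exp (-α * ‖x‖ ^ 2) - f x := by
    have h1 : ∀ᶠ x in 𝓝 (0 : E d), 0 < Real.exp (-α * ‖x‖ ^ 2) - f x := by
      apply hgc.continuousAt.eventually_const_lt
      simpa using hf0
    obtain ⟨r₁, hr₁, h2⟩ := Metric.eventually_nhds_iff_ball.1 h1
    refine ⟨r₁ / 2, by positivity, fun x hx => h2 x ?_⟩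
    simp only [Metric.mem_ball, dist_zero_right]
    linarith
  have hftc : Continuous (fun y => (ft f y).re) :=
    Complex.continuous_re.comp (ft_continuous hf.1.integrable)
  obtain ⟨δ, hδ, hδ2⟩ : ∃ δ > 0, ∀ y : E d, ‖y‖ < δ → (ft f 0).re / 2 < (ft f y).re := by
    have h1 : ∀ᶠ y in 𝓝 (0 : E d), (ft f 0).re / 2 < (ft f y).re := by
      apply hftc.continuousAt.eventually_const_lt
      linarith
    obtain ⟨r₁, hr₁, h2⟩ := Metric.eventually_nhds_iff_ball.1 h1
    exact ⟨r₁, hr₁, fun y hy => h2 y (by simpa using hy)⟩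
  set r := min r₀ (ρ / 2) with hrdef
  have hrpos : 0 < r := by positivity
  have hrr : r ≤ r₀ := min_le_left _ _
  have hrρ : 2 * r ≤ ρ := by
    have := min_le_right r₀ (ρ / 2)
    linarith
  obtain ⟨φ, hφc, hφ0, hφft, hφdec, I, hI1, hI0, hI2, hφI⟩ := hB d r hrpos
  obtain ⟨μ, hμ, hμ1, hμim, hμdec⟩ := hS d hd
  set A := (ft φ 0).re with hAdef
  have hApos : 0 < A := by
    rw [hI2]
    positivity
  set η := A / (2 * (|φ 0| + 1)) with hηdef
  have hηpos : 0 < η := by positivity
  have hηφ : η * φ 0 ≤ A / 2 := by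
    calc η * φ 0 ≤ η * (|φ 0| + 1) := by
          apply mul_le_mul_of_nonneg_left _ hηpos.le
          linarith [le_abs_self (φ 0)]
      _ = A / 2 := by
          rw [hηdef]
          field_simp
  obtain ⟨t, ht, hJ⟩ := hμdec η hηpos
  refine ⟨t / δ, fun s hs => ?_⟩
  by_contra hcon
  push Not at hcon
  have hspos : 0 < s := lt_of_lt_of_le (by positivity) hs
  obtain ⟨h, hhc, hh1, hh2, hhft⟩ := hA d μ hμ hμ1 φ r hrpos hφc hφ0 (s + r) (by positivity)
  set J : E d → ℂ := fun y =>
    ∫ u, Complex.exp ((-2 * π * (inner ℝ u ((s + r) • y) : ℝ) : ℝ) * Complex.I) ∂μ with hJdef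
  have hJim : ∀ y, (J y).im = 0 := fun y => hμim _
  have hJ1 : ∀ y, ‖J y‖ ≤ 1 := by
    intro y
    rw [hJdef]
    refine (norm_integral_le_integral_norm _).trans ?_
    have : ∀ u : E d, ‖Complex.exp ((-2 * π * (inner ℝ u ((s + r) • y) : ℝ) : ℝ) * Complex.I)‖
        = 1 := fun u => Complex.norm_exp_ofReal_mul_I _
    simp_rw [this]
    simp
  have hJre : ∀ y, |(J y).re| ≤ ‖J y‖ := fun y => Complex.abs_re_le_norm _
  have hJ0 : J 0 = 1 := by
    rw [hJdef]
    simp
  have hJfar : ∀ y, δ ≤ ‖y‖ → -η ≤ (J y).re := by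
    intro y hy
    have h1 : ‖J y‖ ≤ η := by
      apply hJ
      rw [norm_smul, Real.norm_eq_abs, abs_of_pos (by positivity)]
      calc t = (t / δ) * δ := by field_simp
        _ ≤ (s + r) * ‖y‖ := by
          apply mul_le_mul (by linarith) hy hδ.le (by positivity)
    have h2 := (hJre y).trans h1
    exact (abs_le.1 h2).1
  -- the perturbation
  set k : E d → ℝ := fun x => h x + η * φ x with hk
  have hint_h : Integrable h := integrable_of_compact (R := s + r + r) (by positivity) hhc hh2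
  have hint_φ : Integrable φ := integrable_of_compact hrpos hφc hφ0
  have hkc : Continuous k := hhc.add (hφc.const_smul η)
  have hk0 : ∀ x, s + r + r ≤ ‖x‖ → k x = 0 := by
    intro x hx
    simp only [hk]
    rw [hh2 x hx, hφ0 x (by linarith)]
    simp
  have hkft : ∀ y, ft k y = ft φ y * (J y + η) := by
    intro y
    rw [hk, ft_add_mul hint_h hint_φ η y, hhft y]
    ring
  have hφreal : ∀ y, ft φ y = (((ft φ y).re : ℝ) : ℂ) := by
    intro y
    apply Complex.ext
    · simp
    · simp [(hφft y).1]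
  have hkre : ∀ y, (ft k y).re = (ft φ y).re * ((J y).re + η) := by
    intro y
    rw [hkft y, Complex.mul_re]
    simp [(hφft y).1]
  have hkim : ∀ y, (ft k y).im = 0 := by
    intro y
    rw [hkft y, Complex.mul_im]
    simp [(hφft y).1, hJim y]
  obtain ⟨C, hC⟩ := hφdec
  have hC0 : 0 ≤ C := by
    have := (norm_nonneg _).trans (hC 0)
    simpa using this
  have hnormJη : ∀ y, ‖J y + (η : ℂ)‖ ≤ 1 + η := by
    intro y
    refine (norm_add_le _ _).trans ?_
    rw [Complex.norm_real, Real.norm_eq_abs, abs_of_pos hηpos]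
    linarith [hJ1 y]
  have hkdec : ∃ C : ℝ, ∀ x, ‖ft k x‖ ≤ C * (1 + ‖x‖) ^ (-(d : ℝ) - 1) := by
    refine ⟨C * (1 + η), fun x => ?_⟩
    rw [hkft x, norm_mul]
    calc ‖ft φ x‖ * ‖J x + (η : ℂ)‖ ≤ (C * (1 + ‖x‖) ^ (-(d : ℝ) - 1)) * (1 + η) := by
          apply mul_le_mul (hC x) (hnormJη x) (norm_nonneg _)
          positivity
      _ = _ := by ring
  have hφbd : ∀ y, (ft φ y).re ≤ C := by
    intro y
    have h1 : (ft φ y).re ≤ ‖ft φ y‖ := Complex.re_le_norm _
    have h2 : (1 + ‖y‖) ^ (-(d : ℝ) - 1) ≤ 1 := by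
      apply Real.rpow_le_one_of_one_le_of_nonpos
      · linarith [norm_nonneg y]
      · have : (0 : ℝ) ≤ d := Nat.cast_nonneg d
        linarith
    calc (ft φ y).re ≤ C * (1 + ‖y‖) ^ (-(d : ℝ) - 1) := h1.trans (hC y)
      _ ≤ C * 1 := mul_le_mul_of_nonneg_left h2 hC0
      _ = C := mul_one C
  have hkval : 0 < value k := by
    have h1 : h 0 = 0 := hh1 0 (by simp; linarith)
    unfold value
    rw [hkre 0, hJ0]
    simp only [hk, h1]
    rw [Complex.one_re]
    have : A * (1 + η) - (0 + η * φ 0) ≥ A / 2 := by nlinarith [mul_pos hApos hηpos]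
    linarith
  -- compact set where the perturbation lives
  set S : Set (E d) := Metric.closedBall 0 r ∪
    {x | s ≤ ‖x‖ ∧ ‖x‖ ≤ s + r + r} with hSdef
  have hScpt : IsCompact S := by
    apply (isCompact_closedBall _ _).union
    apply (isCompact_closedBall (0 : E d) (s + r + r)).of_isClosed_subset
    · exact (isClosed_le continuous_const continuous_norm).inter
        (isClosed_le continuous_norm continuous_const)
    · intro x hx
      simpa using hx.2
  have hSne : S.Nonempty := ⟨0, Or.inl (by simp [hrpos.le])⟩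
  have hSpos : ∀ x ∈ S, 0 < Real.exp (-α * ‖x‖ ^ 2) - f x := by
    intro x hx
    rcases hx with hx | hx
    · apply hr
      have : ‖x‖ ≤ r := by simpa using hx
      linarith
    · have hx0 : x ≠ 0 := by
        rintro rfl
        simp at hx
        linarith
      have h1 := hf.1.le_gauss x hx0
      have h2 := hcon x hx.1 (by linarith [hx.2])
      exact sub_pos.2 (lt_of_le_of_ne h1 h2)
  obtain ⟨x₀, hx₀S, hx₀⟩ := hScpt.exists_isMinOn hSne hgc.continuousOn
  set m := Real.exp (-α * ‖x₀‖ ^ 2) - f x₀ with hm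
  have hmpos : 0 < m := hSpos x₀ hx₀S
  obtain ⟨M, hM⟩ := hScpt.exists_bound_of_continuousOn hkc.continuousOn
  have hM0 : 0 ≤ M := (norm_nonneg _).trans (hM x₀ hx₀S)
  set ε := min (m / (M + 1)) ((ft f 0).re / (2 * (C * (1 + η) + 1))) with hεdef
  have hεpos : 0 < ε := by positivity
  have hε1 : ε * M ≤ m := by
    have h1 : ε ≤ m / (M + 1) := min_le_left _ _
    calc ε * M ≤ ε * (M + 1) := mul_le_mul_of_nonneg_left (by linarith) hεpos.le
      _ ≤ m / (M + 1) * (M + 1) := mul_le_mul_of_nonneg_right h1 (by positivity)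
      _ = m := by field_simp
  have hε2 : ε * (C * (1 + η)) ≤ (ft f 0).re / 2 := by
    have h1 : ε ≤ (ft f 0).re / (2 * (C * (1 + η) + 1)) := min_le_right _ _
    calc ε * (C * (1 + η)) ≤ ε * (C * (1 + η) + 1) :=
          mul_le_mul_of_nonneg_left (by linarith) hεpos.le
      _ ≤ (ft f 0).re / (2 * (C * (1 + η) + 1)) * (C * (1 + η) + 1) :=
          mul_le_mul_of_nonneg_right h1 (by positivity)
      _ = (ft f 0).re / 2 := by field_simp
  obtain ⟨hadm, hval⟩ := adm_perturb (R := s + r + r) hf.1 (by positivity) hkc hk0 hkdec hεpos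
    hkim (fun x hx0 => by
      by_cases hxS : x ∈ S
      · have h1 : m ≤ Real.exp (-α * ‖x‖ ^ 2) - f x := hx₀ hxS
        have h2 : k x ≤ M := (le_abs_self _).trans (hM x hxS)
        have h3 : ε * k x ≤ ε * M := mul_le_mul_of_nonneg_left h2 hεpos.le
        linarith
      · have hx1 : r < ‖x‖ := by
          by_contra hc
          exact hxS (Or.inl (by simpa using not_lt.1 hc))
        have hkx : k x = 0 := by
          simp only [hk]
          rw [hφ0 x hx1.le]
          have : h x = 0 := by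
            by_cases hc : s ≤ ‖x‖
            · apply hh2
              by_contra hc2
              exact hxS (Or.inr ⟨hc, (not_le.1 hc2).le⟩)
            · apply hh1
              linarith [not_le.1 hc]
          rw [this]
          simp
        rw [hkx]
        simpa using hf.1.le_gauss x hx0) (fun y => by
      rw [hkre y]
      rcases lt_or_ge ‖y‖ δ with hy | hy
      · have h1 := hδ2 y hy
        have h2 : -(C * (1 + η)) ≤ (ft φ y).re * ((J y).re + η) := by
          have h3 : |(ft φ y).re * ((J y).re + η)| ≤ C * (1 + η) := by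
            rw [abs_mul, abs_of_nonneg (hφft y).2]
            apply mul_le_mul (hφbd y) _ (abs_nonneg _) hC0
            refine (abs_add_le _ _).trans ?_
            rw [abs_of_pos hηpos]
            linarith [hJ1 y, hJre y]
          exact (abs_le.1 h3).1
        have h4 : -(ε * (C * (1 + η))) ≤ ε * ((ft φ y).re * ((J y).re + η)) := by
          have := mul_le_mul_of_nonneg_left h2 hεpos.le
          linarith
        linarith
      · have h1 := hJfar y hy
        have h2 := (hf.1.ft_nonneg y).2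
        have h3 : 0 ≤ (ft φ y).re * ((J y).re + η) :=
          mul_nonneg (hφft y).2 (by linarith)
        positivity)
  have h1 := hf.2 _ hadm
  rw [hval] at h1
  have h2 : 0 < ε * value k := by positivity
  linarith

theorem zero_gap (hS : SphereStmt) (hB : BumpStmt) (hA : AverageStmt) (hD : DualStmt)
    (hd : 2 ≤ d) {α : ℝ} (hα : 0 < α) {f : E d → ℝ} (hf : IsOptimal d α f) {ρ : ℝ}
    (hρ : 0 < ρ) :
    ∃ s₀ : ℝ, ∀ s : ℝ, s₀ ≤ s → ∃ y : E d, s ≤ ‖y‖ ∧ ‖y‖ ≤ s + ρ ∧ ft f y = 0 := by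
  obtain ⟨g, hg, hg1, -⟩ := hD d α (by omega) hα f hf
  obtain ⟨s₀, hs₀⟩ := contact_gap hS hB hA hD hd (by positivity) hg hρ
  refine ⟨s₀, fun s hs => ?_⟩
  obtain ⟨y, hy1, hy2, hy3⟩ := hs₀ s hs
  refine ⟨y, hy1, hy2, ?_⟩
  rw [hg1 y] at hy3
  have hc : 0 < (α / π) ^ ((d : ℝ) / 2) := by positivity
  have h1 : (α / π) ^ ((d : ℝ) / 2) * (ft f y).re = 0 := by linarith
  have h2 : (ft f y).re = 0 := by
    rcases mul_eq_zero.1 h1 with h | h
    · exact absurd h hc.ne'
    · exact h
  exact Complex.ext (by simpa using h2) (by simpa using (hf.1.ft_nonneg y).1)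

end Pool.Agent.Lib.MP_adb5ad_gt
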