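import Pool.Agent.Lib.MP_adb5ad_gt.LTMeas

open MeasureTheory FourierTransform Real Filter Topology Set

noncomputable section

namespace Pool.Agent.Lib.MP_adb5ad_gt

/-- The Gaussian double integral. -/
def GG (μ : Measure ℝ) (t κ : ℝ) : ℝ :=
  ∫ p : ℝ × ℝ, Real.exp (-π * t * p.1) * Real.exp (-π * t * p.2) *
    Real.exp (-π * (p.1 - p.2) ^ 2 / (4 * κ)) ∂(μ.prod μ)

theorem gauss_int {κ : ℝ} (hκ : 0 < κ) (v₀ D : ℝ) :
    ∫ v : ℝ, Complex.exp (-(π : ℂ) * (v * Complex.I) * D) * Real.exp (-π * κ * (v - v₀) ^ 2) =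
      Complex.exp (-(π : ℂ) * (v₀ * Complex.I) * D) *
        ((κ ^ (-(1 / 2) : ℝ) * Real.exp (-π * D ^ 2 / (4 * κ)) : ℝ) : ℂ) := by
  have h1 : ∫ v : ℝ, Complex.exp (-(π : ℂ) * (v * Complex.I) * D) *
      Real.exp (-π * κ * (v - v₀) ^ 2) =
      ∫ v : ℝ, Complex.exp (-(π : ℂ) * ((v + v₀ : ℝ) * Complex.I) * D) *
        Real.exp (-π * κ * v ^ 2) := by
    rw [← integral_add_right_eq_self (μ := volume) (fun v : ℝ =>
      Complex.exp (-(π : ℂ) * (v * Complex.I) * D) * Real.exp (-π * κ * (v - v₀) ^ 2)) v₀]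
    congr 1
    ext v
    rw [add_sub_cancel_right]
  rw [h1]
  have h2 : ∀ v : ℝ, Complex.exp (-(π : ℂ) * ((v + v₀ : ℝ) * Complex.I) * D) *
        Real.exp (-π * κ * v ^ 2) = Complex.exp (-(π : ℂ) * (v₀ * Complex.I) * D) *
        (Complex.exp (Complex.I * (-π * D : ℂ) * v) * Complex.exp (-(π * κ : ℂ) * v ^ 2)) := by
    intro v
    push_cast
    rw [← Complex.exp_add, ← Complex.exp_add, ← Complex.exp_add]
    congr 1
    ring
  simp_rw [h2]
  rw [integral_const_mul, fourierIntegral_gaussian (by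
    rw [show (π * κ : ℂ) = ((π * κ : ℝ) : ℂ) by push_cast; ring]
    rw [Complex.ofReal_re]; positivity)]
  congr 1
  push_cast
  congr 1
  · rw [show (π / (π * κ) : ℂ) = ((κ⁻¹ : ℝ) : ℂ) by
      push_cast
      have : (π : ℂ) ≠ 0 := by exact_mod_cast Real.pi_ne_zero
      have : (κ : ℂ) ≠ 0 := by exact_mod_cast hκ.ne'
      field_simp]
    rw [show (1 / 2 : ℂ) = ((1 / 2 : ℝ) : ℂ) by push_cast; ring]
    rw [← Complex.ofReal_cpow (by positivity), Real.inv_rpow hκ.le, Real.rpow_neg hκ.le]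
  · congr 1
    have : (π : ℂ) ≠ 0 := by exact_mod_cast Real.pi_ne_zero
    have : (κ : ℂ) ≠ 0 := by exact_mod_cast hκ.ne'
    field_simp

variable {μ : Measure ℝ}

theorem norm_sq_LT [SFinite μ] (t v : ℝ) :
    ((‖LT μ (t + v * Complex.I)‖ ^ 2 : ℝ) : ℂ) =
      ∫ p : ℝ × ℝ, ((Real.exp (-π * t * p.1) * Real.exp (-π * t * p.2) : ℝ) : ℂ) *
        Complex.exp (-(π : ℂ) * (v * Complex.I) * ((p.1 - p.2 : ℝ) : ℂ)) ∂(μ.prod μ) := by
  have h1 : ((‖LT μ (t + v * Complex.I)‖ ^ 2 : ℝ) : ℂ) =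
      LT μ (t + v * Complex.I) * (starRingEnd ℂ) (LT μ (t + v * Complex.I)) := by
    rw [Complex.mul_conj, Complex.normSq_eq_norm_sq]
  rw [h1]
  unfold LT
  rw [← integral_conj, ← integral_prod_mul]
  congr 1
  ext p
  rw [← Complex.exp_conj]
  push_cast
  rw [← Complex.exp_add, ← Complex.exp_add, ← Complex.exp_add]
  congr 1
  simp only [map_mul, map_neg, map_add, Complex.conj_ofReal, Complex.conj_I]
  ring

theorem prod_integrable [SFinite μ]
    (hμ : ∀ t : ℝ, 0 < t → Integrable (fun x => Real.exp (-t * x)) μ) {t : ℝ} (ht : 0 < t) :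
    Integrable (fun p : ℝ × ℝ => Real.exp (-π * t * p.1) * Real.exp (-π * t * p.2))
      (μ.prod μ) :=
  (LTr_integrable hμ ht).mul_prod (LTr_integrable hμ ht)

theorem gauss_shift_integrable {κ : ℝ} (hκ : 0 < κ) (v₀ : ℝ) :
    Integrable (fun v : ℝ => Real.exp (-π * κ * (v - v₀) ^ 2)) := by
  have := (integrable_exp_neg_mul_sq (b := π * κ) (by positivity)).comp_sub_right v₀
  simpa [neg_mul] using this

theorem key_identity [SFinite μ]
    (hμ : ∀ t : ℝ, 0 < t → Integrable (fun x => Real.exp (-t * x)) μ) {t κ : ℝ} (ht : 0 < t)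
    (hκ : 0 < κ) (v₀ : ℝ) :
    Integrable (fun v : ℝ => ‖LT μ (t + v * Complex.I)‖ ^ 2 *
      Real.exp (-π * κ * (v - v₀) ^ 2)) ∧
    ((∫ v : ℝ, ‖LT μ (t + v * Complex.I)‖ ^ 2 * Real.exp (-π * κ * (v - v₀) ^ 2) : ℝ) : ℂ) =
      ∫ p : ℝ × ℝ, ((Real.exp (-π * t * p.1) * Real.exp (-π * t * p.2) : ℝ) : ℂ) *
        (Complex.exp (-(π : ℂ) * (v₀ * Complex.I) * ((p.1 - p.2 : ℝ) : ℂ)) *
        ((κ ^ (-(1 / 2) : ℝ) * Real.exp (-π * (p.1 - p.2) ^ 2 / (4 * κ)) : ℝ) : ℂ))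
          ∂(μ.prod μ) := by
  set F : ℝ × (ℝ × ℝ) → ℂ := fun q => ((Real.exp (-π * κ * (q.1 - v₀) ^ 2) : ℝ) : ℂ) *
    (((Real.exp (-π * t * q.2.1) * Real.exp (-π * t * q.2.2) : ℝ) : ℂ) *
      Complex.exp (-(π : ℂ) * (q.1 * Complex.I) * ((q.2.1 - q.2.2 : ℝ) : ℂ))) with hF
  have hFc : Continuous F := by
    rw [hF]
    fun_prop
  have hFi : Integrable F ((volume : Measure ℝ).prod (μ.prod μ)) := by
    refine ((gauss_shift_integrable hκ v₀).mul_prod (prod_integrable hμ ht)).mono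
      hFc.aestronglyMeasurable (ae_of_all _ fun q => le_of_eq ?_)
    rw [hF]
    simp only [norm_mul, Complex.norm_real, Real.norm_eq_abs, Real.abs_exp, Complex.norm_exp]
    have : (-(π : ℂ) * (q.1 * Complex.I) * ((q.2.1 - q.2.2 : ℝ) : ℂ)).re = 0 := by
      simp
    rw [this]
    simp
  have h1 : ∀ v : ℝ, ∫ p : ℝ × ℝ, F (v, p) ∂(μ.prod μ) =
      ((‖LT μ (t + v * Complex.I)‖ ^ 2 * Real.exp (-π * κ * (v - v₀) ^ 2) : ℝ) : ℂ) := by
    intro v
    simp only [hF]
    rw [integral_const_mul, ← norm_sq_LT]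
    push_cast
    ring
  constructor
  · have h2 := hFi.integral_prod_left
    simp only [h1] at h2
    have h3 := h2.re
    simpa only [RCLike.re_eq_complex_re, Complex.ofReal_re] using h3
  · rw [← integral_complex_ofReal]
    simp_rw [← h1]
    rw [integral_integral_swap (f := fun v p => F (v, p)) hFi]
    congr 1
    ext p
    rw [← gauss_int hκ v₀ (p.1 - p.2), ← integral_const_mul]
    congr 1
    ext v
    simp only [hF]
    ring

theorem GG_integrable [SFinite μ]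
    (hμ : ∀ t : ℝ, 0 < t → Integrable (fun x => Real.exp (-t * x)) μ) {t κ : ℝ} (ht : 0 < t)
    (hκ : 0 < κ) : Integrable (fun p : ℝ × ℝ => Real.exp (-π * t * p.1) *
      Real.exp (-π * t * p.2) * Real.exp (-π * (p.1 - p.2) ^ 2 / (4 * κ))) (μ.prod μ) := by
  refine (prod_integrable hμ ht).mono (Continuous.aestronglyMeasurable (by fun_prop))
    (ae_of_all _ fun p => ?_)
  rw [norm_mul]
  apply mul_le_of_le_one_right (norm_nonneg _)
  rw [Real.norm_eq_abs, Real.abs_exp, Real.exp_le_one_iff]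
  apply div_nonpos_of_nonpos_of_nonneg _ (by positivity)
  have : 0 ≤ π * (p.1 - p.2) ^ 2 := by positivity
  linarith

theorem key_le [SFinite μ]
    (hμ : ∀ t : ℝ, 0 < t → Integrable (fun x => Real.exp (-t * x)) μ) {t κ : ℝ} (ht : 0 < t)
    (hκ : 0 < κ) (v₀ : ℝ) :
    ∫ v : ℝ, ‖LT μ (t + v * Complex.I)‖ ^ 2 * Real.exp (-π * κ * (v - v₀) ^ 2) ≤
      κ ^ (-(1 / 2) : ℝ) * GG μ t κ := by
  have h := (key_identity hμ ht hκ v₀).2
  refine (le_abs_self _).trans ?_
  rw [← Real.norm_eq_abs, ← Complex.norm_real, h]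
  refine (norm_integral_le_integral_norm _).trans (le_of_eq ?_)
  unfold GG
  rw [← integral_const_mul]
  congr 1
  ext p
  simp only [norm_mul, Complex.norm_real, Real.norm_eq_abs, Real.abs_exp, Complex.norm_exp]
  have : (-(π : ℂ) * (v₀ * Complex.I) * ((p.1 - p.2 : ℝ) : ℂ)).re = 0 := by
    simp
  rw [this, Real.exp_zero, abs_of_pos (Real.rpow_pos_of_pos hκ _)]
  ring

theorem key_eq [SFinite μ]
    (hμ : ∀ t : ℝ, 0 < t → Integrable (fun x => Real.exp (-t * x)) μ) {t κ : ℝ} (ht : 0 < t)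
    (hκ : 0 < κ) :
    ∫ v : ℝ, ‖LT μ (t + v * Complex.I)‖ ^ 2 * Real.exp (-π * κ * v ^ 2) =
      κ ^ (-(1 / 2) : ℝ) * GG μ t κ := by
  have h := (key_identity hμ ht hκ 0).2
  simp only [sub_zero] at h
  have h2 : (∫ p : ℝ × ℝ, ((Real.exp (-π * t * p.1) * Real.exp (-π * t * p.2) : ℝ) : ℂ) *
        (Complex.exp (-(π : ℂ) * ((0 : ℝ) * Complex.I) * ((p.1 - p.2 : ℝ) : ℂ)) *
        ((κ ^ (-(1 / 2) : ℝ) * Real.exp (-π * (p.1 - p.2) ^ 2 / (4 * κ)) : ℝ) : ℂ))
          ∂(μ.prod μ)) = ((κ ^ (-(1 / 2) : ℝ) * GG μ t κ : ℝ) : ℂ) := by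
    unfold GG
    rw [← integral_const_mul, ← integral_complex_ofReal]
    congr 1
    ext p
    push_cast
    simp only [zero_mul, mul_zero, Complex.exp_zero, one_mul]
    ring
  rw [h2] at h
  exact_mod_cast h

theorem lint_eq [SFinite μ]
    (hμ : ∀ t : ℝ, 0 < t → Integrable (fun x => Real.exp (-t * x)) μ) {t κ : ℝ} (ht : 0 < t)
    (hκ : 0 < κ) (v₀ : ℝ) :
    ∫⁻ v : ℝ, ENNReal.ofReal (‖LT μ (t + v * Complex.I)‖ ^ 2 *
      Real.exp (-π * κ * (v - v₀) ^ 2)) =
      ENNReal.ofReal (∫ v : ℝ, ‖LT μ (t + v * Complex.I)‖ ^ 2 *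
        Real.exp (-π * κ * (v - v₀) ^ 2)) := by
  rw [ofReal_integral_eq_lintegral_ofReal (key_identity hμ ht hκ v₀).1]
  exact ae_of_all _ fun v => by positivity

theorem msq_eq [SFinite μ]
    (hμ : ∀ t : ℝ, 0 < t → Integrable (fun x => Real.exp (-t * x)) μ) {t : ℝ} (ht : 0 < t) :
    msq μ t = ENNReal.ofReal (GG μ t 1) := by
  have h1 := lint_eq hμ ht one_pos 0
  simp only [sub_zero] at h1
  rw [key_eq hμ ht one_pos] at h1
  simp only [mul_one, Real.one_rpow, one_mul] at h1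
  exact h1

theorem meanSquareStmt : MeanSquareStmt := by
  intro μ h0 hμ
  have : SFinite μ := sfinite_of (hμ 1 one_pos)
  refine ⟨?_, ?_, ?_, ?_⟩
  · intro t ht v₀
    have h1 := lint_eq hμ ht one_pos v₀
    simp only [mul_one] at h1
    rw [h1, msq_eq hμ ht]
    apply ENNReal.ofReal_le_ofReal
    have h2 := key_le hμ ht one_pos v₀
    simpa only [mul_one, Real.one_rpow, one_mul] using h2
  · intro t U ht hU hU1
    have hκ : 0 < 1 / U ^ 2 := by positivity
    have h1 := lint_eq hμ ht hκ 0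
    simp only [sub_zero] at h1
    have h2 : ∀ v : ℝ, -π * v ^ 2 / U ^ 2 = -π * (1 / U ^ 2) * v ^ 2 := fun v => by ring
    simp only [h2]
    rw [h1, key_eq hμ ht hκ, msq_eq hμ ht, ← ENNReal.ofReal_mul (by positivity)]
    apply ENNReal.ofReal_le_ofReal
    have h3 : (1 / U ^ 2) ^ (-(1 / 2) : ℝ) = U := by
      rw [one_div, Real.inv_rpow (by positivity), Real.rpow_neg (by positivity), inv_inv,
        ← Real.sqrt_eq_rpow, Real.sqrt_sq hU.le]
    rw [h3, ← mul_assoc, inv_mul_cancel₀ hU.ne', one_mul]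
    unfold GG
    apply integral_mono (GG_integrable hμ ht one_pos) (GG_integrable hμ ht hκ)
    intro p
    simp only
    apply mul_le_mul_of_nonneg_left _ (by positivity)
    apply Real.exp_le_exp.2
    have h4 : 0 ≤ π * (p.1 - p.2) ^ 2 := by positivity
    have h5 : U ^ 2 ≤ 1 := pow_le_one₀ hU.le hU1
    have h6 : -π * (p.1 - p.2) ^ 2 / (4 * (1 / U ^ 2)) = -(π * (p.1 - p.2) ^ 2) / 4 * U ^ 2 := by
      field_simp
    rw [h6]
    have h7 : -π * (p.1 - p.2) ^ 2 / (4 * 1) = -(π * (p.1 - p.2) ^ 2) / 4 := by ring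
    rw [h7]
    nlinarith
  · intro s t hs hst
    rw [msq_eq hμ hs, msq_eq hμ (hs.trans_le hst)]
    apply ENNReal.ofReal_le_ofReal
    unfold GG
    apply integral_mono_ae (GG_integrable hμ (hs.trans_le hst) one_pos)
      (GG_integrable hμ hs one_pos)
    have h1 : ∀ᵐ p : ℝ × ℝ ∂(μ.prod μ), 0 ≤ p.1 :=
      Measure.quasiMeasurePreserving_fst.ae (ae_nonneg h0)
    have h2 : ∀ᵐ p : ℝ × ℝ ∂(μ.prod μ), 0 ≤ p.2 :=
      Measure.quasiMeasurePreserving_snd.ae (ae_nonneg h0)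
    filter_upwards [h1, h2] with p hp1 hp2
    apply mul_le_mul_of_nonneg_right _ (Real.exp_pos _).le
    apply mul_le_mul _ _ (Real.exp_pos _).le (Real.exp_pos _).le
    · apply Real.exp_le_exp.2
      have : 0 ≤ π * p.1 := by positivity
      nlinarith
    · apply Real.exp_le_exp.2
      have : 0 ≤ π * p.2 := by positivity
      nlinarith
  · intro t ht N
    rw [msq_eq hμ ht, ← ENNReal.ofReal_mul (Real.exp_pos _).le]
    apply ENNReal.ofReal_le_ofReal
    set S : ℕ → Set (ℝ × ℝ) := fun j => Ico (j : ℝ) (j + 1) ×ˢ Ico (j : ℝ) (j + 1) with hS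
    have hSm : ∀ j, MeasurableSet (S j) := fun j => measurableSet_Ico.prod measurableSet_Ico
    have hint := (GG_integrable hμ ht one_pos).const_mul (Real.exp (π / 4))
    have h1 : ∀ j ∈ Finset.range N,
        (∫ x in Ico (j : ℝ) (j + 1), Real.exp (-π * t * x) ∂μ) ^ 2 ≤
        ∫ p in S j, Real.exp (π / 4) * (Real.exp (-π * t * p.1) * Real.exp (-π * t * p.2) *
          Real.exp (-π * (p.1 - p.2) ^ 2 / (4 * 1))) ∂(μ.prod μ) := by
      intro j _
      rw [sq, ← setIntegral_prod_mul]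
      apply setIntegral_mono_on (prod_integrable hμ ht).integrableOn hint.integrableOn (hSm j)
      intro p hp
      have hp1 := hp.1
      have hp2 := hp.2
      rw [mem_Ico] at hp1 hp2
      have h3 : (p.1 - p.2) ^ 2 ≤ 1 := by
        rw [sq_le_one_iff_abs_le_one, abs_le]
        constructor <;> linarith [hp1.1, hp1.2, hp2.1, hp2.2]
      rw [mul_left_comm]
      apply le_mul_of_one_le_right (by positivity)
      rw [← Real.exp_add]
      apply Real.one_le_exp
      have : π * (p.1 - p.2) ^ 2 ≤ π := by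
        have := Real.pi_pos
        nlinarith
      linarith
    refine (Finset.sum_le_sum h1).trans ?_
    rw [← integral_biUnion_finset (Finset.range N) (fun j _ => hSm j) _
      (fun j _ => hint.integrableOn)]
    · refine (setIntegral_le_integral hint (ae_of_all _ fun p => ?_)).trans (le_of_eq ?_)
      · simp only [Pi.zero_apply]
        positivity
      · rw [integral_const_mul]
        rfl
    · intro i _ j _ hij
      rw [Function.onFun, Set.disjoint_left]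
      rintro p ⟨hp1, _⟩ ⟨hp2, _⟩
      apply hij
      rw [mem_Ico] at hp1 hp2
      have h4 : (i : ℝ) < j + 1 := by linarith [hp1.1, hp2.2]
      have h5 : (j : ℝ) < i + 1 := by linarith [hp1.2, hp2.1]
      have h6 : i < j + 1 := by exact_mod_cast h4
      have h7 : j < i + 1 := by exact_mod_cast h5
      omega

end Pool.Agent.Lib.MP_adb5ad_gt
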