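import Pool.Agent.Lib.MP_adb5ad_gt.CDefs

/-! MP_adb5ad_gt, C4a: a positive functional on `Y` is represented on radial functions by a
measure (helper72). -/

open MeasureTheory FourierTransform Real Filter Topology Set
open scoped CompactlySupported

noncomputable section

namespace Pool.Agent.Lib.MP_adb5ad_gt

namespace MeasureAaux

variable {d : ℕ} {ε : ℝ}

theorem wt_pos (d : ℕ) (ε : ℝ) (x : E d) : 0 < wt d ε x := by
  unfold wt
  have := norm_nonneg x
  positivity

/-- Gaussians are bounded by the weight. -/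
theorem exp_le_wt (d : ℕ) (ε : ℝ) (hε : 0 < ε) {c : ℝ} (hc : 0 < c) (x : E d) :
    Real.exp (-c * ‖x‖ ^ 2) ≤ Real.exp (((d : ℝ) + ε) ^ 2 / (4 * c)) * wt d ε x := by
  have hx := norm_nonneg x
  have h1 : Real.exp (-((d : ℝ) + ε) * ‖x‖) ≤ wt d ε x := by
    unfold wt
    rw [Real.rpow_def_of_pos (by linarith)]
    apply Real.exp_le_exp.2
    have h2 : Real.log (1 + ‖x‖) ≤ ‖x‖ := by
      have := Real.log_le_sub_one_of_pos (show 0 < 1 + ‖x‖ by linarith)
      linarith
    have h3 : (0 : ℝ) ≤ d := Nat.cast_nonneg d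
    nlinarith
  refine le_trans ?_ (mul_le_mul_of_nonneg_left h1 (Real.exp_pos _).le)
  rw [← Real.exp_add]
  apply Real.exp_le_exp.2
  have h4 : ((d : ℝ) + ε) ^ 2 / (4 * c) + -((d : ℝ) + ε) * ‖x‖ - -c * ‖x‖ ^ 2
      = (2 * c * ‖x‖ - ((d : ℝ) + ε)) ^ 2 / (4 * c) := by
    field_simp
    ring
  have h5 : 0 ≤ (2 * c * ‖x‖ - ((d : ℝ) + ε)) ^ 2 / (4 * c) := by positivity
  linarith

/-- The bound of radial functions. -/
theorem radial_bound (hε : 0 < ε) {φ : ℝ → ℝ} {C c : ℝ} (hc : 0 < c)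
    (h : ∀ x, 0 ≤ x → |φ x| ≤ C * Real.exp (-c * x)) (x : E d) :
    |φ (‖x‖ ^ 2)| ≤ C * Real.exp (((d : ℝ) + ε) ^ 2 / (4 * c)) * wt d ε x := by
  have hC : 0 ≤ C := by
    have := (abs_nonneg _).trans (h 0 le_rfl)
    simpa using this
  refine (h _ (by positivity)).trans ?_
  rw [mul_assoc]
  exact mul_le_mul_of_nonneg_left (exp_le_wt d ε hε hc x) hC

theorem cc_bound {φ : ℝ → ℝ} (hφ : Continuous φ) (hs : HasCompactSupport φ) :
    ∃ C : ℝ, ∀ x, 0 ≤ x → |φ x| ≤ C * Real.exp (-1 * x) := by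
  have h1 : HasCompactSupport (fun x => φ x * Real.exp x) := hs.mul_right
  obtain ⟨C, hC⟩ := (hφ.mul Real.continuous_exp).bounded_above_of_compact_support h1
  refine ⟨C, fun x _ => ?_⟩
  have h2 : ‖φ x * Real.exp x‖ ≤ C := hC x
  rw [Real.norm_eq_abs, abs_mul, abs_of_pos (Real.exp_pos x)] at h2
  rw [neg_one_mul, Real.exp_neg, ← div_eq_mul_inv, le_div_iff₀ (Real.exp_pos x)]
  exact h2

/-- Compactly supported functions of `‖x‖²` as elements of `Y`. -/
def T (d : ℕ) (ε : ℝ) (hε : 0 < ε) : C_c(ℝ, ℝ) →ₗ[ℝ] Y d ε where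
  toFun φ := ⟨fun x => φ (‖x‖ ^ 2), by
    obtain ⟨C, hC⟩ := cc_bound φ.continuous φ.hasCompactSupport
    exact ⟨_, fun x => radial_bound hε one_pos hC x⟩⟩
  map_add' φ ψ := rfl
  map_smul' a φ := rfl

theorem T_apply (hε : 0 < ε) (φ : C_c(ℝ, ℝ)) (x : E d) : (T d ε hε φ).1 x = φ (‖x‖ ^ 2) := rfl

/-- The weight as an element of `Y`. -/
def wY (d : ℕ) (ε : ℝ) : Y d ε := ⟨wt d ε, 1, fun x => by
  rw [abs_of_pos (wt_pos d ε x), one_mul]⟩

/-- The positive functional on `C_c(ℝ)`. -/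
def Lam (hε : 0 < ε) (l : Y d ε →ₗ[ℝ] ℝ) (hl : ∀ q : Y d ε, (∀ x, 0 ≤ q.1 x) → 0 ≤ l q) :
    C_c(ℝ, ℝ) →ₚ[ℝ] ℝ :=
  PositiveLinearMap.mk₀ (l ∘ₗ T d ε hε) (fun _ hφ => hl _ fun x => hφ (‖x‖ ^ 2))

theorem Lam_apply (hε : 0 < ε) (l : Y d ε →ₗ[ℝ] ℝ)
    (hl : ∀ q : Y d ε, (∀ x, 0 ≤ q.1 x) → 0 ≤ l q) (φ : C_c(ℝ, ℝ)) :
    Lam hε l hl φ = l (T d ε hε φ) := rfl

theorem abs_l_le (l : Y d ε →ₗ[ℝ] ℝ) (hl : ∀ q : Y d ε, (∀ x, 0 ≤ q.1 x) → 0 ≤ l q)
    (q : Y d ε) (e : ℝ) (h : ∀ x, |q.1 x| ≤ e * wt d ε x) : |l q| ≤ e * l (wY d ε) := by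
  have h1 : 0 ≤ l (e • wY d ε - q) := hl _ fun x => by
    have := (abs_le.1 (h x)).2
    show 0 ≤ e * wt d ε x - q.1 x
    linarith
  have h2 : 0 ≤ l (e • wY d ε + q) := hl _ fun x => by
    have := (abs_le.1 (h x)).1
    show 0 ≤ e * wt d ε x + q.1 x
    linarith
  rw [map_sub, map_smul, smul_eq_mul] at h1
  rw [map_add, map_smul, smul_eq_mul] at h2
  rw [abs_le]
  constructor <;> linarith

/-- The cutoff functions. -/
def cut (n : ℕ) (x : ℝ) : ℝ := max 0 (min 1 ((n : ℝ) + 1 - |x|))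

theorem cut_cont (n : ℕ) : Continuous (cut n) := by
  unfold cut
  fun_prop

theorem cut_nonneg (n : ℕ) (x : ℝ) : 0 ≤ cut n x := le_max_left _ _

theorem cut_le_one (n : ℕ) (x : ℝ) : cut n x ≤ 1 := max_le zero_le_one (min_le_left _ _)

theorem cut_one {n : ℕ} {x : ℝ} (h : |x| ≤ n) : cut n x = 1 := by
  unfold cut
  rw [min_eq_left (by linarith), max_eq_right zero_le_one]

theorem cut_zero {n : ℕ} {x : ℝ} (h : (n : ℝ) + 1 ≤ |x|) : cut n x = 0 := by
  unfold cut
  apply max_eq_left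
  exact (min_le_right _ _).trans (by linarith)

theorem cut_supp (n : ℕ) : HasCompactSupport (cut n) := by
  refine HasCompactSupport.intro (isCompact_Icc (a := -((n : ℝ) + 1)) (b := (n : ℝ) + 1))
    fun x hx => ?_
  apply cut_zero
  by_contra hlt
  push Not at hlt
  exact hx ⟨(abs_lt.1 hlt).1.le, (abs_lt.1 hlt).2.le⟩

/-- The truncation of a continuous function. -/
def tr (φ : ℝ → ℝ) (hφ : Continuous φ) (n : ℕ) : C_c(ℝ, ℝ) :=
  ⟨⟨fun x => φ x * cut n x, hφ.mul (cut_cont n)⟩, (cut_supp n).mul_left⟩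

theorem tr_apply (φ : ℝ → ℝ) (hφ : Continuous φ) (n : ℕ) (x : ℝ) :
    tr φ hφ n x = φ x * cut n x := rfl

end MeasureAaux

open MeasureAaux

theorem measureAStmt : MeasureAStmt := by
  intro d ε r₀ hd hε hr₀ l hl0
  have hl : ∀ q : Y d ε, (∀ x, 0 ≤ q.1 x) → 0 ≤ l q := fun q hq => hl0 q fun x _ => hq x
  set Λ := Lam hε l hl with hΛ
  set m : Measure ℝ := RealRMK.rieszMeasure Λ with hm
  have hreg : m.Regular := RealRMK.regular_rieszMeasure Λ
  have hrep : ∀ φ : C_c(ℝ, ℝ), ∫ x, φ x ∂m = l (T d ε hε φ) := fun φ =>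
    RealRMK.integral_rieszMeasure Λ φ
  refine ⟨m, ?_, ?_⟩
  · -- the set `Iio r₀²` is a null set
    have hK : ∀ n : ℕ, m (Icc (-(n : ℝ)) (r₀ ^ 2 - 1 / ((n : ℝ) + 1))) = 0 := by
      intro n
      have hsub : Icc (-(n : ℝ)) (r₀ ^ 2 - 1 / ((n : ℝ) + 1)) ⊆ Iio (r₀ ^ 2) := by
        intro x hx
        have : (0 : ℝ) < 1 / ((n : ℝ) + 1) := by positivity
        have := hx.2
        show x < r₀ ^ 2
        linarith
      obtain ⟨f, hf1, hf2, hf3, hf4⟩ :=
        exists_continuousMap_one_of_isCompact_subset_isOpen isCompact_Icc isOpen_Iio hsub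
      let F : C_c(ℝ, ℝ) := ⟨f, hasCompactSupport_def.mpr hf2⟩
      have hF : ∀ x, F x = f x := fun x => rfl
      have h1 := RealRMK.rieszMeasure_le_of_eq_one Λ (f := F) (fun x => (hf4 x).1)
        (isCompact_Icc (a := -(n : ℝ)) (b := r₀ ^ 2 - 1 / ((n : ℝ) + 1)))
        (fun x hx => by rw [hF, hf1 hx]; rfl)
      have hz : ∀ x : E d, r₀ ≤ ‖x‖ → (T d ε hε F).1 x = 0 := by
        intro x hx
        rw [T_apply, hF]
        by_contra hne
        have h2 : ‖x‖ ^ 2 ∈ tsupport f := subset_tsupport _ hne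
        have h3 : ‖x‖ ^ 2 < r₀ ^ 2 := hf3 h2
        have h4 : r₀ ^ 2 ≤ ‖x‖ ^ 2 := pow_le_pow_left₀ hr₀.le hx 2
        linarith
      have h5 : 0 ≤ l (T d ε hε F) := hl0 _ fun x hx => (hz x hx).ge
      have h6 : 0 ≤ l (-(T d ε hε F)) := hl0 _ fun x hx => by
        show 0 ≤ -((T d ε hε F).1 x)
        rw [hz x hx, neg_zero]
      have h7 : Λ F = 0 := by
        rw [map_neg] at h6
        have : Λ F = l (T d ε hε F) := rfl
        rw [this]
        linarith
      rw [h7, ENNReal.ofReal_zero] at h1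
      exact nonpos_iff_eq_zero.1 h1
    have hU : Iio (r₀ ^ 2) ⊆ ⋃ n : ℕ, Icc (-(n : ℝ)) (r₀ ^ 2 - 1 / ((n : ℝ) + 1)) := by
      intro x hx
      have hx' : 0 < r₀ ^ 2 - x := sub_pos.2 hx
      obtain ⟨n, hn⟩ := exists_nat_ge (max (-x) (1 / (r₀ ^ 2 - x)))
      rw [mem_iUnion]
      refine ⟨n, ?_, ?_⟩
      · have := (le_max_left _ _).trans hn
        linarith
      · have h1 := (le_max_right _ _).trans hn
        have h2 : 1 / ((n : ℝ) + 1) ≤ r₀ ^ 2 - x := by
          rw [div_le_iff₀ (by positivity)]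
          rw [div_le_iff₀ hx'] at h1
          nlinarith
        linarith
    exact measure_mono_null hU (measure_iUnion_null hK)
  · rintro φ hφ ⟨C, c, hc, hb⟩
    have hC : 0 ≤ C := by
      have := (abs_nonneg _).trans (hb 0 le_rfl)
      simpa using this
    have hint : Integrable φ m := by
      refine AECover.integrable_of_integral_norm_bounded (l := atTop)
        (φ := fun n : ℕ => Icc (-(n : ℝ)) n)
        (aecover_Icc (tendsto_neg_atTop_atBot.comp tendsto_natCast_atTop_atTop)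
          tendsto_natCast_atTop_atTop)
        (C * Real.exp (((d : ℝ) + ε) ^ 2 / (4 * c)) * l (wY d ε))
        (fun n => hφ.integrableOn_Icc) (Eventually.of_forall fun n => ?_)
      have h1 : ∫ x in Icc (-(n : ℝ)) n, ‖φ x‖ ∂m ≤ ∫ x, tr (fun x => |φ x|) hφ.abs n x ∂m := by
        rw [← integral_indicator measurableSet_Icc]
        refine integral_mono ?_ ?_ fun x => ?_
        · rw [integrable_indicator_iff measurableSet_Icc]
          exact (hφ.norm).integrableOn_Icc
        · exact (tr (fun x => |φ x|) hφ.abs n).continuous.integrable_of_hasCompactSupport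
            (tr (fun x => |φ x|) hφ.abs n).hasCompactSupport
        · show (Icc (-(n : ℝ)) n).indicator (fun x => ‖φ x‖) x ≤ tr (fun x => |φ x|) hφ.abs n x
          rw [tr_apply]
          by_cases hx : x ∈ Icc (-(n : ℝ)) n
          · rw [indicator_of_mem hx, cut_one (abs_le.2 hx), mul_one, Real.norm_eq_abs]
          · rw [indicator_of_notMem hx]
            exact mul_nonneg (abs_nonneg _) (cut_nonneg _ _)
      refine h1.trans ?_
      rw [hrep]
      refine (le_abs_self _).trans (abs_l_le l hl _ _ fun x => ?_)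
      rw [T_apply, tr_apply, abs_mul, abs_abs, abs_of_nonneg (cut_nonneg _ _)]
      exact (mul_le_of_le_one_right (abs_nonneg _) (cut_le_one _ _)).trans
        (radial_bound hε hc hb x)
    refine ⟨hint, fun q hq => ?_⟩
    -- convergence of the integrals
    have lim1 : Tendsto (fun n : ℕ => ∫ x, tr φ hφ n x ∂m) atTop (𝓝 (∫ x, φ x ∂m)) := by
      refine tendsto_integral_of_dominated_convergence (fun x => |φ x|) ?_ hint.abs ?_ ?_
      · intro n
        exact (tr φ hφ n).continuous.aestronglyMeasurable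
      · intro n
        refine Eventually.of_forall fun x => ?_
        rw [tr_apply, Real.norm_eq_abs, abs_mul, abs_of_nonneg (cut_nonneg _ _)]
        exact mul_le_of_le_one_right (abs_nonneg _) (cut_le_one _ _)
      · refine Eventually.of_forall fun x => ?_
        refine tendsto_const_nhds.congr' ?_
        filter_upwards [eventually_ge_atTop ⌈|x|⌉₊] with n hn
        have h1 : |x| ≤ n := (Nat.le_ceil _).trans (by exact_mod_cast hn)
        rw [tr_apply, cut_one h1, mul_one]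
    have lim2 : Tendsto (fun n : ℕ => ∫ x, tr φ hφ n x ∂m) atTop (𝓝 (l q)) := by
      rw [tendsto_iff_norm_sub_tendsto_zero]
      set M : ℝ := Real.exp (((d : ℝ) + ε) ^ 2 / (4 * (c / 2))) with hM
      have hbd : ∀ n : ℕ, ‖∫ x, tr φ hφ n x ∂m - l q‖ ≤
          C * Real.exp (-(c / 2) * n) * M * l (wY d ε) := by
        intro n
        rw [hrep, ← map_sub, Real.norm_eq_abs]
        refine abs_l_le l hl _ _ fun x => ?_
        show |(T d ε hε (tr φ hφ n)).1 x - q.1 x| ≤ _
        rw [hq, T_apply, tr_apply]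
        have e1 : φ (‖x‖ ^ 2) * cut n (‖x‖ ^ 2) - φ (‖x‖ ^ 2) =
            -(φ (‖x‖ ^ 2) * (1 - cut n (‖x‖ ^ 2))) := by ring
        rw [e1, abs_neg, abs_mul]
        have hcut : 0 ≤ 1 - cut n (‖x‖ ^ 2) := by linarith [cut_le_one n (‖x‖ ^ 2)]
        rw [abs_of_nonneg hcut]
        have hw := (MeasureAaux.wt_pos d ε x).le
        have hMp : 0 < M := Real.exp_pos _
        rcases le_or_gt (‖x‖ ^ 2) n with hx | hx
        · rw [cut_one (by rw [abs_of_nonneg (by positivity)]; exact hx), sub_self, mul_zero]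
          have := (Real.exp_pos (-(c / 2) * n)).le
          positivity
        · have h2 : |φ (‖x‖ ^ 2)| ≤ C * Real.exp (-(c / 2) * n) * M * wt d ε x := by
            refine (hb _ (by positivity)).trans ?_
            have h3 : Real.exp (-c * ‖x‖ ^ 2) =
                Real.exp (-(c / 2) * ‖x‖ ^ 2) * Real.exp (-(c / 2) * ‖x‖ ^ 2) := by
              rw [← Real.exp_add]
              congr 1
              ring
            have h4 : Real.exp (-(c / 2) * ‖x‖ ^ 2) ≤ Real.exp (-(c / 2) * n) := by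
              apply Real.exp_le_exp.2
              nlinarith
            have h5 := exp_le_wt d ε hε (show 0 < c / 2 by linarith) x
            rw [h3]
            calc C * (Real.exp (-(c / 2) * ‖x‖ ^ 2) * Real.exp (-(c / 2) * ‖x‖ ^ 2))
                ≤ C * (Real.exp (-(c / 2) * n) * (M * wt d ε x)) :=
                  mul_le_mul_of_nonneg_left
                    (mul_le_mul h4 h5 (Real.exp_pos _).le (Real.exp_pos _).le) hC
              _ = C * Real.exp (-(c / 2) * n) * M * wt d ε x := by ring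
          exact (mul_le_of_le_one_right (abs_nonneg _)
            (by linarith [cut_nonneg n (‖x‖ ^ 2)])).trans h2
      refine squeeze_zero (fun n => norm_nonneg _) hbd ?_
      have h6 : Tendsto (fun n : ℕ => Real.exp (-(c / 2) * n)) atTop (𝓝 0) := by
        refine Real.tendsto_exp_atBot.comp ?_
        exact Tendsto.const_mul_atTop_of_neg (by linarith) tendsto_natCast_atTop_atTop
      have h7 := ((h6.const_mul C).mul_const M).mul_const (l (wY d ε))
      simpa using h7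
    exact tendsto_nhds_unique lim2 lim1

end Pool.Agent.Lib.MP_adb5ad_gt
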