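import Pool.Agent.Lib.MP_adb5ad_gt.LTMeas

open MeasureTheory FourierTransform Real Filter Topology Set

noncomputable section

namespace Pool.Agent.Lib.MP_adb5ad_gt

theorem lintegral_biUnion_le' {ι : Type*} (F : ℝ → ENNReal) (R : ι → Set ℝ) (s : Finset ι) :
    ∫⁻ v in ⋃ j ∈ s, R j, F v ≤ ∑ j ∈ s, ∫⁻ v in R j, F v := by
  classical
  induction s using Finset.induction_on with
  | empty => simp
  | insert a s ha ih =>
    rw [Finset.set_biUnion_insert, Finset.sum_insert ha]
    exact (lintegral_union_le F _ _).trans (add_le_add le_rfl ih)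

theorem exp_pi_quarter : Real.exp (π / 4) ≤ 2.72 := by
  calc Real.exp (π / 4) ≤ Real.exp 1 := by
        apply Real.exp_le_exp.2
        linarith [Real.pi_lt_four]
    _ ≤ 2.72 := by linarith [Real.exp_one_lt_d9]

theorem window_sum {ν : Measure ℝ} {a W : ℝ} (hW : 0 < W) (hW1 : W ≤ 1)
    (hP1 : ∀ v₀ : ℝ, ∫⁻ v : ℝ, ENNReal.ofReal (‖LT ν (a + v * Complex.I)‖ ^ 2 *
      Real.exp (-π * (v - v₀) ^ 2)) ≤ msq ν a) :
    ∫⁻ b in Icc (-(2 / W)) (2 / W), ENNReal.ofReal (‖LT ν (a + b * Complex.I)‖ ^ 2) ≤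
      ENNReal.ofReal (20 / W) * msq ν a := by
  set M := Nat.ceil (2 / W) with hM
  have hMge : 2 / W ≤ M := Nat.le_ceil _
  have hMle : (M : ℝ) ≤ 2 / W + 1 := (Nat.ceil_lt_add_one (by positivity)).le
  set s := Finset.Icc (-(M : ℤ)) M with hs
  set R : ℤ → Set ℝ := fun j => Icc ((j : ℝ) - 1 / 2) ((j : ℝ) + 1 / 2) with hR
  have hcov : Icc (-(2 / W)) (2 / W) ⊆ ⋃ j ∈ s, R j := by
    intro b hb
    simp only [mem_iUnion]
    refine ⟨round b, ?_, ?_⟩
    · rw [hs, Finset.mem_Icc]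
      have h1 := abs_sub_round b
      rw [abs_le] at h1
      constructor
      · have h2 : (-(M : ℝ)) - 1 < round b := by linarith [hb.1]
        have h3 : (-(M : ℤ)) - 1 < round b := by exact_mod_cast h2
        omega
      · have h2 : (round b : ℝ) < M + 1 := by linarith [hb.2]
        have h3 : round b < (M : ℤ) + 1 := by exact_mod_cast h2
        omega
    · have h1 := abs_sub_round b
      rw [abs_le] at h1
      constructor <;> linarith
  have hwin : ∀ j ∈ s, ∫⁻ b in R j, ENNReal.ofReal (‖LT ν (a + b * Complex.I)‖ ^ 2) ≤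
      ENNReal.ofReal 2.72 * msq ν a := by
    intro j _
    calc ∫⁻ b in R j, ENNReal.ofReal (‖LT ν (a + b * Complex.I)‖ ^ 2) ≤
          ∫⁻ b in R j, ENNReal.ofReal 2.72 * ENNReal.ofReal (‖LT ν (a + b * Complex.I)‖ ^ 2 *
            Real.exp (-π * (b - j) ^ 2)) := by
          apply setLIntegral_mono' measurableSet_Icc
          intro b hb
          rw [← ENNReal.ofReal_mul (by norm_num)]
          apply ENNReal.ofReal_le_ofReal
          have h1 : (b - j) ^ 2 ≤ 1 / 4 := by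
            have h2 := hb.1
            have h3 := hb.2
            nlinarith
          have h2 : Real.exp (-(π / 4)) ≤ Real.exp (-π * (b - j) ^ 2) := by
            apply Real.exp_le_exp.2
            nlinarith [Real.pi_pos]
          have h3 : 1 ≤ 2.72 * Real.exp (-π * (b - j) ^ 2) := by
            calc (1 : ℝ) = Real.exp (π / 4) * Real.exp (-(π / 4)) := by
                  rw [← Real.exp_add]
                  simp
              _ ≤ 2.72 * Real.exp (-π * (b - j) ^ 2) :=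
                  mul_le_mul exp_pi_quarter h2 (Real.exp_pos _).le (by norm_num)
          calc ‖LT ν (a + b * Complex.I)‖ ^ 2 = ‖LT ν (a + b * Complex.I)‖ ^ 2 * 1 := by ring
            _ ≤ ‖LT ν (a + b * Complex.I)‖ ^ 2 * (2.72 * Real.exp (-π * (b - j) ^ 2)) :=
                mul_le_mul_of_nonneg_left h3 (by positivity)
            _ = _ := by ring
      _ ≤ ∫⁻ b : ℝ, ENNReal.ofReal 2.72 * ENNReal.ofReal (‖LT ν (a + b * Complex.I)‖ ^ 2 *
            Real.exp (-π * (b - j) ^ 2)) := setLIntegral_le_lintegral _ _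
      _ ≤ ENNReal.ofReal 2.72 * msq ν a := by
          rw [lintegral_const_mul' _ _ ENNReal.ofReal_ne_top]
          exact mul_le_mul_right (hP1 j) _
  calc ∫⁻ b in Icc (-(2 / W)) (2 / W), ENNReal.ofReal (‖LT ν (a + b * Complex.I)‖ ^ 2) ≤
        ∫⁻ b in ⋃ j ∈ s, R j, ENNReal.ofReal (‖LT ν (a + b * Complex.I)‖ ^ 2) :=
        lintegral_mono_set hcov
    _ ≤ ∑ j ∈ s, ∫⁻ b in R j, ENNReal.ofReal (‖LT ν (a + b * Complex.I)‖ ^ 2) :=
        lintegral_biUnion_le' _ _ _
    _ ≤ ∑ _j ∈ s, ENNReal.ofReal 2.72 * msq ν a := Finset.sum_le_sum hwin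
    _ = ENNReal.ofReal ((2 * M + 1 : ℝ) * 2.72) * msq ν a := by
        rw [Finset.sum_const, nsmul_eq_mul, ← mul_assoc, hs, Int.card_Icc]
        congr 1
        rw [ENNReal.ofReal_mul (by positivity)]
        congr 1
        have : ((M : ℤ) + 1 - -(M : ℤ)).toNat = 2 * M + 1 := by omega
        rw [this]
        rw [show (2 * (M : ℝ) + 1) = ((2 * M + 1 : ℕ) : ℝ) by push_cast; ring,
          ENNReal.ofReal_natCast]
    _ ≤ _ := by
        apply mul_le_mul_left
        apply ENNReal.ofReal_le_ofReal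
        have h1 : 1 ≤ 1 / W := by
          rw [le_div_iff₀ hW]
          linarith
        have h2 : 2 / W = 2 * (1 / W) := by ring
        have h3 : 20 / W = 20 * (1 / W) := by ring
        rw [h3]
        rw [h2] at hMle
        linarith

theorem ofReal_mul4 {A B C D : ℝ} (hA : 0 ≤ A) (hB : 0 ≤ B) (hC : 0 ≤ C) :
    ENNReal.ofReal (A * B * C * D) =
      ENNReal.ofReal A * ENNReal.ofReal B * ENNReal.ofReal C * ENNReal.ofReal D := by
  rw [ENNReal.ofReal_mul (by positivity), ENNReal.ofReal_mul (by positivity),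
    ENNReal.ofReal_mul hA]

theorem pieceStmt (h6 : MeanSquareStmt) (h7 : InversionStmt) : PieceStmt := by
  intro k μ ν hk hT t₀ W ht₀ htW hW1
  obtain ⟨hP1, -, hP3, -⟩ := h6 ν hT.neg₂ hT.int₂
  haveI := hT.sfinite₂
  have hW : 0 < W := ht₀.trans_le htW
  set g : ℂ → ENNReal := fun w => ENNReal.ofReal (‖LT ν w‖ ^ 2) with hg
  have hgm : Measurable g := (measurable_LT.norm.pow_const 2).ennreal_ofReal
  have hWk : 0 < W ^ (-(2 * k)) := Real.rpow_pos_of_pos hW _
  have hmeas : MeasurableSet {v : ℝ | W ≤ |v| ∧ |v| ≤ 2 * W} := by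
    have e1 : MeasurableSet {v : ℝ | W ≤ |v|} :=
      measurableSet_le measurable_const continuous_abs.measurable
    have e2 : MeasurableSet {v : ℝ | |v| ≤ 2 * W} :=
      measurableSet_le continuous_abs.measurable measurable_const
    exact e1.inter e2
  have h1 : ∫⁻ t in Icc (t₀ / 2) t₀, ∫⁻ v in {v : ℝ | W ≤ |v| ∧ |v| ≤ 2 * W},
      ENNReal.ofReal (‖LT μ (t + v * Complex.I)‖ ^ 2) ≤
      ENNReal.ofReal (W ^ (-(2 * k))) * ∫⁻ t in Icc (t₀ / 2) t₀,
        ∫⁻ v in {v : ℝ | W ≤ |v| ∧ |v| ≤ 2 * W}, g (1 / ((t : ℂ) + v * Complex.I)) := by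
    rw [← lintegral_const_mul' _ _ ENNReal.ofReal_ne_top]
    apply setLIntegral_mono' measurableSet_Icc
    intro t ht
    rw [← lintegral_const_mul' _ _ ENNReal.ofReal_ne_top]
    apply setLIntegral_mono' hmeas
    intro v hv
    have htpos : 0 < t := lt_of_lt_of_le (by positivity) ht.1
    rw [hg, ← ENNReal.ofReal_mul hWk.le]
    apply ENNReal.ofReal_le_ofReal
    rw [hT.fe₁ _ (by simpa using htpos), norm_mul, mul_pow]
    apply mul_le_mul_of_nonneg_right _ (by positivity)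
    have hz : W ≤ ‖(t : ℂ) + v * Complex.I‖ := by
      have := Complex.abs_im_le_norm ((t : ℂ) + v * Complex.I)
      simp at this
      exact hv.1.trans this
    rw [← Complex.ofReal_neg, Complex.norm_cpow_real]
    have h2 : ‖(t : ℂ) + v * Complex.I‖ ^ (-k) ≤ W ^ (-k) :=
      Real.rpow_le_rpow_of_nonpos hW hz (by linarith)
    calc (‖(t : ℂ) + v * Complex.I‖ ^ (-k)) ^ 2 ≤ (W ^ (-k)) ^ 2 :=
          pow_le_pow_left₀ (by positivity) h2 2
      _ = W ^ (-(2 * k)) := by
          rw [← Real.rpow_natCast (W ^ (-k)) 2, ← Real.rpow_mul hW.le]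
          congr 1
          push_cast
          ring
  have h2 := h7 g hgm t₀ W ht₀ htW
  have hτ : 0 < t₀ / (10 * W ^ 2) := by positivity
  have h3 : ∫⁻ a in Icc (t₀ / (10 * W ^ 2)) (t₀ / W ^ 2),
      ∫⁻ b in Icc (-(2 / W)) (2 / W), g ((a : ℂ) + b * Complex.I) ≤
      ENNReal.ofReal (20 / W) * msq ν (t₀ / (10 * W ^ 2)) * ENNReal.ofReal (t₀ / W ^ 2) := by
    calc _ ≤ ∫⁻ _ in Icc (t₀ / (10 * W ^ 2)) (t₀ / W ^ 2),
          ENNReal.ofReal (20 / W) * msq ν (t₀ / (10 * W ^ 2)) := by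
          apply setLIntegral_mono' measurableSet_Icc
          intro a ha
          have hapos : 0 < a := hτ.trans_le ha.1
          refine (window_sum hW hW1 (hP1 a hapos)).trans ?_
          exact mul_le_mul_right (hP3 _ a hτ ha.1) _
      _ ≤ _ := by
          rw [setLIntegral_const, Real.volume_Icc]
          apply mul_le_mul_right
          apply ENNReal.ofReal_le_ofReal
          linarith
  refine h1.trans ((mul_le_mul_right (h2.trans (mul_le_mul_right h3 _)) _).trans ?_)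
  have h4 : ENNReal.ofReal (W ^ (-(2 * k))) * (ENNReal.ofReal (25 * W ^ 4) *
      (ENNReal.ofReal (20 / W) * msq ν (t₀ / (10 * W ^ 2)) * ENNReal.ofReal (t₀ / W ^ 2))) =
      ENNReal.ofReal (W ^ (-(2 * k)) * (25 * W ^ 4) * (20 / W) * (t₀ / W ^ 2)) *
        msq ν (t₀ / (10 * W ^ 2)) := by
    rw [ofReal_mul4 hWk.le (by positivity) (by positivity)]
    ring
  rw [h4]
  apply mul_le_mul_left
  apply ENNReal.ofReal_le_ofReal
  have h5 : W ^ (1 - 2 * k) = W ^ (-(2 * k)) * W := by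
    rw [show (1 - 2 * k) = -(2 * k) + 1 by ring, Real.rpow_add hW, Real.rpow_one]
  rw [h5]
  have h6 : W ^ (-(2 * k)) * (25 * W ^ 4) * (20 / W) * (t₀ / W ^ 2) =
      500 * (t₀ * (W ^ (-(2 * k)) * W)) := by
    field_simp
    ring
  rw [h6]
  have h7 : 0 ≤ t₀ * (W ^ (-(2 * k)) * W) := by positivity
  nlinarith

end Pool.Agent.Lib.MP_adb5ad_gt
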