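import Pool.Agent.Lib.MP_adb5ad_gt.CDefs

open MeasureTheory FourierTransform Real Filter Topology Set

noncomputable section

namespace Pool.Agent.Lib.MP_adb5ad_gt

theorem wt_pos (d : ℕ) (ε : ℝ) (x : E d) : 0 < wt d ε x := by
  unfold wt
  positivity

theorem wt_le_one (d : ℕ) {ε : ℝ} (hε : 0 < ε) (x : E d) : wt d ε x ≤ 1 := by
  unfold wt
  apply Real.rpow_le_one_of_one_le_of_nonpos
  · linarith [norm_nonneg x]
  · have : (0 : ℝ) ≤ d := Nat.cast_nonneg d
    linarith

theorem Test.integrable {d : ℕ} {ε : ℝ} (hε : 0 < ε) {h : E d → ℝ} (hh : Test d ε h) :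
    Integrable h := by
  obtain ⟨C, hC⟩ := hh.bd
  exact integrable_of_decay hε hh.cont (fun x => by simpa [wt] using (hC x).1)

theorem Test.bounded {d : ℕ} {ε : ℝ} (hε : 0 < ε) {h : E d → ℝ} (hh : Test d ε h) :
    ∃ M : ℝ, 0 ≤ M ∧ ∀ x, |h x| ≤ M ∧ |(ft h x).re| ≤ M := by
  obtain ⟨C, hC⟩ := hh.bd
  refine ⟨|C|, abs_nonneg C, fun x => ?_⟩
  have h1 : C * wt d ε x ≤ |C| := by
    calc C * wt d ε x ≤ |C| * wt d ε x :=
          mul_le_mul_of_nonneg_right (le_abs_self C) (wt_pos d ε x).le
      _ ≤ |C| * 1 := mul_le_mul_of_nonneg_left (wt_le_one d hε x) (abs_nonneg C)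
      _ = |C| := mul_one _
  exact ⟨(hC x).1.trans h1, ((Complex.abs_re_le_norm _).trans (hC x).2).trans h1⟩

theorem adm_perturb' {d : ℕ} {α ε s : ℝ} {f h : E d → ℝ} (hε : 0 < ε) (hf : Admissible d α f)
    (tf : Test d ε f) (th : Test d ε h) (hs : 0 ≤ s)
    (hle : ∀ x, x ≠ 0 → f x + s * h x ≤ Real.exp (-α * ‖x‖ ^ 2))
    (hnn : ∀ y, 0 ≤ (ft f y).re + s * (ft h y).re) :
    Admissible d α (fun x => f x + s * h x) ∧
      value (fun x => f x + s * h x) = value f + s * value h := by
  have hft : ∀ y, ft (fun x => f x + s * h x) y = ft f y + s * ft h y :=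
    ft_add_mul (tf.integrable hε) (th.integrable hε) s
  obtain ⟨C, hC⟩ := tf.bd
  obtain ⟨D, hD⟩ := th.bd
  constructor
  · refine ⟨tf.cont.add (th.cont.const_smul s), ⟨ε, hε, C + s * D, fun x => ?_⟩, hle, fun y => ?_⟩
    · have hw : wt d ε x = (1 + ‖x‖) ^ (-(d : ℝ) - ε) := rfl
      rw [← hw]
      constructor
      · calc |f x + s * h x| ≤ |f x| + s * |h x| := by
              refine (abs_add_le _ _).trans ?_
              rw [abs_mul, abs_of_nonneg hs]
          _ ≤ C * wt d ε x + s * (D * wt d ε x) :=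
              add_le_add (hC x).1 (mul_le_mul_of_nonneg_left (hD x).1 hs)
          _ = (C + s * D) * wt d ε x := by ring
      · rw [hft]
        calc ‖ft f x + s * ft h x‖ ≤ ‖ft f x‖ + s * ‖ft h x‖ := by
              refine (norm_add_le _ _).trans ?_
              rw [norm_mul, Complex.norm_real, Real.norm_eq_abs, abs_of_nonneg hs]
          _ ≤ C * wt d ε x + s * (D * wt d ε x) :=
              add_le_add (hC x).2 (mul_le_mul_of_nonneg_left (hD x).2 hs)
          _ = (C + s * D) * wt d ε x := by ring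
    · rw [hft]
      constructor
      · simp [tf.im y, th.im y]
      · simpa using hnn y
  · unfold value
    rw [hft]
    simp
    ring

theorem relaxStmt : RelaxStmt := by
  intro d α f ε r₀ δ hS h c th h1 h2
  have hf := hS.opt.1
  have hε := hS.hε
  obtain ⟨M, hM0, hM⟩ := th.bounded hε
  -- strictness near zero
  have hgc : Continuous (fun x : E d => Real.exp (-α * ‖x‖ ^ 2) - f x) := by
    have := hf.cont
    fun_prop
  have hftc : Continuous (fun y => (ft f y).re) :=
    Complex.continuous_re.comp (ft_continuous hf.integrable)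
  obtain ⟨x₀, hx₀m, hx₀⟩ := (isCompact_closedBall (0 : E d) r₀).exists_isMinOn
    ⟨0, by simp [hS.hr₀.le]⟩ hgc.continuousOn
  set m := Real.exp (-α * ‖x₀‖ ^ 2) - f x₀ with hm
  have hmpos : 0 < m := sub_pos.2 (hS.strict x₀ (by simpa using hx₀m))
  have hmle : ∀ x : E d, ‖x‖ ≤ r₀ → m ≤ Real.exp (-α * ‖x‖ ^ 2) - f x := by
    intro x hx
    exact hx₀ (by simpa using hx)
  obtain ⟨y₀, hy₀m, hy₀⟩ := (isCompact_closedBall (0 : E d) δ).exists_isMinOn
    ⟨0, by simp [hS.hδ.le]⟩ hftc.continuousOn
  set n := (ft f y₀).re with hn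
  have hnpos : 0 < n := hS.pos y₀ (by simpa using hy₀m)
  have hnle : ∀ y : E d, ‖y‖ ≤ δ → n ≤ (ft f y).re := by
    intro y hy
    exact hy₀ (by simpa using hy)
  set s := min (1 / (|c| + 1)) (min (m / (M + 1)) (n / (M + 1))) with hs
  have hspos : 0 < s := by positivity
  have hs1 : s * c ≤ 1 := by
    calc s * c ≤ s * (|c| + 1) := by
          apply mul_le_mul_of_nonneg_left _ hspos.le
          linarith [le_abs_self c]
      _ ≤ 1 / (|c| + 1) * (|c| + 1) :=
          mul_le_mul_of_nonneg_right (min_le_left _ _) (by positivity)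
      _ = 1 := by field_simp
  have hs2 : s * M ≤ m := by
    calc s * M ≤ s * (M + 1) := mul_le_mul_of_nonneg_left (by linarith) hspos.le
      _ ≤ m / (M + 1) * (M + 1) :=
          mul_le_mul_of_nonneg_right ((min_le_right _ _).trans (min_le_left _ _)) (by positivity)
      _ = m := by field_simp
  have hs3 : s * M ≤ n := by
    calc s * M ≤ s * (M + 1) := mul_le_mul_of_nonneg_left (by linarith) hspos.le
      _ ≤ n / (M + 1) * (M + 1) :=
          mul_le_mul_of_nonneg_right ((min_le_right _ _).trans (min_le_right _ _)) (by positivity)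
      _ = n := by field_simp
  obtain ⟨hadm, hval⟩ := adm_perturb' (s := s) hε hf hS.test th hspos.le (fun x hx0 => by
      rcases le_or_gt ‖x‖ r₀ with hx | hx
      · have a1 := hmle x hx
        have a2 : s * h x ≤ s * M :=
          mul_le_mul_of_nonneg_left ((le_abs_self _).trans (hM x).1) hspos.le
        linarith
      · have a1 := h1 x hx.le
        have a2 : 0 ≤ Real.exp (-α * ‖x‖ ^ 2) - f x := sub_nonneg.2 (hf.le_gauss x hx0)
        have a3 : s * h x ≤ s * (c * (Real.exp (-α * ‖x‖ ^ 2) - f x)) :=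
          mul_le_mul_of_nonneg_left a1 hspos.le
        have a4 : s * c * (Real.exp (-α * ‖x‖ ^ 2) - f x) ≤
            1 * (Real.exp (-α * ‖x‖ ^ 2) - f x) := mul_le_mul_of_nonneg_right hs1 a2
        rw [← mul_assoc] at a3
        linarith) (fun y => by
      rcases le_or_gt ‖y‖ δ with hy | hy
      · have a1 := hnle y hy
        have a2 : s * (-M) ≤ s * (ft h y).re :=
          mul_le_mul_of_nonneg_left (by linarith [neg_abs_le (ft h y).re, (hM y).2]) hspos.le
        linarith
      · have a1 := h2 y hy.le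
        have a2 := (hf.ft_nonneg y).2
        have a3 : s * -(c * (ft f y).re) ≤ s * (ft h y).re :=
          mul_le_mul_of_nonneg_left a1 hspos.le
        have a4 : s * c * (ft f y).re ≤ 1 * (ft f y).re := mul_le_mul_of_nonneg_right hs1 a2
        nlinarith)
  have h3 := hS.opt.2 _ hadm
  rw [hval] at h3
  by_contra hcon
  have : 0 < s * value h := mul_pos hspos (not_le.1 hcon)
  linarith

end Pool.Agent.Lib.MP_adb5ad_gt
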