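import Pool.Agent.Lib.MP_adb5ad_gt.CDefs

/-! MP_adb5ad_gt, C1: compactly supported functions whose Fourier transform is comparable to the
weight `(1+|x|)^(-d-ε)` (helper72). -/

open MeasureTheory FourierTransform Real Convolution Metric SchwartzMap Filter Topology
open scoped ContDiff

noncomputable section

namespace Pool.Agent.Lib.MP_adb5ad_gt

namespace Slateraux

variable {d : ℕ}

/-- The Fourier transform of an even real function is real. -/
theorem ft_im_of_even {h : E d → ℝ} (he : ∀ x, h (-x) = h x) (y : E d) : (ft h y).im = 0 := by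
  rw [← Complex.conj_eq_iff_im]
  have h1 : ft h y = ∫ v, Complex.exp (((-2 * π * inner ℝ v y : ℝ) : ℂ) * Complex.I) • ((h v : ℝ) : ℂ) := by
    unfold ft
    rw [Real.fourier_eq']
  have h2 : ∫ v, Complex.exp (((-2 * π * inner ℝ v y : ℝ) : ℂ) * Complex.I) • ((h v : ℝ) : ℂ)
      = ∫ v, Complex.exp (((-2 * π * inner ℝ (-v) y : ℝ) : ℂ) * Complex.I) • ((h (-v) : ℝ) : ℂ) :=
    (integral_neg_eq_self (fun v => Complex.exp (((-2 * π * inner ℝ v y : ℝ) : ℂ) * Complex.I) •
      ((h v : ℝ) : ℂ)) volume).symm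
  rw [h1, ← integral_conj]
  rw [h2]
  congr 1
  ext v
  rw [he v]
  simp only [smul_eq_mul, map_mul]
  congr 1
  · rw [← Complex.exp_conj]
    congr 1
    simp only [map_mul, Complex.conj_ofReal, Complex.conj_I, inner_neg_left]
    push_cast
    ring
  · rw [Complex.conj_ofReal]

/-- The Fourier transform of an even function is even. -/
theorem ft_even {h : E d → ℝ} (he : ∀ x, h (-x) = h x) (y : E d) : ft h (-y) = ft h y := by
  have h1 : ∀ y, ft h y = ∫ v, Complex.exp (((-2 * π * inner ℝ v y : ℝ) : ℂ) * Complex.I) • ((h v : ℝ) : ℂ) := by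
    intro y
    unfold ft
    rw [Real.fourier_eq']
  rw [h1, h1, ← integral_neg_eq_self]
  congr 1
  ext v
  rw [he v, inner_neg_neg]

/-- The positive definite bump. -/
theorem bump (d : ℕ) (r : ℝ) (hr : 0 < r) (k : ℕ) : ∃ (φ : E d → ℝ) (G : E d → ℝ), Continuous φ ∧
    (∀ x, r ≤ ‖x‖ → φ x = 0) ∧ (∀ x, φ (-x) = φ x) ∧ (∀ y, ft φ y = ((G y : ℝ) : ℂ)) ∧
    (∀ y, 0 ≤ G y) ∧ 0 < G 0 ∧
    ∃ D : ℝ, 0 ≤ D ∧ ∀ x, G x ≤ D * ((1 + ‖x‖) ^ (2 * k))⁻¹ := by
  let ψ : ContDiffBump (0 : E d) := ⟨r / 4, r / 2, by positivity, by linarith⟩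
  let ψc : E d → ℂ := fun x => ((ψ x : ℝ) : ℂ)
  have hψcont : Continuous (ψ : E d → ℝ) := ψ.continuous
  have hψcs : HasCompactSupport (ψ : E d → ℝ) := ψ.hasCompactSupport
  have hψint : Integrable (ψ : E d → ℝ) := hψcont.integrable_of_hasCompactSupport hψcs
  have hsm : ContDiff ℝ ∞ ψc := Complex.ofRealCLM.contDiff.comp ψ.contDiff
  have hcs : HasCompactSupport ψc := hψcs.comp_left (g := Complex.ofReal) rfl
  have hintc : Integrable ψc := hψint.ofReal
  let S : 𝓢(E d, ℂ) := hcs.toSchwartzMap hsm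
  let FS : 𝓢(E d, ℂ) := 𝓕 S
  have hS : (FS : E d → ℂ) = 𝓕 ψc := by
    show ((𝓕 S : 𝓢(E d, ℂ)) : E d → ℂ) = _
    rw [SchwartzMap.fourier_coe]
    rfl
  have hreal : ∀ y, (𝓕 ψc y).im = 0 := fun y =>
    ft_im_of_even (h := (ψ : E d → ℝ)) (fun x => ContDiffBump.neg ψ x) y
  let φ : E d → ℝ := (ψ : E d → ℝ) ⋆[ContinuousLinearMap.mul ℝ ℝ, volume] (ψ : E d → ℝ)
  have hφ : ∀ x, φ x = ∫ t, ψ t * ψ (x - t) := fun x => rfl
  have hφc : (fun x => (φ x : ℂ)) = ψc ⋆[ContinuousLinearMap.mul ℂ ℂ, volume] ψc := by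
    ext x
    rw [hφ, ← integral_complex_ofReal]
    show _ = ∫ t, ψc t * ψc (x - t)
    congr 1
    ext t
    show ((ψ t * ψ (x - t) : ℝ) : ℂ) = ((ψ t : ℝ) : ℂ) * ((ψ (x - t) : ℝ) : ℂ)
    push_cast
    rfl
  have hft : ∀ y, ft φ y = (𝓕 ψc y) * (𝓕 ψc y) := by
    intro y
    show 𝓕 (fun x => (φ x : ℂ)) y = _
    rw [hφc]
    exact Real.fourier_mul_convolution_eq hintc hintc y
  have hsq : ∀ y, ft φ y = ((((𝓕 ψc y).re) ^ 2 : ℝ) : ℂ) := by
    intro y
    rw [hft y]
    have : 𝓕 ψc y = (((𝓕 ψc y).re : ℝ) : ℂ) := by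
      apply Complex.ext
      · simp
      · simp [hreal y]
    rw [this]
    push_cast
    simp only [Complex.ofReal_re]
    ring
  refine ⟨φ, fun y => ((𝓕 ψc y).re) ^ 2, ?_, ?_, ?_, hsq, fun y => sq_nonneg _, ?_, ?_⟩
  · exact hψcs.continuous_convolution_right _ hψint.locallyIntegrable hψcont
  · intro x hx
    by_contra hne
    have hmem : x ∈ Function.support φ := hne
    have := support_convolution_subset (L := ContinuousLinearMap.mul ℝ ℝ) hmem
    rw [ψ.support_eq] at this
    obtain ⟨a, ha, b, hb, hab⟩ := this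
    rw [mem_ball_zero_iff] at ha hb
    have h1 : ψ.rOut = r / 2 := rfl
    rw [h1] at ha hb
    have : ‖x‖ < r := by
      rw [← hab]
      calc ‖a + b‖ ≤ ‖a‖ + ‖b‖ := norm_add_le _ _
        _ < r := by linarith
    linarith
  · intro x
    rw [hφ, hφ, ← integral_neg_eq_self]
    congr 1
    ext t
    have e1 : ψ (-t) = ψ t := ContDiffBump.neg ψ t
    have e2 : ψ (-x - -t) = ψ (x - t) := by
      rw [show -x - -t = -(x - t) by abel]
      exact ContDiffBump.neg ψ (x - t)
    rw [e1, e2]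
  · have h0 : 𝓕 ψc 0 = ((∫ x, ψ x : ℝ) : ℂ) := by
      rw [Real.fourier_eq', ← integral_complex_ofReal]
      congr 1
      ext v
      simp [ψc]
    show 0 < ((𝓕 ψc 0).re) ^ 2
    rw [h0, Complex.ofReal_re]
    have := ψ.integral_pos (μ := (volume : Measure (E d)))
    positivity
  · obtain ⟨C0, hC0⟩ : ∃ C0 : ℝ, ∀ x, (1 + ‖x‖) ^ k * ‖𝓕 ψc x‖ ≤ C0 := by
      refine ⟨2 ^ k * (Finset.Iic ((k, 0) : ℕ × ℕ)).sup
        (fun m => SchwartzMap.seminorm ℝ m.1 m.2) FS, fun x => ?_⟩
      have := SchwartzMap.one_add_le_sup_seminorm_apply (𝕜 := ℝ) (m := (k, 0))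
        (k := k) (n := 0) le_rfl le_rfl FS x
      rw [norm_iteratedFDeriv_zero, hS] at this
      exact this
    have hC0' : 0 ≤ C0 := le_trans (by positivity) (hC0 0)
    refine ⟨C0 ^ 2, by positivity, fun x => ?_⟩
    have hpos : 0 < 1 + ‖x‖ := by linarith [norm_nonneg x]
    have hb : ‖𝓕 ψc x‖ ≤ C0 * ((1 + ‖x‖) ^ k)⁻¹ := by
      rw [← div_eq_mul_inv, le_div_iff₀ (by positivity), mul_comm]
      exact hC0 x
    calc ((𝓕 ψc x).re) ^ 2 = |(𝓕 ψc x).re| ^ 2 := (sq_abs _).symm
      _ ≤ ‖𝓕 ψc x‖ ^ 2 := pow_le_pow_left₀ (abs_nonneg _) (Complex.abs_re_le_norm _) 2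
      _ ≤ (C0 * ((1 + ‖x‖) ^ k)⁻¹) ^ 2 := pow_le_pow_left₀ (norm_nonneg _) hb 2
      _ = C0 ^ 2 * ((1 + ‖x‖) ^ (2 * k))⁻¹ := by
          rw [mul_pow, inv_pow, ← pow_mul, mul_comm k 2]

theorem wt_pos (d : ℕ) (ε : ℝ) (x : E d) : 0 < wt d ε x := by
  unfold wt
  have := norm_nonneg x
  positivity

theorem wt_cont (d : ℕ) (ε : ℝ) : Continuous (wt d ε) := by
  unfold wt
  apply Continuous.rpow_const (by fun_prop)
  intro x
  left
  have := norm_nonneg x
  positivity

theorem wt_neg (d : ℕ) (ε : ℝ) (x : E d) : wt d ε (-x) = wt d ε x := by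
  unfold wt
  rw [norm_neg]

theorem wt_int (d : ℕ) {ε : ℝ} (hε : 0 < ε) : Integrable (wt d ε) := by
  refine integrable_of_decay (C := 1) hε (wt_cont d ε) fun x => ?_
  rw [Real.norm_eq_abs, abs_of_pos (wt_pos d ε x), one_mul]
  rfl

/-- Fourier transform of a product with a Fourier transform. -/
theorem ft_mul {φ₀ W : E d → ℝ} (hφ : Integrable φ₀) (hW : Integrable W)
    (hWe : ∀ x, W (-x) = W x) (y : E d) :
    ft (fun x => φ₀ x * (ft W x).re) y = ∫ u, (W u : ℂ) * ft φ₀ (u + y) := by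
  have hreal : ∀ x, (((ft W x).re : ℝ) : ℂ) = ft W x := by
    intro x
    apply Complex.ext
    · simp
    · simp [ft_im_of_even hWe x]
  -- the modulated function
  have hg : Integrable (fun x : E d => Real.fourierChar (-(inner ℝ x y)) • ((φ₀ x : ℝ) : ℂ)) :=
    (Real.fourierIntegral_convergent_iff y).2 hφ.ofReal
  have key := VectorFourier.integral_fourierIntegral_smul_eq_flip (L := innerₗ (E d))
    (μ := (volume : Measure (E d))) (ν := (volume : Measure (E d)))
    (f := fun u => (W u : ℂ))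
    (g := fun x : E d => Real.fourierChar (-(inner ℝ x y)) • ((φ₀ x : ℝ) : ℂ))
    Real.continuous_fourierChar (by exact continuous_inner) hW.ofReal hg
  have e1 : ft (fun x => φ₀ x * (ft W x).re) y =
      ∫ ξ, (VectorFourier.fourierIntegral Real.fourierChar volume (innerₗ (E d))
        (fun u => (W u : ℂ)) ξ) • (Real.fourierChar (-(inner ℝ ξ y)) • ((φ₀ ξ : ℝ) : ℂ)) := by
    unfold ft
    rw [Real.fourier_eq]
    congr 1
    ext x
    have : VectorFourier.fourierIntegral Real.fourierChar volume (innerₗ (E d))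
        (fun u => (W u : ℂ)) x = ft W x := rfl
    rw [this]
    push_cast
    have h2 := hreal x
    unfold ft at h2 ⊢
    rw [h2]
    simp only [Circle.smul_def, smul_eq_mul]
    ring
  rw [e1, key]
  congr 1
  ext u
  rw [smul_eq_mul]
  congr 1
  unfold ft
  rw [Real.fourier_eq]
  show ∫ v, _ = _
  congr 1
  ext v
  simp only [Circle.smul_def, smul_eq_mul, ← mul_assoc]
  congr 1
  rw [← Circle.coe_mul, ← AddChar.map_add_eq_mul]
  congr 2
  rw [inner_add_right]
  have : (innerₗ (E d)).flip v u = inner ℝ v u := by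
    simp [real_inner_comm]
  rw [this]
  ring

end Slateraux

open Slateraux

theorem slaterStmt : SlaterStmt := by
  intro d ε r hε hr
  obtain ⟨k, hk⟩ := exists_nat_ge ((d : ℝ) + ε)
  obtain ⟨φ₀, G, hc, h0, he, hft, hG0, hGpos, D, hD0, hD⟩ := bump d r hr k
  have hint : Integrable φ₀ := integrable_of_compact hr hc h0
  have hWi := wt_int d hε
  have hGc : Continuous G := by
    have h1 := ft_continuous hint
    have h2 : G = fun y => (ft φ₀ y).re := by
      funext y
      rw [hft y, Complex.ofReal_re]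
    rw [h2]
    exact Complex.continuous_re.comp h1
  set I : E d → ℝ := fun y => ∫ u, wt d ε u * G (u + y) with hI
  have hmain : ∀ y, ft (fun x => φ₀ x * (ft (wt d ε) x).re) y = ((I y : ℝ) : ℂ) := by
    intro y
    rw [ft_mul hint hWi (wt_neg d ε) y, hI, ← integral_complex_ofReal]
    congr 1
    ext u
    rw [hft]
    push_cast
    rfl
  have hk' : (d : ℝ) + ε ≤ k := hk
  -- the decay of `G`
  have hGd : ∀ v, G v ≤ D * (wt d ε v * wt d ε v) := by
    intro v
    refine (hD v).trans (mul_le_mul_of_nonneg_left ?_ hD0)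
    have hb : 1 ≤ 1 + ‖v‖ := by linarith [norm_nonneg v]
    unfold wt
    rw [← Real.rpow_add (by linarith)]
    rw [show ((1 + ‖v‖) ^ (2 * k))⁻¹ = (1 + ‖v‖) ^ (-((2 * k : ℕ) : ℝ)) by
      rw [Real.rpow_neg (by linarith), Real.rpow_natCast]]
    apply Real.rpow_le_rpow_of_exponent_le hb
    push_cast
    linarith
  -- Peetre
  have hP : ∀ u y : E d, wt d ε u * wt d ε (u + y) ≤ wt d ε y := by
    intro u y
    unfold wt
    have h1 : 0 < 1 + ‖u‖ := by linarith [norm_nonneg u]
    have h2 : 0 < 1 + ‖u + y‖ := by linarith [norm_nonneg (u + y)]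
    have h3 : 0 < 1 + ‖y‖ := by linarith [norm_nonneg y]
    rw [← Real.mul_rpow h1.le h2.le]
    apply Real.rpow_le_rpow_of_nonpos h3
    · have h4 : ‖y‖ ≤ ‖u‖ + ‖u + y‖ := by
        have : y = (u + y) - u := by abel
        calc ‖y‖ = ‖(u + y) - u‖ := by rw [← this]
          _ ≤ ‖u + y‖ + ‖u‖ := norm_sub_le _ _
          _ = ‖u‖ + ‖u + y‖ := add_comm _ _
      nlinarith [norm_nonneg u, norm_nonneg (u + y)]
    · have : (0 : ℝ) ≤ d := Nat.cast_nonneg d
      linarith
  have hbound : ∀ u y : E d, wt d ε u * G (u + y) ≤ D * wt d ε y * wt d ε (u + y) := by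
    intro u y
    have h1 := hGd (u + y)
    have h2 := hP u y
    have h3 := (wt_pos d ε u).le
    have h4 := (wt_pos d ε (u + y)).le
    calc wt d ε u * G (u + y) ≤ wt d ε u * (D * (wt d ε (u + y) * wt d ε (u + y))) :=
          mul_le_mul_of_nonneg_left h1 h3
      _ = D * (wt d ε u * wt d ε (u + y)) * wt d ε (u + y) := by ring
      _ ≤ D * wt d ε y * wt d ε (u + y) :=
          mul_le_mul_of_nonneg_right (mul_le_mul_of_nonneg_left h2 hD0) h4
  have hintI : ∀ y, Integrable (fun u => wt d ε u * G (u + y)) := by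
    intro y
    refine Integrable.mono' (g := fun u => D * wt d ε y * wt d ε (u + y)) ?_ ?_ ?_
    · exact (hWi.comp_add_right y).const_mul _
    · exact ((wt_cont d ε).mul (hGc.comp (continuous_id.add continuous_const))).aestronglyMeasurable
    · refine Eventually.of_forall fun u => ?_
      rw [Real.norm_eq_abs, abs_of_nonneg (mul_nonneg (wt_pos d ε u).le (hG0 _))]
      exact hbound u y
  refine ⟨fun x => φ₀ x * (ft (wt d ε) x).re, ?_, ?_, ?_, ?_, ?_⟩
  · exact hc.mul (Complex.continuous_re.comp (ft_continuous hWi))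
  · intro x hx
    show φ₀ x * _ = 0
    rw [h0 x hx, zero_mul]
  · intro x
    show φ₀ (-x) * (ft (wt d ε) (-x)).re = _
    rw [he x, ft_even (wt_neg d ε)]
  · intro y
    rw [hmain y, Complex.ofReal_im]
  · -- the ball where `G` is large
    obtain ⟨ρ, hρ0, hρ1, hρ⟩ : ∃ ρ : ℝ, 0 < ρ ∧ ρ ≤ 1 ∧ ∀ v, ‖v‖ < ρ → G 0 / 2 ≤ G v := by
      have h1 : ∀ᶠ v in 𝓝 (0 : E d), G 0 / 2 < G v :=
        hGc.continuousAt.eventually (lt_mem_nhds (by linarith))
      obtain ⟨ρ, hρ, hb⟩ := Metric.eventually_nhds_iff.1 h1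
      refine ⟨min ρ 1, lt_min hρ one_pos, min_le_right _ _, fun v hv => ?_⟩
      refine (hb ?_).le
      rw [dist_zero_right]
      exact hv.trans_le (min_le_left _ _)
    set vol : ℝ := (volume (ball (0 : E d) ρ)).toReal with hvol
    have hvolpos : 0 < vol := by
      rw [hvol]
      exact ENNReal.toReal_pos (measure_ball_pos _ _ hρ0).ne' measure_ball_lt_top.ne
    refine ⟨G 0 / 2 * (2 : ℝ) ^ (-(d : ℝ) - ε) * vol, D * ∫ u, wt d ε u, by positivity,
      fun y => ?_⟩
    rw [hmain y, Complex.ofReal_re]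
    constructor
    · -- lower bound
      have hle : ∀ u, (ball (-y) ρ).indicator
          (fun _ => G 0 / 2 * ((2 : ℝ) ^ (-(d : ℝ) - ε) * wt d ε y)) u ≤
          wt d ε u * G (u + y) := by
        intro u
        by_cases hu : u ∈ ball (-y) ρ
        · rw [Set.indicator_of_mem hu]
          have hu' : ‖u + y‖ < ρ := by
            rw [mem_ball, dist_eq_norm] at hu
            rwa [sub_neg_eq_add] at hu
          have h1 := hρ _ hu'
          have h2 : (2 : ℝ) ^ (-(d : ℝ) - ε) * wt d ε y ≤ wt d ε u := by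
            unfold wt
            rw [← Real.mul_rpow (by norm_num) (by linarith [norm_nonneg y])]
            apply Real.rpow_le_rpow_of_nonpos (by linarith [norm_nonneg u])
            · have h3 : ‖u‖ ≤ ‖u + y‖ + ‖y‖ := by
                have : u = (u + y) - y := by abel
                calc ‖u‖ = ‖(u + y) - y‖ := by rw [← this]
                  _ ≤ ‖u + y‖ + ‖y‖ := norm_sub_le _ _
              have := norm_nonneg y
              linarith
            · have : (0 : ℝ) ≤ d := Nat.cast_nonneg d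
              linarith
          calc G 0 / 2 * ((2 : ℝ) ^ (-(d : ℝ) - ε) * wt d ε y)
              ≤ G (u + y) * wt d ε u := by
                apply mul_le_mul h1 h2
                · have := (wt_pos d ε y).le
                  positivity
                · exact hG0 _
            _ = wt d ε u * G (u + y) := mul_comm _ _
        · rw [Set.indicator_of_notMem hu]
          exact mul_nonneg (wt_pos d ε u).le (hG0 _)
      have hint1 : Integrable ((ball (-y) ρ).indicator
          (fun _ : E d => G 0 / 2 * ((2 : ℝ) ^ (-(d : ℝ) - ε) * wt d ε y))) := by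
        apply (integrable_indicator_iff measurableSet_ball).2
        exact integrableOn_const measure_ball_lt_top.ne
      have h5 := integral_mono hint1 (hintI y) hle
      rw [integral_indicator measurableSet_ball, setIntegral_const] at h5
      have h6 : volume.real (ball (-y) ρ) = vol := by
        rw [hvol, Measure.real, Measure.addHaar_ball_center]
      rw [h6, smul_eq_mul] at h5
      calc G 0 / 2 * (2 : ℝ) ^ (-(d : ℝ) - ε) * vol * wt d ε y
          = vol * (G 0 / 2 * ((2 : ℝ) ^ (-(d : ℝ) - ε) * wt d ε y)) := by ring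
        _ ≤ I y := h5
    · -- upper bound
      have h5 := integral_mono (hintI y) ((hWi.comp_add_right y).const_mul (D * wt d ε y))
        (fun u => hbound u y)
      rw [integral_const_mul, integral_add_right_eq_self (fun u => wt d ε u) y] at h5
      calc I y ≤ D * wt d ε y * ∫ u, wt d ε u := h5
        _ = (D * ∫ u, wt d ε u) * wt d ε y := by ring

end Pool.Agent.Lib.MP_adb5ad_gt
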