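import Mathlib
import Pool.Agent.Lib.MP_adb5ad_gt.Defs

/-!
MP_adb5ad_gt: decay of the averages of characters over the unit sphere.
-/

open MeasureTheory FourierTransform Real Set Filter Topology

noncomputable section

namespace Pool.Agent.Lib.MP_adb5ad_gt

namespace Sphere

/-- normalisation -/
def nrm {d : ℕ} (x : E d) : E d := ‖x‖⁻¹ • x

lemma measurable_nrm {d : ℕ} : Measurable (nrm : E d → E d) := by
  unfold nrm
  exact measurable_norm.inv.smul measurable_id

/-- the uniform measure of the unit ball -/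
def ballM (d : ℕ) : Measure (E d) :=
  (volume (Metric.ball (0 : E d) 1))⁻¹ • volume.restrict (Metric.ball 0 1)

instance (d : ℕ) : IsProbabilityMeasure (ballM d) := by
  constructor
  rw [ballM, Measure.smul_apply, Measure.restrict_apply_univ, smul_eq_mul]
  exact ENNReal.inv_mul_cancel (Metric.measure_ball_pos volume _ one_pos).ne'
    measure_ball_lt_top.ne

lemma ballM_ac (d : ℕ) : ballM d ≪ volume := by
  unfold ballM
  exact (Measure.absolutelyContinuous_of_le_smul (c := (volume (Metric.ball (0 : E d) 1))⁻¹)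
    (by
      refine Measure.le_iff.2 fun s hs => ?_
      simp only [Measure.smul_apply, smul_eq_mul]
      exact mul_le_mul_right (Measure.restrict_apply_le _ _) _))

/-- the uniform measure of the sphere -/
def sph (d : ℕ) : Measure (E d) := (ballM d).map nrm

instance (d : ℕ) : IsProbabilityMeasure (sph d) :=
  Measure.isProbabilityMeasure_map measurable_nrm.aemeasurable

lemma ballM_map {d : ℕ} (A : E d ≃ₗᵢ[ℝ] E d) : (ballM d).map A = ballM d := by
  have h1 : MeasurePreserving A volume volume := A.measurePreserving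
  have h2 : A ⁻¹' Metric.ball (0 : E d) 1 = Metric.ball 0 1 := by
    ext x
    simp
  have h3 := h1.restrict_preimage (s := Metric.ball (0 : E d) 1) measurableSet_ball
  rw [h2] at h3
  rw [ballM, Measure.map_smul, h3.map_eq]

lemma sph_map {d : ℕ} (A : E d ≃ₗᵢ[ℝ] E d) : (sph d).map A = sph d := by
  have hA : Measurable A := A.continuous.measurable
  rw [sph, Measure.map_map hA measurable_nrm]
  have : (A ∘ nrm : E d → E d) = nrm ∘ A := by
    funext x
    simp [nrm]
  rw [this, ← Measure.map_map measurable_nrm hA, ballM_map]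

/-- the average -/
def J {d : ℕ} (ξ : E d) : ℂ :=
  ∫ u, Complex.exp ((-2 * π * (inner ℝ u ξ : ℝ) : ℝ) * Complex.I) ∂(sph d)

lemma J_map {d : ℕ} (A : E d ≃ₗᵢ[ℝ] E d) (ξ : E d) : J (A ξ) = J ξ := by
  have h0 : J ξ = ∫ u, Complex.exp ((-2 * π * (inner ℝ u ξ : ℝ) : ℝ) * Complex.I)
      ∂((sph d).map A.symm) := by
    rw [sph_map]
    rfl
  rw [h0, integral_map_of_stronglyMeasurable A.symm.continuous.measurable]
  · unfold J
    congr 1
    funext u
    have : (inner ℝ u (A ξ) : ℝ) = inner ℝ (A.symm u) ξ := by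
      rw [← A.inner_map_map (A.symm u) ξ, A.apply_symm_apply]
    rw [this]
  · apply Continuous.stronglyMeasurable
    fun_prop

lemma J_im {d : ℕ} (ξ : E d) : (J ξ).im = 0 := by
  have h1 : J (-ξ) = J ξ := J_map (LinearIsometryEquiv.neg ℝ) ξ
  have h2 : J (-ξ) = (starRingEnd ℂ) (J ξ) := by
    unfold J
    rw [← integral_conj]
    congr 1
    funext u
    rw [← Complex.exp_conj, map_mul, Complex.conj_I, Complex.conj_ofReal, inner_neg_right]
    push_cast
    ring_nf
  rw [h1] at h2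
  have h3 := congrArg Complex.im h2
  rw [Complex.conj_im] at h3
  linarith

lemma J_norm {d : ℕ} {ξ ξ' : E d} (h : ‖ξ‖ = ‖ξ'‖) : J ξ = J ξ' := by
  have h1 := J_map (Submodule.reflection (ℝ ∙ (ξ - ξ'))ᗮ) ξ
  rw [Submodule.reflection_sub h] at h1
  exact h1.symm

/-- sections of the cone are null -/
lemma section_null {N : Set ℝ} (hN : volume N = 0) {c : ℝ} (hc : 0 < c) :
    volume {a : ℝ | a / √(a ^ 2 + c ^ 2) ∈ N} = 0 := by
  have h1 : {a : ℝ | a / √(a ^ 2 + c ^ 2) ∈ N} ⊆
      (fun v : ℝ => c * v / √(1 - v ^ 2)) '' (N ∩ Ioo (-1) 1) := by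
    intro a ha
    have h2 : 0 < a ^ 2 + c ^ 2 := by positivity
    have h3 : 0 < √(a ^ 2 + c ^ 2) := Real.sqrt_pos.2 h2
    have h4 : √(a ^ 2 + c ^ 2) ^ 2 = a ^ 2 + c ^ 2 := Real.sq_sqrt h2.le
    have h5 : |a| < √(a ^ 2 + c ^ 2) := by
      rw [← Real.sqrt_sq_eq_abs]
      exact Real.sqrt_lt_sqrt (sq_nonneg a) (by nlinarith [pow_pos hc 2])
    have h6 : |a / √(a ^ 2 + c ^ 2)| < 1 := by
      rw [abs_div, abs_of_pos h3, div_lt_one h3]
      exact h5
    refine ⟨a / √(a ^ 2 + c ^ 2), ⟨ha, abs_lt.1 h6⟩, ?_⟩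
    have h7 : 1 - (a / √(a ^ 2 + c ^ 2)) ^ 2 = (c / √(a ^ 2 + c ^ 2)) ^ 2 := by
      rw [div_pow, div_pow, h4]
      field_simp
      ring
    simp only
    rw [h7, Real.sqrt_sq (by positivity)]
    field_simp
  refine measure_mono_null h1 ?_
  apply addHaar_image_eq_zero_of_differentiableOn_of_addHaar_eq_zero
  · intro v hv
    obtain ⟨-, hv1, hv2⟩ := hv
    have h3 : 0 < 1 - v ^ 2 := by nlinarith
    apply DifferentiableAt.differentiableWithinAt
    apply DifferentiableAt.div
    · fun_prop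
    · apply DifferentiableAt.sqrt
      · fun_prop
      · exact h3.ne'
    · exact (Real.sqrt_pos.2 h3).ne'
  · exact measure_mono_null inter_subset_left hN

lemma norm_split {n : ℕ} (x : E (n + 2)) :
    ‖x‖ = √((x 0) ^ 2 + (√(∑ i : Fin (n + 1), (x i.succ) ^ 2)) ^ 2) := by
  rw [EuclideanSpace.norm_eq, Real.sq_sqrt (by positivity), Fin.sum_univ_succ]
  simp

lemma cone_null {n : ℕ} {N : Set ℝ} (hNm : MeasurableSet N) (hN : volume N = 0) :
    volume {x : E (n + 2) | x 0 / ‖x‖ ∈ N} = 0 := by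
  set T : Set (ℝ × (Fin (n + 1) → ℝ)) :=
    {z | z.1 / √(z.1 ^ 2 + (√(∑ i, (z.2 i) ^ 2)) ^ 2) ∈ N} with hT
  have hTm : MeasurableSet T := by
    have : Measurable fun z : ℝ × (Fin (n + 1) → ℝ) =>
        z.1 / √(z.1 ^ 2 + (√(∑ i, (z.2 i) ^ 2)) ^ 2) := by fun_prop
    exact this hNm
  have hT0 : (volume : Measure (ℝ × (Fin (n + 1) → ℝ))) T = 0 := by
    rw [Measure.volume_eq_prod, Measure.prod_apply_symm hTm]
    rw [lintegral_eq_zero_iff (measurable_measure_prodMk_right hTm)]
    have hne : ∀ᵐ y : Fin (n + 1) → ℝ, y ≠ 0 := by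
      rw [ae_iff]
      simp
    filter_upwards [hne] with y hy
    have hc : 0 < √(∑ i, (y i) ^ 2) := by
      apply Real.sqrt_pos.2
      obtain ⟨i, hi⟩ := Function.ne_iff.1 hy
      exact Finset.sum_pos' (fun j _ => sq_nonneg _) ⟨i, Finset.mem_univ _, by
        have : y i ≠ 0 := hi
        positivity⟩
    exact section_null hN hc
  have h1 : MeasurePreserving (fun x : E (n + 2) =>
      (MeasurableEquiv.piFinSuccAbove (fun _ => ℝ) 0) (WithLp.ofLp x)) volume volume :=
    (volume_preserving_piFinSuccAbove (fun _ : Fin (n + 2) => ℝ) 0).comp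
      (PiLp.volume_preserving_ofLp (Fin (n + 2)))
  have h2 : {x : E (n + 2) | x 0 / ‖x‖ ∈ N} = (fun x : E (n + 2) =>
      (MeasurableEquiv.piFinSuccAbove (fun _ => ℝ) 0) (WithLp.ofLp x)) ⁻¹' T := by
    ext x
    simp only [hT, mem_setOf_eq, mem_preimage]
    rw [norm_split]
    rfl
  rw [h2, h1.measure_preimage hTm.nullMeasurableSet, hT0]

/-- the law of the first coordinate -/
def law (n : ℕ) : Measure ℝ := (ballM (n + 2)).map fun x => x 0 / ‖x‖

lemma measurable_quot (n : ℕ) : Measurable fun x : E (n + 2) => x 0 / ‖x‖ := by fun_prop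

instance (n : ℕ) : IsProbabilityMeasure (law n) :=
  Measure.isProbabilityMeasure_map (measurable_quot n).aemeasurable

lemma law_ac (n : ℕ) : law n ≪ volume := by
  refine Measure.AbsolutelyContinuous.mk fun N hNm hN => ?_
  rw [law, Measure.map_apply (measurable_quot n) hNm]
  exact ballM_ac (n + 2) (cone_null hNm hN)

lemma J_axis (n : ℕ) (t : ℝ) :
    J (t • (EuclideanSpace.single (0 : Fin (n + 2)) (1 : ℝ))) =
      ∫ v : ℝ, 𝐞 (-(v * t)) • (((law n).rnDeriv volume v).toReal : ℂ) := by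
  have h1 : J (t • (EuclideanSpace.single (0 : Fin (n + 2)) (1 : ℝ))) =
      ∫ v, Complex.exp ((-2 * π * (v * t) : ℝ) * Complex.I) ∂(law n) := by
    unfold J sph law
    rw [integral_map_of_stronglyMeasurable measurable_nrm
      (by apply Continuous.stronglyMeasurable; fun_prop),
      integral_map_of_stronglyMeasurable (measurable_quot n)
      (by apply Continuous.stronglyMeasurable; fun_prop)]
    congr 1
    funext x
    have : (inner ℝ (nrm x) (t • (EuclideanSpace.single (0 : Fin (n + 2)) (1 : ℝ))) : ℝ) =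
        x 0 / ‖x‖ * t := by
      rw [inner_smul_right, EuclideanSpace.inner_single_right]
      simp [nrm]
      ring
    rw [this]
  rw [h1, ← integral_rnDeriv_smul (law_ac n)]
  congr 1
  funext v
  rw [Circle.smul_def, Real.fourierChar_apply, smul_eq_mul, Complex.real_smul, mul_comm]
  congr 2
  push_cast
  ring

lemma J_decay {d : ℕ} (hd : 2 ≤ d) (η : ℝ) (hη : 0 < η) :
    ∃ t : ℝ, 0 < t ∧ ∀ ξ : E d, t ≤ ‖ξ‖ → ‖J ξ‖ ≤ η := by
  obtain ⟨n, rfl⟩ : ∃ n, d = n + 2 := ⟨d - 2, by omega⟩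
  have h1 := Real.tendsto_integral_exp_smul_cocompact
    (fun v : ℝ => (((law n).rnDeriv volume v).toReal : ℂ))
  have h2 : Tendsto (fun w : ℝ => ∫ v : ℝ, 𝐞 (-(v * w)) • (((law n).rnDeriv volume v).toReal : ℂ))
      atTop (𝓝 0) := h1.mono_left (by rw [cocompact_eq_atBot_atTop]; exact le_sup_right)
  have h3 := (h2.norm.eventually_le_const (u := η) (by simpa using hη))
  obtain ⟨t, ht⟩ := eventually_atTop.1 h3
  refine ⟨max t 1, by positivity, fun ξ hξ => ?_⟩
  have h4 : J ξ = J (‖ξ‖ • (EuclideanSpace.single (0 : Fin (n + 2)) (1 : ℝ))) := by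
    apply J_norm
    rw [norm_smul]
    simp
  rw [h4, J_axis]
  exact ht _ ((le_max_left _ _).trans hξ)

lemma sph_norm {d : ℕ} (hd : 0 < d) : ∀ᵐ u ∂(sph d), ‖u‖ = 1 := by
  have hm : MeasurableSet {u : E d | ‖u‖ = 1} := measurable_norm (measurableSet_singleton 1)
  rw [sph, ae_map_iff measurable_nrm.aemeasurable hm]
  haveI : Nonempty (Fin d) := ⟨⟨0, hd⟩⟩
  have h0 : ∀ᵐ x : E d, x ≠ 0 := by
    rw [ae_iff]
    simp
  filter_upwards [(ballM_ac d).ae_le h0] with x hx
  rw [nrm, norm_smul, norm_inv, norm_norm]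
  exact inv_mul_cancel₀ (norm_ne_zero_iff.2 hx)

end Sphere

theorem sphereStmt : SphereStmt := by
  intro d hd
  exact ⟨Sphere.sph d, inferInstance, Sphere.sph_norm (by omega), Sphere.J_im,
    Sphere.J_decay hd⟩

end Pool.Agent.Lib.MP_adb5ad_gt
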