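import Pool.Agent.Lib.MP_adb5ad_gt.LTMeas

open MeasureTheory FourierTransform Real Filter Topology Set

noncomputable section

namespace Pool.Agent.Lib.MP_adb5ad_gt

theorem lintegral_biUnion_le (F : ℝ → ENNReal) (R : ℕ → Set ℝ) (s : Finset ℕ) :
    ∫⁻ v in ⋃ j ∈ s, R j, F v ≤ ∑ j ∈ s, ∫⁻ v in R j, F v := by
  classical
  induction s using Finset.induction_on with
  | empty => simp
  | insert a s ha ih =>
    rw [Finset.set_biUnion_insert, Finset.sum_insert ha]
    exact (lintegral_union_le F _ _).trans (add_le_add le_rfl ih)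

theorem dyadic_cover {t₀ V : ℝ} (ht₀ : 0 < t₀) (hV : 0 < V) (hV4 : V ≤ 1 / 4) (v : ℝ) :
    |v| ≤ t₀ ∨ (∃ j ∈ {j ∈ Finset.range (Nat.ceil (1 / t₀) + 1) | 2 ^ j * t₀ ≤ V},
      2 ^ j * t₀ ≤ |v| ∧ |v| ≤ 2 * (2 ^ j * t₀)) ∨ V ≤ |v| := by
  by_cases h1 : |v| ≤ t₀
  · exact Or.inl h1
  by_cases h2 : V ≤ |v|
  · exact Or.inr (Or.inr h2)
  right; left
  have h1' := not_le.1 h1
  have h2' := not_le.1 h2
  have hex : ∃ n : ℕ, |v| ≤ 2 * (2 ^ n * t₀) := by
    obtain ⟨n, hn⟩ := pow_unbounded_of_one_lt (|v| / t₀) (one_lt_two : (1 : ℝ) < 2)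
    refine ⟨n, ?_⟩
    have : |v| ≤ 2 ^ n * t₀ := by
      rw [div_lt_iff₀ ht₀] at hn
      exact hn.le
    have h3 : 0 < 2 ^ n * t₀ := by positivity
    linarith
  classical
  set n := Nat.find hex with hn
  have hn1 := Nat.find_spec hex
  have hn2 : 2 ^ n * t₀ ≤ |v| := by
    rcases Nat.eq_zero_or_pos n with h0 | h0
    · rw [h0]
      linarith
    · obtain ⟨m, hm⟩ := Nat.exists_eq_succ_of_ne_zero h0.ne'
      have := Nat.find_min hex (m := m) (by rw [← hn, hm]; exact Nat.lt_succ_self m)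
      rw [hm]
      push Not at this
      rw [Nat.succ_eq_add_one, pow_succ]
      linarith
  refine ⟨n, ?_, hn2, hn1⟩
  rw [Finset.mem_filter, Finset.mem_range]
  refine ⟨?_, by linarith⟩
  have h3 : (n : ℝ) ≤ 2 ^ n := by
    have := Nat.lt_two_pow_self (n := n)
    exact_mod_cast this.le
  have h4 : (2 : ℝ) ^ n * t₀ ≤ 1 := by linarith
  have h5 : (n : ℝ) ≤ 1 / t₀ := by
    rw [le_div_iff₀ ht₀]
    calc (n : ℝ) * t₀ ≤ 2 ^ n * t₀ := mul_le_mul_of_nonneg_right h3 ht₀.le
      _ ≤ 1 := h4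
  have h6 : (n : ℝ) ≤ (Nat.ceil (1 / t₀) : ℝ) := h5.trans (Nat.le_ceil _)
  have h7 : n ≤ Nat.ceil (1 / t₀) := by exact_mod_cast h6
  omega

theorem splitStmt (h6 : MeanSquareStmt) (h8 : PieceStmt) : SplitStmt := by
  intro k C₀ μ ν hk hT hμC hνC t₀ U V ht₀ ht₁ hU hU2 hV hV4
  obtain ⟨-, hP2, hP3, -⟩ := h6 μ hT.neg₁ hT.int₁
  haveI := hT.sfinite₁
  have hνC' : LTr ν 1 ≤ C₀ := by
    refine le_trans (le_of_eq ?_) hνC
    unfold LTr
    simp
  have hC₀ : 1 ≤ C₀ := (hT.symm.one_le one_pos).trans hνC'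
  set J := {j ∈ Finset.range (Nat.ceil (1 / t₀) + 1) | 2 ^ j * t₀ ≤ V} with hJ
  set R : ℕ → Set ℝ := fun j => {v : ℝ | 2 ^ j * t₀ ≤ |v| ∧ |v| ≤ 2 * (2 ^ j * t₀)} with hR
  set G : ℝ → ℝ → ENNReal := fun t v => ENNReal.ofReal (‖LT μ (t + v * Complex.I)‖ ^ 2) with hG
  set F : ℝ → ℝ → ENNReal := fun t v =>
    ENNReal.ofReal (‖LT μ (t + v * Complex.I)‖ ^ 2 * Real.exp (-π * v ^ 2 / U ^ 2)) with hF
  set e := Real.exp (-π * V ^ 2 / (2 * U ^ 2)) with he
  set B := C₀ * (t₀ / 2) ^ (-k) with hB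
  have hBpos : 0 ≤ B := by positivity
  have hGm : Measurable (Function.uncurry G) := by
    have h1 : Measurable (fun p : ℝ × ℝ => ((p.1 : ℂ) + p.2 * Complex.I)) := by fun_prop
    have h2 : Measurable (fun p : ℝ × ℝ => LT μ ((p.1 : ℂ) + p.2 * Complex.I)) :=
      measurable_LT.comp h1
    exact (h2.norm.pow_const 2).ennreal_ofReal
  have hFG : ∀ t v, F t v ≤ G t v := by
    intro t v
    apply ENNReal.ofReal_le_ofReal
    have h1 : Real.exp (-π * v ^ 2 / U ^ 2) ≤ 1 := by
      apply Real.exp_le_one_iff.2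
      apply div_nonpos_of_nonpos_of_nonneg _ (by positivity)
      have : 0 ≤ π * v ^ 2 := by positivity
      linarith
    calc _ ≤ ‖LT μ (t + v * Complex.I)‖ ^ 2 * 1 :=
          mul_le_mul_of_nonneg_left h1 (by positivity)
      _ = _ := mul_one _
  -- bound of the inner integral
  have hinner : ∀ t ∈ Icc (t₀ / 2) t₀, ∫⁻ v, F t v ≤
      ENNReal.ofReal (B ^ 2 * (2 * t₀)) + (∑ j ∈ J, ∫⁻ v in R j, G t v) +
        ENNReal.ofReal e * msq μ (t₀ / 2) := by
    intro t ht
    have htpos : 0 < t := lt_of_lt_of_le (by positivity) ht.1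
    have hLT : LTr μ t ≤ B := by
      refine (hT.LTr_le htpos (ht.2.trans ht₁)).trans ?_
      rw [hB]
      apply mul_le_mul hνC' _ (by positivity) (by linarith)
      exact Real.rpow_le_rpow_of_nonpos (by positivity) ht.1 (by linarith)
    have hcov : (univ : Set ℝ) ⊆ ({v | |v| ≤ t₀} ∪ ⋃ j ∈ J, R j) ∪ {v | V ≤ |v|} := by
      intro v _
      rcases dyadic_cover ht₀ hV hV4 v with h | h | h
      · exact Or.inl (Or.inl h)
      · obtain ⟨j, hj, h1, h2⟩ := h
        refine Or.inl (Or.inr ?_)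
        simp only [mem_iUnion]
        exact ⟨j, hj, h1, h2⟩
      · exact Or.inr h
    have e1 : ∫⁻ v, F t v ≤ (∫⁻ v in {v | |v| ≤ t₀}, F t v) + (∫⁻ v in ⋃ j ∈ J, R j, F t v) +
        ∫⁻ v in {v | V ≤ |v|}, F t v := by
      calc ∫⁻ v, F t v = ∫⁻ v in univ, F t v := by rw [Measure.restrict_univ]
        _ ≤ ∫⁻ v in ({v | |v| ≤ t₀} ∪ ⋃ j ∈ J, R j) ∪ {v | V ≤ |v|}, F t v :=
            lintegral_mono_set hcov
        _ ≤ _ := (lintegral_union_le _ _ _).trans (add_le_add (lintegral_union_le _ _ _) le_rfl)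
    refine e1.trans (add_le_add (add_le_add ?_ ?_) ?_)
    · calc ∫⁻ v in {v | |v| ≤ t₀}, F t v ≤ ∫⁻ _ in {v : ℝ | |v| ≤ t₀}, ENNReal.ofReal (B ^ 2) := by
            apply lintegral_mono
            intro v
            refine (hFG t v).trans (ENNReal.ofReal_le_ofReal ?_)
            exact pow_le_pow_left₀ (norm_nonneg _) ((norm_LT_le μ t v).trans hLT) 2
        _ = ENNReal.ofReal (B ^ 2 * (2 * t₀)) := by
            rw [setLIntegral_const]
            have : {v : ℝ | |v| ≤ t₀} = Icc (-t₀) t₀ := by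
              ext v
              simp [abs_le]
            rw [this, Real.volume_Icc, ← ENNReal.ofReal_mul (by positivity)]
            congr 1
            ring
    · refine (lintegral_biUnion_le _ _ _).trans (Finset.sum_le_sum fun j _ => ?_)
      exact lintegral_mono fun v => hFG t v
    · have hmeas : MeasurableSet {v : ℝ | V ≤ |v|} := measurableSet_le measurable_const (by fun_prop)
      calc ∫⁻ v in {v | V ≤ |v|}, F t v ≤
            ∫⁻ v in {v | V ≤ |v|}, ENNReal.ofReal e *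
              ENNReal.ofReal (‖LT μ (t + v * Complex.I)‖ ^ 2 * Real.exp (-π * v ^ 2)) := by
            apply setLIntegral_mono' hmeas
            intro v hv
            rw [← ENNReal.ofReal_mul (Real.exp_pos _).le]
            apply ENNReal.ofReal_le_ofReal
            have h1 : Real.exp (-π * v ^ 2 / U ^ 2) ≤ e * Real.exp (-π * v ^ 2) := by
              rw [he, ← Real.exp_add]
              apply Real.exp_le_exp.2
              have hv2 : V ^ 2 ≤ v ^ 2 := by
                rw [← sq_abs v]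
                exact pow_le_pow_left₀ hV.le hv 2
              have hU1 : 1 ≤ 1 / (2 * U ^ 2) := by
                rw [le_div_iff₀ (by positivity)]
                nlinarith
              have h2 : π * V ^ 2 / (2 * U ^ 2) ≤ π * v ^ 2 / (2 * U ^ 2) :=
                div_le_div_of_nonneg_right (mul_le_mul_of_nonneg_left hv2 Real.pi_pos.le)
                  (by positivity)
              have h3 : π * v ^ 2 * 1 ≤ π * v ^ 2 * (1 / (2 * U ^ 2)) :=
                mul_le_mul_of_nonneg_left hU1 (by positivity)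
              have h4 : π * v ^ 2 * (1 / (2 * U ^ 2)) = π * v ^ 2 / (2 * U ^ 2) := by ring
              have h5 : -π * v ^ 2 / U ^ 2 = -(π * v ^ 2 / (2 * U ^ 2)) - π * v ^ 2 / (2 * U ^ 2) := by
                field_simp
                ring
              have h6 : -π * V ^ 2 / (2 * U ^ 2) = -(π * V ^ 2 / (2 * U ^ 2)) := by ring
              rw [h5, h6]
              linarith
            calc ‖LT μ (t + v * Complex.I)‖ ^ 2 * Real.exp (-π * v ^ 2 / U ^ 2) ≤
                ‖LT μ (t + v * Complex.I)‖ ^ 2 * (e * Real.exp (-π * v ^ 2)) :=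
                  mul_le_mul_of_nonneg_left h1 (by positivity)
              _ = _ := by ring
        _ ≤ ∫⁻ v : ℝ, ENNReal.ofReal e *
              ENNReal.ofReal (‖LT μ (t + v * Complex.I)‖ ^ 2 * Real.exp (-π * v ^ 2)) :=
            setLIntegral_le_lintegral _ _
        _ = ENNReal.ofReal e * msq μ t := by
            rw [lintegral_const_mul' _ _ ENNReal.ofReal_ne_top]
            rfl
        _ ≤ ENNReal.ofReal e * msq μ (t₀ / 2) :=
            mul_le_mul_right (hP3 (t₀ / 2) t (by positivity) ht.1) _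
  have hvol : volume (Icc (t₀ / 2) t₀) = ENNReal.ofReal (t₀ / 2) := by
    rw [Real.volume_Icc]
    congr 1
    ring
  have hbm : ∀ j, Measurable fun t => ∫⁻ v in R j, G t v := fun j => hGm.lintegral_prod_right'
  have hA : ENNReal.ofReal (t₀ / 2) * msq μ t₀ ≤ ENNReal.ofReal U⁻¹ *
      (ENNReal.ofReal (B ^ 2 * (2 * t₀)) * ENNReal.ofReal (t₀ / 2) +
        (∑ j ∈ J, ENNReal.ofReal (1000 * t₀ * (2 ^ j * t₀) ^ (1 - 2 * k)) *
          msq ν (t₀ / (10 * (2 ^ j * t₀) ^ 2))) +
        ENNReal.ofReal e * msq μ (t₀ / 2) * ENNReal.ofReal (t₀ / 2)) := by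
    calc ENNReal.ofReal (t₀ / 2) * msq μ t₀ = ∫⁻ _ in Icc (t₀ / 2) t₀, msq μ t₀ := by
          rw [setLIntegral_const, hvol, mul_comm]
      _ ≤ ∫⁻ t in Icc (t₀ / 2) t₀, ENNReal.ofReal U⁻¹ *
          (ENNReal.ofReal (B ^ 2 * (2 * t₀)) + (∑ j ∈ J, ∫⁻ v in R j, G t v) +
            ENNReal.ofReal e * msq μ (t₀ / 2)) := by
          apply setLIntegral_mono' measurableSet_Icc
          intro t ht
          have htpos : 0 < t := lt_of_lt_of_le (by positivity) ht.1
          refine (hP3 t t₀ htpos ht.2).trans ((hP2 t U htpos hU (by linarith)).trans ?_)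
          exact mul_le_mul_right (hinner t ht) _
      _ = ENNReal.ofReal U⁻¹ * (ENNReal.ofReal (B ^ 2 * (2 * t₀)) * ENNReal.ofReal (t₀ / 2) +
          (∑ j ∈ J, ∫⁻ t in Icc (t₀ / 2) t₀, ∫⁻ v in R j, G t v) +
          ENNReal.ofReal e * msq μ (t₀ / 2) * ENNReal.ofReal (t₀ / 2)) := by
          rw [lintegral_const_mul' _ _ ENNReal.ofReal_ne_top,
            lintegral_add_right _ measurable_const, lintegral_add_left measurable_const,
            setLIntegral_const, setLIntegral_const, hvol,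
            lintegral_finsetSum _ fun j _ => hbm j]
      _ ≤ _ := by
          apply mul_le_mul_right
          apply add_le_add (add_le_add le_rfl _) le_rfl
          apply Finset.sum_le_sum
          intro j hj
          have hjV : 2 ^ j * t₀ ≤ V := (Finset.mem_filter.1 hj).2
          have h1 : t₀ ≤ 2 ^ j * t₀ := by
            have : (1 : ℝ) ≤ 2 ^ j := one_le_pow₀ (by norm_num)
            nlinarith
          exact h8 k μ ν (by linarith) hT t₀ (2 ^ j * t₀) ht₀ h1 (by linarith)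
  have hfin : msq μ t₀ = ENNReal.ofReal (2 / t₀) * (ENNReal.ofReal (t₀ / 2) * msq μ t₀) := by
    rw [← mul_assoc, ← ENNReal.ofReal_mul (by positivity)]
    have : 2 / t₀ * (t₀ / 2) = 1 := by field_simp
    rw [this]
    simp
  rw [hfin]
  refine (mul_le_mul_right hA _).trans (le_of_eq ?_)
  rw [← mul_assoc, ← ENNReal.ofReal_mul (by positivity), mul_add, mul_add, Finset.mul_sum]
  congr 1
  · congr 1
    · rw [← ENNReal.ofReal_mul (by positivity), ← ENNReal.ofReal_mul (by positivity)]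
      congr 1
      rw [hB]
      have h1 : (C₀ * (t₀ / 2) ^ (-k)) ^ 2 = C₀ ^ 2 * (4 ^ k * (t₀ ^ (1 - 2 * k) / t₀)) := by
        rw [mul_pow]
        congr 1
        rw [← Real.rpow_natCast ((t₀ / 2) ^ (-k)) 2, ← Real.rpow_mul (by positivity),
          Real.div_rpow ht₀.le (by norm_num)]
        have e1 : (2 : ℝ) ^ (-k * ((2 : ℕ) : ℝ)) = (4 ^ k)⁻¹ := by
          rw [show (4 : ℝ) = 2 ^ (2 : ℝ) by norm_num, ← Real.rpow_mul (by norm_num),
            ← Real.rpow_neg (by norm_num)]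
          congr 1
          push_cast
          ring
        have e2 : t₀ ^ (-k * ((2 : ℕ) : ℝ)) = t₀ ^ (1 - 2 * k) / t₀ := by
          rw [div_eq_mul_inv, ← Real.rpow_neg_one t₀, ← Real.rpow_add ht₀]
          congr 1
          push_cast
          ring
        rw [e1, e2, div_inv_eq_mul, mul_comm]
      rw [h1]
      field_simp
    · apply Finset.sum_congr rfl
      intro j _
      rw [← mul_assoc, ← ENNReal.ofReal_mul (by positivity)]
      congr 2
      field_simp
      norm_num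
  · rw [mul_comm (ENNReal.ofReal e * msq μ (t₀ / 2)), ← mul_assoc, ← mul_assoc,
      ← ENNReal.ofReal_mul (by positivity), ← ENNReal.ofReal_mul (by positivity)]
    congr 2
    field_simp

end Pool.Agent.Lib.MP_adb5ad_gt
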