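import Pool.Agent.Lib.MP_adb5ad_gt.LTBasic

open MeasureTheory FourierTransform Real Filter Topology Set

noncomputable section

namespace Pool.Agent.Lib.MP_adb5ad_gt

/-- Sum of the negative powers. -/
theorem sum_neg_pow {k t : ℝ} (hk : 3 / 2 ≤ k) (ht : 0 < t) (n : ℕ) (p : ℕ → Prop)
    [DecidablePred p] :
    ∑ j ∈ Finset.range n with p j, (2 ^ j * t) ^ (1 - 2 * k) ≤ 2 * t ^ (1 - 2 * k) := by
  have hpos : 0 < t ^ (1 - 2 * k) := Real.rpow_pos_of_pos ht _
  calc ∑ j ∈ Finset.range n with p j, (2 ^ j * t) ^ (1 - 2 * k)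
      ≤ ∑ j ∈ Finset.range n, (2 ^ j * t) ^ (1 - 2 * k) :=
        Finset.sum_le_sum_of_subset_of_nonneg (Finset.filter_subset _ _) fun j _ _ => by positivity
    _ ≤ ∑ j ∈ Finset.range n, (1 / 2 : ℝ) ^ j * t ^ (1 - 2 * k) := by
        apply Finset.sum_le_sum
        intro j _
        rw [Real.mul_rpow (by positivity) ht.le]
        apply mul_le_mul_of_nonneg_right _ hpos.le
        rw [← Real.rpow_natCast 2 j, ← Real.rpow_mul (by norm_num), mul_comm, Real.rpow_mul (by norm_num),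
          Real.rpow_natCast]
        apply pow_le_pow_left₀ (by positivity)
        calc (2 : ℝ) ^ (1 - 2 * k) ≤ 2 ^ (-1 : ℝ) :=
              Real.rpow_le_rpow_of_exponent_le (by norm_num) (by linarith)
          _ = 1 / 2 := by rw [Real.rpow_neg_one]; norm_num
    _ = (∑ j ∈ Finset.range n, (1 / 2 : ℝ) ^ j) * t ^ (1 - 2 * k) := by rw [Finset.sum_mul]
    _ ≤ 2 * t ^ (1 - 2 * k) := by
        apply mul_le_mul_of_nonneg_right _ hpos.le
        have := sum_geometric_two_le n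
        simpa using this

/-- Sum of the positive powers. -/
theorem sum_pos_pow {q t V : ℝ} (hq : 1 ≤ q) (ht : 0 < t) (hV : 0 < V) (n : ℕ) :
    ∑ j ∈ Finset.range n with 2 ^ j * t ≤ V, (2 ^ j * t) ^ q ≤ 2 * V ^ q ∧
    ∑ j ∈ Finset.range n with 2 ^ j * t ≤ V, (2 ^ j * t) ^ q ≤ 2 * (2 ^ n * t / 2) ^ q := by
  induction n with
  | zero =>
    simp only [Finset.range_zero, Finset.filter_empty, Finset.sum_empty]
    constructor <;> positivity
  | succ n ih =>
    rw [Finset.range_add_one, Finset.filter_insert]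
    have hhalf : (2 ^ n * t / 2) ^ q ≤ (2 ^ n * t) ^ q / 2 := by
      rw [Real.div_rpow (by positivity) (by norm_num)]
      apply div_le_div_of_nonneg_left (by positivity) (by norm_num)
      calc (2 : ℝ) = 2 ^ (1 : ℝ) := (Real.rpow_one 2).symm
        _ ≤ 2 ^ q := Real.rpow_le_rpow_of_exponent_le (by norm_num) hq
    have hsucc : (2 : ℝ) ^ (n + 1) * t / 2 = 2 ^ n * t := by ring
    split_ifs with hc
    · rw [Finset.sum_insert (by simp)]
      have h1 : (2 ^ n * t) ^ q + ∑ j ∈ Finset.range n with 2 ^ j * t ≤ V, (2 ^ j * t) ^ q ≤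
          2 * (2 ^ n * t) ^ q := by
        have := ih.2
        linarith
      constructor
      · refine h1.trans ?_
        apply mul_le_mul_of_nonneg_left _ (by norm_num)
        exact Real.rpow_le_rpow (by positivity) hc (by linarith)
      · rw [hsucc]
        exact h1
    · refine ⟨ih.1, ih.2.trans ?_⟩
      rw [hsucc]
      apply mul_le_mul_of_nonneg_left _ (by norm_num)
      apply Real.rpow_le_rpow (by positivity) _ (by linarith)
      have : 0 < (2 : ℝ) ^ n * t := by positivity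
      linarith

theorem exp_bound {s : ℝ} (hs : 0 < s) :
    (s ^ 4)⁻¹ * Real.exp (-π * (s ^ 3) ^ 2 / (2 * (s ^ 4) ^ 2)) ≤ 2 * s ^ 2 := by
  have e1 : -π * (s ^ 3) ^ 2 / (2 * (s ^ 4) ^ 2) = -(π / (2 * s ^ 2)) := by
    field_simp
  rw [e1, Real.exp_neg]
  set x := π / (2 * s ^ 2) with hx
  have hxpos : 0 < x := by positivity
  have h1 : x ^ 3 / 6 ≤ Real.exp x := by
    have := Real.pow_div_factorial_le_exp x hxpos.le 3
    norm_num [Nat.factorial] at this
    exact this
  have h2 : 3 / (2 * s ^ 2) ≤ x := by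
    rw [hx]
    apply div_le_div_of_nonneg_right Real.pi_gt_three.le (by positivity)
  have h3 : (3 / (2 * s ^ 2)) ^ 3 / 6 ≤ Real.exp x := by
    refine le_trans ?_ h1
    apply div_le_div_of_nonneg_right _ (by norm_num)
    exact pow_le_pow_left₀ (by positivity) h2 3
  have h4 : (Real.exp x)⁻¹ ≤ ((3 / (2 * s ^ 2)) ^ 3 / 6)⁻¹ :=
    inv_anti₀ (by positivity) h3
  calc (s ^ 4)⁻¹ * (Real.exp x)⁻¹ ≤ (s ^ 4)⁻¹ * ((3 / (2 * s ^ 2)) ^ 3 / 6)⁻¹ :=
        mul_le_mul_of_nonneg_left h4 (by positivity)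
    _ = 48 / 27 * s ^ 2 := by
        field_simp
        norm_num
    _ ≤ 2 * s ^ 2 := by
        have : 0 < s ^ 2 := by positivity
        nlinarith

theorem stepStmt (h6 : MeanSquareStmt) (h9 : SplitStmt) : StepStmt := by
  intro k C₀ hk
  set T := (10 : ℝ) ^ (2 * k - 1) with hT
  have hTpos : 0 < T := by positivity
  have hT1 : 1 ≤ T := Real.one_le_rpow (by norm_num) (by linarith)
  set s := 1 / (32000 * T) with hs
  have hspos : 0 < s := by positivity
  have hs1 : s ≤ 1 / 32000 := by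
    rw [hs]
    apply div_le_div_of_nonneg_left (by norm_num) (by norm_num)
    linarith
  have hs1' : s ≤ 1 := by linarith
  have hssq : s ^ 2 ≤ s := by nlinarith
  set U := s ^ 4 with hU
  set V := s ^ 3 with hV
  have hUpos : 0 < U := by positivity
  have hVpos : 0 < V := by positivity
  have hU2 : U ≤ 1 / 2 := by
    calc s ^ 4 ≤ s := by
          calc s ^ 4 = s * s ^ 3 := by ring
            _ ≤ s * 1 := mul_le_mul_of_nonneg_left (pow_le_one₀ hspos.le hs1') hspos.le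
            _ = s := mul_one s
      _ ≤ 1 / 2 := by linarith
  have hV4 : V ≤ 1 / 4 := by
    calc s ^ 3 ≤ s := by
          calc s ^ 3 = s * s ^ 2 := by ring
            _ ≤ s * 1 := mul_le_mul_of_nonneg_left (pow_le_one₀ hspos.le hs1') hspos.le
            _ = s := mul_one s
      _ ≤ 1 / 4 := by linarith
  -- the two smallness conditions
  have hsm1 : 4000 / U * (T * V ^ (2 * k - 1)) ≤ 1 / 8 := by
    have h1 : V ^ (2 * k - 1) ≤ V ^ (2 : ℝ) :=
      Real.rpow_le_rpow_of_exponent_ge hVpos (by linarith) (by linarith)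
    have h2 : V ^ (2 : ℝ) = s ^ 6 := by
      rw [show (2 : ℝ) = ((2 : ℕ) : ℝ) by norm_num, Real.rpow_natCast, hV]
      ring
    rw [h2] at h1
    calc 4000 / U * (T * V ^ (2 * k - 1)) ≤ 4000 / U * (T * s ^ 6) := by
          apply mul_le_mul_of_nonneg_left _ (by positivity)
          exact mul_le_mul_of_nonneg_left h1 hTpos.le
      _ = 4000 * T * s ^ 2 := by
          rw [hU]
          field_simp
      _ ≤ 4000 * T * s := mul_le_mul_of_nonneg_left hssq (by positivity)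
      _ = 1 / 8 := by
          rw [hs]
          field_simp
          norm_num
  have hsm2 : U⁻¹ * Real.exp (-π * V ^ 2 / (2 * U ^ 2)) * 2 ^ (2 * k - 1) ≤ 1 / 8 := by
    have h1 := exp_bound hspos
    have h2 : (2 : ℝ) ^ (2 * k - 1) ≤ T :=
      Real.rpow_le_rpow (by norm_num) (by norm_num) (by linarith)
    calc U⁻¹ * Real.exp (-π * V ^ 2 / (2 * U ^ 2)) * 2 ^ (2 * k - 1)
        ≤ (2 * s ^ 2) * T := mul_le_mul h1 h2 (by positivity) (by positivity)
      _ ≤ (2 * s) * T := by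
          apply mul_le_mul_of_nonneg_right _ hTpos.le
          linarith
      _ ≤ 1 / 8 := by
          rw [hs]
          have : 2 * (1 / (32000 * T)) * T = 1 / 16000 := by
            field_simp
            norm_num
          rw [this]
          norm_num
  refine ⟨2 / U * C₀ ^ 2 * 4 ^ k + 4000 / U * C₀ ^ 2, by positivity, ?_⟩
  intro μ ν hTh hμC hνC P Q hP hQ hb1 hb2 t ht ht1
  obtain ⟨-, -, hP3, -⟩ := h6 ν hTh.neg₂ hTh.int₂
  have hQt : 0 ≤ Q / t := by positivity
  have htk : 0 < t ^ (1 - 2 * k) := Real.rpow_pos_of_pos ht _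
  refine (h9 k C₀ μ ν hk hTh hμC hνC t U V ht ht1 hUpos hU2 hVpos hV4).trans ?_
  -- pointwise bound for the middle terms
  have hmid : ∀ j ∈ {j ∈ Finset.range (Nat.ceil (1 / t) + 1) | 2 ^ j * t ≤ V},
      ENNReal.ofReal (2000 / U * (2 ^ j * t) ^ (1 - 2 * k)) * msq ν (t / (10 * (2 ^ j * t) ^ 2)) ≤
      ENNReal.ofReal (2000 / U * C₀ ^ 2 * (2 ^ j * t) ^ (1 - 2 * k) +
        2000 / U * ((P + Q / t) * (T * t ^ (1 - 2 * k))) * (2 ^ j * t) ^ (2 * k - 1)) := by
    intro j hj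
    have hjV : 2 ^ j * t ≤ V := (Finset.mem_filter.1 hj).2
    set W := 2 ^ j * t with hW
    have hWpos : 0 < W := by positivity
    have hW4 : W ≤ 1 / 4 := hjV.trans hV4
    set τ := t / (10 * W ^ 2) with hτ
    have hτpos : 0 < τ := by positivity
    have hτt : t ≤ τ := by
      rw [hτ, le_div_iff₀ (by positivity)]
      have : 10 * W ^ 2 ≤ 1 := by nlinarith
      nlinarith
    have hmsq : msq ν τ ≤ ENNReal.ofReal (C₀ ^ 2 + (P + Q / t) * τ ^ (1 - 2 * k)) := by
      rcases le_or_gt τ 1 with h1 | h1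
      · refine (hb2 τ hτpos h1).trans (ENNReal.ofReal_le_ofReal ?_)
        have h2 : Q / τ ≤ Q / t := div_le_div_of_nonneg_left hQ ht hτt
        have h3 : (P + Q / τ) * τ ^ (1 - 2 * k) ≤ (P + Q / t) * τ ^ (1 - 2 * k) :=
          mul_le_mul_of_nonneg_right (by linarith) (by positivity)
        have h4 : 0 ≤ C₀ ^ 2 := sq_nonneg _
        linarith
      · refine (hP3 1 τ one_pos h1.le).trans ((msq_le ν 1).trans (ENNReal.ofReal_le_ofReal ?_))
        have h2 : LTr ν 1 ≤ C₀ := by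
          refine le_trans (le_of_eq ?_) hνC
          unfold LTr
          simp
        have h3 : LTr ν 1 ^ 2 ≤ C₀ ^ 2 := pow_le_pow_left₀ (LTr_nonneg ν 1) h2 2
        have h4 : 0 ≤ (P + Q / t) * τ ^ (1 - 2 * k) := by positivity
        linarith
    have hτk : τ ^ (1 - 2 * k) = T * t ^ (1 - 2 * k) * (W ^ (2 * k - 1) * W ^ (2 * k - 1)) := by
      rw [hτ, Real.div_rpow ht.le (by positivity), Real.mul_rpow (by norm_num) (by positivity),
        ← Real.mul_rpow hWpos.le hWpos.le, ← sq, hT]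
      have e1 : (10 : ℝ) ^ (1 - 2 * k) = (10 ^ (2 * k - 1))⁻¹ := by
        rw [← Real.rpow_neg (by norm_num)]
        congr 1
        ring
      have e2 : (W ^ 2) ^ (1 - 2 * k) = ((W ^ 2) ^ (2 * k - 1))⁻¹ := by
        rw [← Real.rpow_neg (by positivity)]
        congr 1
        ring
      rw [e1, e2]
      field_simp
    have hWk : W ^ (1 - 2 * k) * W ^ (2 * k - 1) = 1 := by
      rw [← Real.rpow_add hWpos]
      norm_num
    calc ENNReal.ofReal (2000 / U * W ^ (1 - 2 * k)) * msq ν τ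
        ≤ ENNReal.ofReal (2000 / U * W ^ (1 - 2 * k)) *
          ENNReal.ofReal (C₀ ^ 2 + (P + Q / t) * τ ^ (1 - 2 * k)) := mul_le_mul_right hmsq _
      _ = ENNReal.ofReal ((2000 / U * W ^ (1 - 2 * k)) *
          (C₀ ^ 2 + (P + Q / t) * τ ^ (1 - 2 * k))) :=
          (ENNReal.ofReal_mul (by positivity)).symm
      _ = _ := by
          congr 1
          rw [hτk]
          have : 2000 / U * W ^ (1 - 2 * k) *
              (C₀ ^ 2 + (P + Q / t) * (T * t ^ (1 - 2 * k) * (W ^ (2 * k - 1) * W ^ (2 * k - 1)))) =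
              2000 / U * C₀ ^ 2 * W ^ (1 - 2 * k) + 2000 / U * ((P + Q / t) * (T * t ^ (1 - 2 * k))) *
              W ^ (2 * k - 1) * (W ^ (1 - 2 * k) * W ^ (2 * k - 1)) := by ring
          rw [this, hWk, mul_one]
  have hsum : ∑ j ∈ {j ∈ Finset.range (Nat.ceil (1 / t) + 1) | 2 ^ j * t ≤ V},
      ENNReal.ofReal (2000 / U * (2 ^ j * t) ^ (1 - 2 * k)) * msq ν (t / (10 * (2 ^ j * t) ^ 2)) ≤
      ENNReal.ofReal (2000 / U * C₀ ^ 2 * (2 * t ^ (1 - 2 * k)) +
        2000 / U * ((P + Q / t) * (T * t ^ (1 - 2 * k))) * (2 * V ^ (2 * k - 1))) := by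
    refine (Finset.sum_le_sum hmid).trans ?_
    rw [← ENNReal.ofReal_sum_of_nonneg (fun j _ => by positivity)]
    apply ENNReal.ofReal_le_ofReal
    rw [Finset.sum_add_distrib, ← Finset.mul_sum, ← Finset.mul_sum]
    apply add_le_add
    · apply mul_le_mul_of_nonneg_left _ (by positivity)
      exact sum_neg_pow hk ht _ _
    · apply mul_le_mul_of_nonneg_left _ (by positivity)
      exact (sum_pos_pow (by linarith) ht hVpos _).1
  have hlast : ENNReal.ofReal (U⁻¹ * Real.exp (-π * V ^ 2 / (2 * U ^ 2))) * msq μ (t / 2) ≤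
      ENNReal.ofReal ((U⁻¹ * Real.exp (-π * V ^ 2 / (2 * U ^ 2))) *
        ((P + 2 * (Q / t)) * (2 ^ (2 * k - 1) * t ^ (1 - 2 * k)))) := by
    have h1 := hb1 (t / 2) (by positivity) (by linarith)
    have h2 : (t / 2) ^ (1 - 2 * k) = 2 ^ (2 * k - 1) * t ^ (1 - 2 * k) := by
      rw [Real.div_rpow ht.le (by norm_num), show (1 - 2 * k) = -(2 * k - 1) by ring,
        Real.rpow_neg (by norm_num : (0 : ℝ) ≤ 2), div_inv_eq_mul, mul_comm]
    have h3 : Q / (t / 2) = 2 * (Q / t) := by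
      field_simp
    rw [h2, h3] at h1
    calc _ ≤ ENNReal.ofReal (U⁻¹ * Real.exp (-π * V ^ 2 / (2 * U ^ 2))) *
          ENNReal.ofReal ((P + 2 * (Q / t)) * (2 ^ (2 * k - 1) * t ^ (1 - 2 * k))) :=
          mul_le_mul_right h1 _
      _ = _ := by rw [← ENNReal.ofReal_mul (by positivity)]
  refine (add_le_add (add_le_add le_rfl hsum) hlast).trans ?_
  rw [← ENNReal.ofReal_add (by positivity) (by positivity),
    ← ENNReal.ofReal_add (by positivity) (by positivity)]
  apply ENNReal.ofReal_le_ofReal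
  have f1 : 2000 / U * ((P + Q / t) * (T * t ^ (1 - 2 * k))) * (2 * V ^ (2 * k - 1)) ≤
      1 / 8 * ((P + Q / t) * t ^ (1 - 2 * k)) := by
    calc 2000 / U * ((P + Q / t) * (T * t ^ (1 - 2 * k))) * (2 * V ^ (2 * k - 1)) =
        (4000 / U * (T * V ^ (2 * k - 1))) * ((P + Q / t) * t ^ (1 - 2 * k)) := by ring
      _ ≤ _ := mul_le_mul_of_nonneg_right hsm1 (by positivity)
  have f2 : (U⁻¹ * Real.exp (-π * V ^ 2 / (2 * U ^ 2))) *
        ((P + 2 * (Q / t)) * (2 ^ (2 * k - 1) * t ^ (1 - 2 * k))) ≤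
      1 / 8 * ((P + 2 * (Q / t)) * t ^ (1 - 2 * k)) := by
    calc _ = (U⁻¹ * Real.exp (-π * V ^ 2 / (2 * U ^ 2)) * 2 ^ (2 * k - 1)) *
        ((P + 2 * (Q / t)) * t ^ (1 - 2 * k)) := by ring
      _ ≤ _ := mul_le_mul_of_nonneg_right hsm2 (by positivity)
  have f3 : 3 / 8 * Q / t = 3 / 8 * (Q / t) := by ring
  rw [f3]
  generalize t ^ (1 - 2 * k) = x at *
  generalize Q / t = y at *
  have g1 := add_le_add f1 f2
  calc _ = 2 / U * C₀ ^ 2 * 4 ^ k * x + 4000 / U * C₀ ^ 2 * x +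
        (2000 / U * ((P + y) * (T * x)) * (2 * V ^ (2 * k - 1)) +
        U⁻¹ * Real.exp (-π * V ^ 2 / (2 * U ^ 2)) * ((P + 2 * y) * (2 ^ (2 * k - 1) * x))) := by
        ring
    _ ≤ 2 / U * C₀ ^ 2 * 4 ^ k * x + 4000 / U * C₀ ^ 2 * x +
        (1 / 8 * ((P + y) * x) + 1 / 8 * ((P + 2 * y) * x)) := by
        gcongr
    _ = _ := by ring

end Pool.Agent.Lib.MP_adb5ad_gt
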